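import Pool.Agent.Lib_helper15.PFM.Defs
import Pool.Agent.Lib_helper18.PENKF.PA4

set_option autoImplicit false

namespace Pool.Agent.PFM

open Finset Pool.Agent.PENT Pool.Agent.PENK

variable {K : ℕ} [NeZero K]

theorem f1_dvd {p : ℕ} {a b : ℤ} (h : (p : ℤ) ∣ a - b) : (p : ℤ) ∣ a ↔ (p : ℤ) ∣ b := by
  constructor
  · intro ha
    have h1 := dvd_sub ha h
    rwa [sub_sub_cancel] at h1
  · intro hb
    have h1 := dvd_add h hb
    rwa [sub_add_cancel] at h1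

theorem f1_ind {p : ℕ} {a b : ℤ} (h : (p : ℤ) ∣ a - b) (α : ℝ) : ind p a α = ind p b α := by
  unfold ind
  simp only [f1_dvd h]

theorem f1_Rf {p : ℕ} {r r' : Bas} (h1 : (p : ℤ) ∣ r.1 - r'.1) (h2 : (p : ℤ) ∣ r.2.1 - r'.2.1)
    (h3 : (p : ℤ) ∣ r.2.2 - r'.2.2) (c : ℤ × ℤ) : (p : ℤ) ∣ Rf r c - Rf r' c := by
  have h4 : Rf r c - Rf r' c = (r.1 - r'.1) * c.1 ^ 2 + (r.2.1 - r'.2.1) * (2 * c.1 * c.2) +
      (r.2.2 - r'.2.2) * c.2 ^ 2 := by
    unfold Rf qf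
    ring
  rw [h4]
  exact dvd_add (dvd_add (Dvd.dvd.mul_right h1 _) (Dvd.dvd.mul_right h2 _))
    (Dvd.dvd.mul_right h3 _)

theorem f1_Rf' {p : ℕ} (r : Bas) {c c' : ℤ × ℤ} (h1 : (p : ℤ) ∣ c.1 - c'.1)
    (h2 : (p : ℤ) ∣ c.2 - c'.2) : (p : ℤ) ∣ Rf r c - Rf r c' := by
  have h4 : Rf r c - Rf r c' = (c.1 - c'.1) * (r.1 * (c.1 + c'.1) + 2 * r.2.1 * c.2) +
      (c.2 - c'.2) * (2 * r.2.1 * c'.1 + r.2.2 * (c.2 + c'.2)) := by
    unfold Rf qf
    ring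
  rw [h4]
  exact dvd_add (Dvd.dvd.mul_right h1 _) (Dvd.dvd.mul_right h2 _)

theorem f1_ind_mem {p : ℕ} (a : ℤ) {α : ℝ} (h0 : 0 ≤ α) (h1 : α ≤ 1) :
    0 ≤ ind p a α ∧ ind p a α ≤ 1 := by
  unfold ind
  split_ifs
  · exact ⟨h0, h1⟩
  · exact ⟨zero_le_one, le_rfl⟩

theorem f1_gi (W : Wts K) (hW : W.Ok) (P0 p : ℕ) (k : Fin K) :
    0 ≤ W.gi P0 p k ∧ W.gi P0 p k ≤ 1 := by
  unfold Wts.gi
  split_ifs
  · exact ⟨hW.bo0 k, hW.bo1 k⟩
  · exact ⟨(hW.be0 k).le, hW.be1 k⟩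

/-- block F1: `v1` is a function of `u` modulo `p`, `0 ≤ v1 ≤ 2 K / (p + 1)` (for the upper bound:
`1 - ph ≤ ∑ [p ∣ R(u_i)]`, `mV_one`); `ph` is a function of `R` modulo `p` with values in `[0,1]`. -/
theorem ph_per_pr (W : Wts K) (P0 : ℕ) (vq : Finset (Fin K)) (u : PolyK K) (p : ℕ) :
    PerV p (ph W P0 vq u p) := by
  intro r r' h1 h2 h3
  unfold ph
  exact Finset.prod_congr rfl fun k _ => f1_ind (f1_Rf h1 h2 h3 _) _

theorem ph_mem_pr (W : Wts K) (hW : W.Ok) (P0 : ℕ) (vq : Finset (Fin K)) (u : PolyK K) (p : ℕ)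
    (R : Bas) : 0 ≤ ph W P0 vq u p R ∧ ph W P0 vq u p R ≤ 1 := by
  unfold ph
  exact ⟨Finset.prod_nonneg fun k _ => (f1_ind_mem _ (f1_gi W hW P0 p k).1 (f1_gi W hW P0 p k).2).1,
    Finset.prod_le_one (fun k _ => (f1_ind_mem _ (f1_gi W hW P0 p k).1 (f1_gi W hW P0 p k).2).1)
      fun k _ => (f1_ind_mem _ (f1_gi W hW P0 p k).1 (f1_gi W hW P0 p k).2).2⟩

theorem v1_per_pr (W : Wts K) (P0 : ℕ) (vq : Finset (Fin K)) (p : ℕ) :
    PerP p (fun u => v1 W P0 vq u p) := by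
  intro u u' h
  have e : (fun R => 1 - ph W P0 vq u p R) = fun R => 1 - ph W P0 vq u' p R := by
    funext R
    congr 1
    unfold ph
    exact Finset.prod_congr rfl fun k _ => f1_ind (f1_Rf' R (h k).1 (h k).2) _
  simp only [v1, e]

theorem f1_sum {p : ℕ} (s : Finset (Fin K)) (h : Fin K → Bas → ℝ) :
    mV p (fun r => ∑ i ∈ s, h i r) = ∑ i ∈ s, mV p (h i) := by
  unfold mV
  rw [Finset.sum_comm, Finset.sum_div]

theorem f1_le (W : Wts K) (hW : W.Ok) (P0 : ℕ) (vq : Finset (Fin K)) (u : PolyK K) (p : ℕ)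
    (R : Bas) : 1 - ph W P0 vq u p R ≤ ∑ i ∈ vq, ich ((p : ℤ) ∣ Rf R (u i)) := by
  have hnn : ∀ i ∈ vq, 0 ≤ ich ((p : ℤ) ∣ Rf R (u i)) := by
    intro i _
    unfold ich
    split_ifs
    · exact zero_le_one
    · exact le_rfl
  by_cases h : ∃ i ∈ vq, (p : ℤ) ∣ Rf R (u i)
  · obtain ⟨i, hi, hd⟩ := h
    have h1 := Finset.single_le_sum hnn hi
    have h2 : ich ((p : ℤ) ∣ Rf R (u i)) = 1 := by
      unfold ich
      exact if_pos hd
    have h3 := (ph_mem_pr W hW P0 vq u p R).1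
    linarith
  · push Not at h
    have h1 : ph W P0 vq u p R = 1 := by
      unfold ph
      refine Finset.prod_eq_one fun i hi => ?_
      unfold ind
      exact if_neg (h i hi)
    rw [h1, sub_self]
    exact Finset.sum_nonneg hnn

theorem v1_bounds_pr (W : Wts K) (hW : W.Ok) (P0 : ℕ) (vq : Finset (Fin K)) (u : PolyK K) {p : ℕ}
    (hp : p.Prime) (h2 : 2 < p) (hu : ∀ i ∈ vq, ¬ ((p : ℤ) ∣ (u i).1 ∧ (p : ℤ) ∣ (u i).2)) :
    0 ≤ v1 W P0 vq u p ∧ v1 W P0 vq u p ≤ 2 * K / ((p : ℝ) + 1) := by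
  have hp0 : (0 : ℝ) < (p : ℝ) + 1 := by positivity
  constructor
  · have h := mV_mono (p := p) (h := fun _ => 0) (h' := fun R => 1 - ph W P0 vq u p R)
      (fun R => by have := (ph_mem_pr W hW P0 vq u p R).2; simpa using this)
    rw [mV_const hp h2] at h
    exact h
  · have h := mV_mono (p := p) (h := fun R => 1 - ph W P0 vq u p R)
      (h' := fun R => ∑ i ∈ vq, ich ((p : ℤ) ∣ Rf R (u i))) (f1_le W hW P0 vq u p)
    rw [f1_sum vq (fun i R => ich ((p : ℤ) ∣ Rf R (u i)))] at h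
    refine h.trans ?_
    have h3 : ∀ i ∈ vq, mV p (fun R => ich ((p : ℤ) ∣ Rf R (u i))) ≤ 2 / ((p : ℝ) + 1) := by
      intro i hi
      rw [mV_one hp h2 (u i) (hu i hi)]
      split_ifs
      · exact le_rfl
      · positivity
    refine (Finset.sum_le_card_nsmul vq _ _ h3).trans ?_
    rw [nsmul_eq_mul]
    have h4 : (vq.card : ℝ) ≤ K := by
      have := Finset.card_le_univ vq
      rw [Fintype.card_fin] at this
      exact_mod_cast this
    calc (vq.card : ℝ) * (2 / ((p : ℝ) + 1)) ≤ K * (2 / ((p : ℝ) + 1)) :=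
          mul_le_mul_of_nonneg_right h4 (by positivity)
      _ = 2 * K / ((p : ℝ) + 1) := by ring

theorem v1_mem_pr (W : Wts K) (hW : W.Ok) (P0 : ℕ) (vq : Finset (Fin K)) (u : PolyK K) {p : ℕ}
    (hp : p.Prime) (h2 : 2 < p) : 0 ≤ v1 W P0 vq u p ∧ v1 W P0 vq u p ≤ 1 := by
  constructor
  · have h := mV_mono (p := p) (h := fun _ => 0) (h' := fun R => 1 - ph W P0 vq u p R)
      (fun R => by have := (ph_mem_pr W hW P0 vq u p R).2; simpa using this)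
    rw [mV_const hp h2] at h
    exact h
  · have h := mV_mono (p := p) (h := fun R => 1 - ph W P0 vq u p R) (h' := fun _ => 1)
      (fun R => by have := (ph_mem_pr W hW P0 vq u p R).1; simpa using this)
    rw [mV_const hp h2] at h
    exact h

theorem ph_per : type_of% @ph_per_pr := @ph_per_pr

theorem ph_mem : type_of% @ph_mem_pr := @ph_mem_pr

theorem v1_per : type_of% @v1_per_pr := @v1_per_pr

theorem v1_bounds : type_of% @v1_bounds_pr := @v1_bounds_pr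

theorem v1_mem : type_of% @v1_mem_pr := @v1_mem_pr

end Pool.Agent.PFM
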