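import Pool.Agent.Lib_helper15.PFM.Defs
import Pool.Agent.Lib_helper15.PFMF.F1
import Pool.Agent.Lib_helper18.PENKF.PA4

/-! Block F2 of PFM: the lower bound for `v1` (helper53; the general part is helper41's PG2) -/

set_option autoImplicit false

namespace Pool.Agent.PFM

open Finset Pool.Agent.PENT Pool.Agent.PENK

variable {K : ℕ} [NeZero K]

/-- the sum of `x_i x_j` over the ordered pairs of different indices -/
noncomputable def f2P {ι : Type} [DecidableEq ι] (s : Finset ι) (y : ι → ι → ℝ) : ℝ :=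
  ∑ i ∈ s, ∑ j ∈ s, if i = j then 0 else y i j

theorem f2P_insert {ι : Type} [DecidableEq ι] {s : Finset ι} {a : ι} (ha : a ∉ s)
    (y : ι → ι → ℝ) : f2P (insert a s) y =
      f2P s y + ∑ j ∈ s, y a j + ∑ i ∈ s, y i a := by
  unfold f2P
  rw [Finset.sum_insert ha, Finset.sum_insert ha, if_pos rfl, zero_add]
  have e1 : ∑ j ∈ s, (if a = j then 0 else y a j) = ∑ j ∈ s, y a j :=
    Finset.sum_congr rfl fun j hj => if_neg (fun h => ha (by rw [h]; exact hj))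
  have e2 : ∑ i ∈ s, ∑ j ∈ insert a s, (if i = j then 0 else y i j) =
      ∑ i ∈ s, (y i a + ∑ j ∈ s, if i = j then 0 else y i j) := by
    refine Finset.sum_congr rfl fun i hi => ?_
    rw [Finset.sum_insert ha, if_neg (fun h => ha (by rw [← h]; exact hi))]
  rw [e1, e2, Finset.sum_add_distrib]
  ring

/-- a weighted Bonferroni inequality -/
theorem f2_bonf {ι : Type} [DecidableEq ι] (s : Finset ι) (x : ι → ℝ)
    (h0 : ∀ i ∈ s, 0 ≤ x i) (h1 : ∀ i ∈ s, x i ≤ 1) :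
    (∑ i ∈ s, x i - f2P s (fun i j => x i * x j) ≤ 1 - ∏ i ∈ s, (1 - x i)) ∧
      1 - ∑ i ∈ s, x i ≤ ∏ i ∈ s, (1 - x i) ∧ ∏ i ∈ s, (1 - x i) ≤ 1 := by
  induction s using Finset.induction_on with
  | empty => simp [f2P]
  | insert a s ha ih =>
    obtain ⟨i1, i2, i3⟩ := ih (fun i hi => h0 i (Finset.mem_insert_of_mem hi))
      (fun i hi => h1 i (Finset.mem_insert_of_mem hi))
    have a0 := h0 a (Finset.mem_insert_self a s)
    have a1 := h1 a (Finset.mem_insert_self a s)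
    have hs0 : 0 ≤ ∑ i ∈ s, x i :=
      Finset.sum_nonneg fun i hi => h0 i (Finset.mem_insert_of_mem hi)
    rw [f2P_insert ha, Finset.sum_insert ha, Finset.prod_insert ha, ← Finset.mul_sum,
      ← Finset.sum_mul]
    set Q := ∏ i ∈ s, (1 - x i) with hQ
    set X := ∑ i ∈ s, x i with hX
    have hXa : 0 ≤ x a * X := mul_nonneg a0 hs0
    have k1 : x a * (1 - X) ≤ x a * Q := mul_le_mul_of_nonneg_left i2 a0
    have k2 : x a * Q ≤ x a * 1 := mul_le_mul_of_nonneg_left i3 a0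
    have hQ0 : 0 ≤ Q := Finset.prod_nonneg fun i hi => by
      have := h1 i (Finset.mem_insert_of_mem hi); linarith
    have k3 : 0 ≤ x a * Q := mul_nonneg a0 hQ0
    refine ⟨?_, ?_, ?_⟩ <;> nlinarith

theorem f2_mV_sum {ι : Type} {p : ℕ} (s : Finset ι) (f : ι → Bas → ℝ) :
    mV p (fun r => ∑ i ∈ s, f i r) = ∑ i ∈ s, mV p (f i) := by
  unfold mV
  rw [Finset.sum_comm, Finset.sum_div]

theorem f2_mV_sub {p : ℕ} (h h' : Bas → ℝ) : mV p (fun r => h r - h' r) = mV p h - mV p h' := by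
  unfold mV
  rw [Finset.sum_sub_distrib, sub_div]

theorem f2_ich_nonneg (a : Prop) : 0 ≤ ich a := by
  unfold ich; split_ifs <;> norm_num

theorem f2_ich_le (a : Prop) : ich a ≤ 1 := by
  unfold ich; split_ifs <;> norm_num

theorem f2_ich_and (a b : Prop) : ich a * ich b = ich (a ∧ b) := by
  classical
  unfold ich
  by_cases ha : a <;> by_cases hb : b <;> simp [ha, hb]

theorem f2_ich_congr {a b : Prop} (h : a ↔ b) : ich a = ich b := by
  rw [propext h]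

/-- the mean of the simultaneous vanishing of two forms -/
theorem f2_pair {p : ℕ} (hp : p.Prime) (h2 : 2 < p) (h4 : p % 4 = 1) (c c' : ℤ × ℤ)
    (hc : ¬ ((p : ℤ) ∣ c.1 ∧ (p : ℤ) ∣ c.2)) :
    mV p (fun R => ich ((p : ℤ) ∣ Rf R c ∧ (p : ℤ) ∣ Rf R c')) ≤
      2 / (p : ℝ) * ich ((p : ℤ) ∣ dt c c') + 2 / (p : ℝ) ^ 2 := by
  have hp0 : (0 : ℝ) < p := by exact_mod_cast hp.pos
  by_cases hd : (p : ℤ) ∣ dt c c'
  · have e1 : mV p (fun R => ich ((p : ℤ) ∣ Rf R c ∧ (p : ℤ) ∣ Rf R c')) ≤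
        mV p (fun R => ich ((p : ℤ) ∣ Rf R c)) := by
      refine mV_mono fun r => ?_
      rw [← f2_ich_and]
      calc ich ((p : ℤ) ∣ Rf r c) * ich ((p : ℤ) ∣ Rf r c') ≤ ich ((p : ℤ) ∣ Rf r c) * 1 :=
            mul_le_mul_of_nonneg_left (f2_ich_le _) (f2_ich_nonneg _)
        _ = _ := mul_one _
    rw [mV_one hp h2 c hc, if_pos h4] at e1
    have e2 : ich ((p : ℤ) ∣ dt c c') = 1 := by unfold ich; rw [if_pos hd]
    have e3 : 2 / ((p : ℝ) + 1) ≤ 2 / (p : ℝ) :=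
      div_le_div_of_nonneg_left (by norm_num) hp0 (by linarith)
    have e4 : 0 ≤ 2 / (p : ℝ) ^ 2 := by positivity
    rw [e2]
    linarith
  · rw [mV_two hp h2 c c' hd, if_pos h4]
    have e2 : ich ((p : ℤ) ∣ dt c c') = 0 := by unfold ich; rw [if_neg hd]
    rw [e2, mul_zero, zero_add]
    exact div_le_div_of_nonneg_left (by norm_num) (by positivity) (by nlinarith)

/-- the general lower bound -/
theorem f2_gen {ι : Type} [DecidableEq ι] {p : ℕ} (hp : p.Prime) (h2 : 2 < p)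
    (h4 : p % 4 = 1) (s : Finset ι) (v : ι → ℤ × ℤ) (α : ι → ℝ)
    (hα0 : ∀ i ∈ s, 0 ≤ α i) (hα1 : ∀ i ∈ s, α i ≤ 1)
    (hv : ∀ i ∈ s, ¬ ((p : ℤ) ∣ (v i).1 ∧ (p : ℤ) ∣ (v i).2)) :
    ∑ i ∈ s, (1 - α i) * (2 / ((p : ℝ) + 1)) -
        f2P s (fun i j => 2 / (p : ℝ) * ich ((p : ℤ) ∣ dt (v i) (v j)) + 2 / (p : ℝ) ^ 2) ≤
      mV p (fun R => 1 - ∏ i ∈ s, ind p (Rf R (v i)) (α i)) := by
  have hpt : ∀ R : Bas, ∑ i ∈ s, (1 - α i) * ich ((p : ℤ) ∣ Rf R (v i)) -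
      f2P s (fun i j => ich ((p : ℤ) ∣ Rf R (v i) ∧ (p : ℤ) ∣ Rf R (v j))) ≤
      1 - ∏ i ∈ s, ind p (Rf R (v i)) (α i) := by
    intro R
    have hx0 : ∀ i ∈ s, 0 ≤ (1 - α i) * ich ((p : ℤ) ∣ Rf R (v i)) := fun i hi =>
      mul_nonneg (by have := hα1 i hi; linarith) (f2_ich_nonneg _)
    have hx1 : ∀ i ∈ s, (1 - α i) * ich ((p : ℤ) ∣ Rf R (v i)) ≤ 1 := by
      intro i hi
      have a := hα0 i hi
      have b := hα1 i hi
      calc (1 - α i) * ich ((p : ℤ) ∣ Rf R (v i)) ≤ 1 * 1 :=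
            mul_le_mul (by linarith) (f2_ich_le _) (f2_ich_nonneg _) zero_le_one
        _ = 1 := one_mul _
    have hb := (f2_bonf s _ hx0 hx1).1
    have hprod : ∏ i ∈ s, (1 - (1 - α i) * ich ((p : ℤ) ∣ Rf R (v i))) =
        ∏ i ∈ s, ind p (Rf R (v i)) (α i) := by
      refine Finset.prod_congr rfl fun i _ => ?_
      unfold ind ich
      split_ifs <;> ring
    rw [hprod] at hb
    have hP : f2P s (fun i j => (1 - α i) * ich ((p : ℤ) ∣ Rf R (v i)) *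
        ((1 - α j) * ich ((p : ℤ) ∣ Rf R (v j)))) ≤
        f2P s (fun i j => ich ((p : ℤ) ∣ Rf R (v i) ∧ (p : ℤ) ∣ Rf R (v j))) := by
      unfold f2P
      refine Finset.sum_le_sum fun i hi => Finset.sum_le_sum fun j hj => ?_
      split_ifs
      · exact le_rfl
      · show (1 - α i) * ich ((p : ℤ) ∣ Rf R (v i)) * ((1 - α j) * ich ((p : ℤ) ∣ Rf R (v j))) ≤
          ich ((p : ℤ) ∣ Rf R (v i) ∧ (p : ℤ) ∣ Rf R (v j))
        rw [← f2_ich_and]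
        have a := hα0 i hi
        have b := hα1 i hi
        have c := hα0 j hj
        have d := hα1 j hj
        refine mul_le_mul ?_ ?_ (hx0 j hj) (f2_ich_nonneg _)
        · calc (1 - α i) * ich ((p : ℤ) ∣ Rf R (v i)) ≤ 1 * ich ((p : ℤ) ∣ Rf R (v i)) :=
                mul_le_mul_of_nonneg_right (by linarith) (f2_ich_nonneg _)
            _ = _ := one_mul _
        · calc (1 - α j) * ich ((p : ℤ) ∣ Rf R (v j)) ≤ 1 * ich ((p : ℤ) ∣ Rf R (v j)) :=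
                mul_le_mul_of_nonneg_right (by linarith) (f2_ich_nonneg _)
            _ = _ := one_mul _
    linarith
  refine le_trans ?_ (mV_mono hpt)
  rw [f2_mV_sub, f2_mV_sum]
  have e1 : ∑ i ∈ s, mV p (fun R => (1 - α i) * ich ((p : ℤ) ∣ Rf R (v i))) =
      ∑ i ∈ s, (1 - α i) * (2 / ((p : ℝ) + 1)) := by
    refine Finset.sum_congr rfl fun i hi => ?_
    rw [mV_smul, mV_one hp h2 (v i) (hv i hi), if_pos h4]
  have e2 : mV p (fun R => f2P s (fun i j =>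
      ich ((p : ℤ) ∣ Rf R (v i) ∧ (p : ℤ) ∣ Rf R (v j)))) ≤
      f2P s (fun i j => 2 / (p : ℝ) * ich ((p : ℤ) ∣ dt (v i) (v j)) + 2 / (p : ℝ) ^ 2) := by
    unfold f2P
    rw [f2_mV_sum]
    refine Finset.sum_le_sum fun i hi => ?_
    rw [f2_mV_sum]
    refine Finset.sum_le_sum fun j hj => ?_
    by_cases hij : i = j
    · have : (fun R : Bas => if i = j then (0 : ℝ) else
          ich ((p : ℤ) ∣ Rf R (v i) ∧ (p : ℤ) ∣ Rf R (v j))) = fun _ => 0 := by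
        funext R; rw [if_pos hij]
      rw [this, if_pos hij]
      unfold mV
      simp
    · have : (fun R : Bas => if i = j then (0 : ℝ) else
          ich ((p : ℤ) ∣ Rf R (v i) ∧ (p : ℤ) ∣ Rf R (v j))) =
          fun R => ich ((p : ℤ) ∣ Rf R (v i) ∧ (p : ℤ) ∣ Rf R (v j)) := by
        funext R; rw [if_neg hij]
      rw [this, if_neg hij]
      exact f2_pair hp h2 h4 (v i) (v j) (hv i hi)
  linarith


/-- block F2: the lower bound for `v1` (as helper18's PG2 `vv_lower`):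
`1 - ∏ (1 - (1 - α_i) x_i) ≥ ∑ (1 - α_i) x_i - ∑_{i ≠ j} x_i x_j` for `x_i ∈ {0,1}`,
`P(p ∣ R(u_i)) = 2/(p+1)` (`p ≡ 1`), `P(p ∣ R(u_i), R(u_j)) ≤ 2/(p (p+1))` if `p ∤ dt (u_i) (u_j)`, else
`≤ 2/(p+1)`. -/
theorem v1_lower_pr (W : Wts K) (hW : W.Ok) (vq : Finset (Fin K)) : ∃ C1 : ℝ, 0 ≤ C1 ∧
    ∀ (P0 p : ℕ), p.Prime → 2 < p → ∀ u : PolyK K,
    (∀ i ∈ vq, ¬ ((p : ℤ) ∣ (u i).1 ∧ (p : ℤ) ∣ (u i).2)) →
    (if p % 4 = 3 then 0 else
      2 * (∑ i ∈ vq, (1 - W.gi P0 p i)) / p - C1 / (p : ℝ) ^ 2 -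
        C1 / p * ∑ i ∈ vq, ∑ j ∈ vq, (if i = j then 0 else ich ((p : ℤ) ∣ dt (u i) (u j))) : ℝ) ≤
      v1 W P0 vq u p := by
  classical
  set N : ℝ := (vq.card : ℝ) with hN
  have hN0 : 0 ≤ N := by rw [hN]; positivity
  refine ⟨2 * N + 2 * (N * N) + 2, by positivity, ?_⟩
  intro P0 p hp h2 u hu
  have hp0 : (0 : ℝ) < p := by exact_mod_cast hp.pos
  by_cases h3 : p % 4 = 3
  · rw [if_pos h3]
    exact (v1_bounds W hW P0 vq u hp h2 hu).1
  rw [if_neg h3]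
  have h4 : p % 4 = 1 := by
    rcases hp.eq_two_or_odd with h | h
    · omega
    · omega
  have hgi : ∀ k, 0 ≤ W.gi P0 p k ∧ W.gi P0 p k ≤ 1 := by
    intro k
    unfold Wts.gi
    split_ifs
    · exact ⟨hW.bo0 k, hW.bo1 k⟩
    · exact ⟨(hW.be0 k).le, hW.be1 k⟩
  have hgen := f2_gen hp h2 h4 vq u (W.gi P0 p) (fun i _ => (hgi i).1) (fun i _ => (hgi i).2) hu
  have hvv : v1 W P0 vq u p =
      mV p (fun R => 1 - ∏ i ∈ vq, ind p (Rf R (u i)) (W.gi P0 p i)) := rfl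
  rw [hvv]
  refine le_trans ?_ hgen
  have hsumN : ∑ i ∈ vq, (1 - W.gi P0 p i) ≤ N := by
    calc ∑ i ∈ vq, (1 - W.gi P0 p i) ≤ ∑ _i ∈ vq, (1 : ℝ) :=
          Finset.sum_le_sum fun i _ => by have := (hgi i).1; linarith
      _ = N := by rw [Finset.sum_const, nsmul_eq_mul, mul_one]
  have hsum0 : 0 ≤ ∑ i ∈ vq, (1 - W.gi P0 p i) :=
    Finset.sum_nonneg fun i _ => by have := (hgi i).2; linarith
  have h2p : 2 / (p : ℝ) - 2 / (p : ℝ) ^ 2 ≤ 2 / ((p : ℝ) + 1) := by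
    rw [div_sub_div _ _ hp0.ne' (by positivity), div_le_div_iff₀ (by positivity) (by positivity)]
    nlinarith [hp0, mul_pos hp0 hp0]
  have hfirst : (∑ i ∈ vq, (1 - W.gi P0 p i)) * (2 / (p : ℝ)) - 2 * N / (p : ℝ) ^ 2 ≤
      ∑ i ∈ vq, (1 - W.gi P0 p i) * (2 / ((p : ℝ) + 1)) := by
    rw [← Finset.sum_mul]
    have k1 : (∑ i ∈ vq, (1 - W.gi P0 p i)) * (2 / (p : ℝ) - 2 / (p : ℝ) ^ 2) ≤
        (∑ i ∈ vq, (1 - W.gi P0 p i)) * (2 / ((p : ℝ) + 1)) := mul_le_mul_of_nonneg_left h2p hsum0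
    have k2 : (∑ i ∈ vq, (1 - W.gi P0 p i)) * (2 / (p : ℝ) ^ 2) ≤ N * (2 / (p : ℝ) ^ 2) :=
      mul_le_mul_of_nonneg_right hsumN (by positivity)
    have k3 : N * (2 / (p : ℝ) ^ 2) = 2 * N / (p : ℝ) ^ 2 := by ring
    rw [mul_sub] at k1
    linarith
  set E : ℝ := ∑ i ∈ vq, ∑ j ∈ vq, (if i = j then 0 else ich ((p : ℤ) ∣ dt (u i) (u j))) with hE
  have hE0 : 0 ≤ E := by
    rw [hE]
    refine Finset.sum_nonneg fun i _ => Finset.sum_nonneg fun j _ => ?_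
    split_ifs
    · exact le_rfl
    · exact f2_ich_nonneg _
  have hsecond : f2P vq (fun i j => 2 / (p : ℝ) * ich ((p : ℤ) ∣ dt (u i) (u j)) +
      2 / (p : ℝ) ^ 2) ≤ 2 * (N * N) / (p : ℝ) ^ 2 + 2 / p * E := by
    have k1 : f2P vq (fun i j => 2 / (p : ℝ) * ich ((p : ℤ) ∣ dt (u i) (u j)) +
        2 / (p : ℝ) ^ 2) ≤ 2 / (p : ℝ) * f2P vq (fun i j => ich ((p : ℤ) ∣ dt (u i) (u j))) +
        ∑ _i ∈ vq, ∑ _j ∈ vq, 2 / (p : ℝ) ^ 2 := by
      unfold f2P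
      rw [Finset.mul_sum, ← Finset.sum_add_distrib]
      refine Finset.sum_le_sum fun i _ => ?_
      rw [Finset.mul_sum, ← Finset.sum_add_distrib]
      refine Finset.sum_le_sum fun j _ => ?_
      split_ifs
      · have : 0 ≤ 2 / (p : ℝ) ^ 2 := by positivity
        linarith
      · exact le_rfl
    have k2 : ∑ _i ∈ vq, ∑ _j ∈ vq, 2 / (p : ℝ) ^ 2 = 2 * (N * N) / (p : ℝ) ^ 2 := by
      rw [Finset.sum_const, Finset.sum_const, nsmul_eq_mul, nsmul_eq_mul]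
      rw [← hN]; ring
    have k3 : f2P vq (fun i j => ich ((p : ℤ) ∣ dt (u i) (u j))) = E := rfl
    rw [k3] at k1
    linarith
  have hmain : 2 * (∑ i ∈ vq, (1 - W.gi P0 p i)) / p =
      (∑ i ∈ vq, (1 - W.gi P0 p i)) * (2 / (p : ℝ)) := by ring
  rw [hmain]
  have c1 : (2 * N + 2 * (N * N) + 2) / (p : ℝ) ^ 2 =
      2 * N / (p : ℝ) ^ 2 + 2 * (N * N) / (p : ℝ) ^ 2 + 2 / (p : ℝ) ^ 2 := by ring
  have c2 : (2 * N + 2 * (N * N) + 2) / (p : ℝ) * E =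
      (2 * N + 2 * (N * N)) / (p : ℝ) * E + 2 / p * E := by ring
  have c3 : 0 ≤ (2 * N + 2 * (N * N)) / (p : ℝ) * E := by positivity
  have c4 : 0 ≤ 2 / (p : ℝ) ^ 2 := by positivity
  rw [c1, c2]
  linarith

theorem v1_lower : type_of% @v1_lower_pr := @v1_lower_pr

end Pool.Agent.PFM
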