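import Pool.Agent.Lib_helper15.PFM.Defs
import Pool.Agent.Lib_helper15.PFMF.F1
import Pool.Agent.Lib_helper15.PFMF.F3
import Pool.Agent.Lib_helper18.PENKF.PG1
import Pool.Agent.Lib_helper8.PENT.BH
import Pool.Agent.Lib_helper18.PENKF.PA4

set_option autoImplicit false

namespace Pool.Agent.PFM

open Finset Pool.Agent.PENT Pool.Agent.PENK

variable {K : ℕ} [NeZero K]

theorem f4_mem {L : Finset (PolyK K)} (hL : L.Nonempty) {h : PolyK K → ℝ}
    (hh : ∀ u, 0 ≤ h u ∧ h u ≤ 1) : 0 ≤ mL L h ∧ mL L h ≤ 1 := by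
  constructor
  · have := mL_mono (L := L) (h := fun _ => (0 : ℝ)) (h' := h) (fun r _ => (hh r).1)
    rwa [mL_const hL] at this
  · have := mL_mono (L := L) (h := h) (h' := fun _ => (1 : ℝ)) (fun r _ => (hh r).2)
    rwa [mL_const hL] at this

/-- block F4 (uses F3, `brun_primes`): the second sieve (as helper18's PG4 `c3_sieve`). `x o p = 1 - Ph`,
`X = #O`, errors from `EquiF` (expand `∏ x o p` is a product of functions modulo `p` with values in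
`[0,1]`: take `h p = 1 - Ph`). `ps` so large that the densities are `≤ 1/2`. -/
theorem c1_sieve_pr (W : Wts K) (hW : W.Ok) (fe vq : Finset (Fin K)) (C0 : ℝ) (hC0 : 0 ≤ C0) :
    ∃ (ps k : ℕ) (C1 : ℝ), 100 * K ≤ ps ∧ 2 ≤ ps ∧ 0 ≤ C1 ∧ ∀ (ι : Type) (O : Finset ι)
      (pol : ι → PolyK K) (L : ℕ → Finset (PolyK K)) (S : Finset ℕ) (P0 P : ℕ) (η : ℝ), 1 ≤ P →
      0 ≤ η → η ≤ 1 → (∀ p ∈ S, p.Prime ∧ ps < p ∧ p ≤ P) → (∀ p ∈ S, LocS fe vq p (L p) C0) →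
      EquiF O pol L S ((P : ℝ) ^ k) η →
      ∑ o ∈ O, ∏ p ∈ S, Ph W P0 fe vq (pol o) p ≤
        (O.card : ℝ) * (2 * ∏ p ∈ S, (1 - bd fe vq W P0 p / p + C1 / (p : ℝ) ^ 2) +
          (P : ℝ) ^ k * η) ∧
      ∀ p ∈ S, 1 / 4 ≤ 1 - bd fe vq W P0 p / p + C1 / (p : ℝ) ^ 2 := by
  obtain ⟨D, hD0, hloc⟩ := c1_local W hW fe vq C0 hC0
  obtain ⟨k, hk⟩ := brun_primes D 2 hD0 (by norm_num)
  refine ⟨100 * K + ⌈2 * D⌉₊ + 2, k, D, by omega, by omega, hD0, ?_⟩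
  intro ι O pol L S P0 P η hP hη hη1 hS hLoc hE
  -- the density
  set g : ℕ → ℝ := fun p => mL (L p) (fun u => 1 - Ph W P0 fe vq u p) with hg
  have h2p : ∀ p ∈ S, 2 < p := fun p hp => by
    have := (hS p hp).2.1
    omega
  have hx01 : ∀ p ∈ S, ∀ u : PolyK K, 0 ≤ 1 - Ph W P0 fe vq u p ∧
      1 - Ph W P0 fe vq u p ≤ 1 := by
    intro p hp u
    have := Ph_mem W hW P0 fe vq (hS p hp).1 (h2p p hp) u
    exact ⟨by linarith [this.2], by linarith [this.1]⟩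
  have hg01 : ∀ p ∈ S, 0 ≤ g p ∧ g p ≤ 1 := fun p hp =>
    f4_mem (hLoc p hp).ne (fun u => hx01 p hp u)
  have hgl : ∀ p ∈ S, bd fe vq W P0 p / p - D / (p : ℝ) ^ 2 ≤ g p ∧ g p ≤ D / p := fun p hp =>
    hloc P0 p (hS p hp).1 (h2p p hp) (L p) (hLoc p hp)
  have hDp : ∀ p ∈ S, D / (p : ℝ) ≤ 1 / 2 := by
    intro p hp
    have h1 : (100 * K + ⌈2 * D⌉₊ + 2 : ℕ) < p := (hS p hp).2.1
    have h2 : (2 * D : ℝ) ≤ (⌈2 * D⌉₊ : ℝ) := Nat.le_ceil _
    have h3 : ((⌈2 * D⌉₊ : ℕ) : ℝ) ≤ (p : ℝ) := by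
      have : ⌈2 * D⌉₊ ≤ p := by omega
      exact_mod_cast this
    have hp0 : (0 : ℝ) < p := by exact_mod_cast (hS p hp).1.pos
    rw [div_le_iff₀ hp0]
    linarith
  have hX : (0 : ℝ) ≤ (O.card : ℝ) := by positivity
  have hR : (0 : ℝ) ≤ η * (O.card : ℝ) := by positivity
  have key := (hk ι O (fun _ => 1)
    (fun o p => 1 - Ph W P0 fe vq (pol o) p) S P g (O.card : ℝ)
    (η * (O.card : ℝ)) hP (fun _ _ => zero_le_one)
    (fun o _ p hp => hx01 p hp (pol o))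
    (fun p hp => ⟨(hS p hp).1, (hS p hp).2.2⟩)
    (fun p hp => ⟨(hg01 p hp).1, by
      have := (hgl p hp).2.trans (hDp p hp)
      norm_num
      linarith, (hgl p hp).2⟩) hX hR ?_).2
  · constructor
    · have e1 : ∑ o ∈ O, (fun _ : ι => (1 : ℝ)) o *
          ∏ p ∈ S, (1 - (1 - Ph W P0 fe vq (pol o) p)) =
          ∑ o ∈ O, ∏ p ∈ S, Ph W P0 fe vq (pol o) p := by
        refine Finset.sum_congr rfl fun o _ => ?_
        simp only [one_mul, sub_sub_cancel]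
      have key2 : ∑ o ∈ O, ∏ p ∈ S, Ph W P0 fe vq (pol o) p ≤
          2 * ((O.card : ℝ) * ∏ p ∈ S, (1 - g p)) + (P : ℝ) ^ k * (η * (O.card : ℝ)) := by
        rw [← e1]; exact key
      refine key2.trans ?_
      have h3 : ∏ p ∈ S, (1 - g p) ≤
          ∏ p ∈ S, (1 - bd fe vq W P0 p / p + D / (p : ℝ) ^ 2) := by
        refine Finset.prod_le_prod (fun p hp => by linarith [(hg01 p hp).2]) fun p hp => ?_
        linarith [(hgl p hp).1]
      have h4 := mul_le_mul_of_nonneg_left h3 hX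
      calc 2 * ((O.card : ℝ) * ∏ p ∈ S, (1 - g p)) + (P : ℝ) ^ k * (η * (O.card : ℝ))
          ≤ 2 * ((O.card : ℝ) * ∏ p ∈ S, (1 - bd fe vq W P0 p / p + D / (p : ℝ) ^ 2)) +
            (P : ℝ) ^ k * (η * (O.card : ℝ)) := by linarith
        _ = _ := by ring
    · intro p hp
      have h1 := (hgl p hp).1.trans ((hgl p hp).2.trans (hDp p hp))
      linarith
  · -- the hypothesis of the sieve
    intro T hT hTP
    have hTP' : ((∏ p ∈ T, p : ℕ) : ℝ) ≤ (P : ℝ) ^ k := by exact_mod_cast hTP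
    have a2 : |∑ o ∈ O, ∏ p ∈ T, (1 - Ph W P0 fe vq (pol o) p) -
        O.card * ∏ p ∈ T, g p| ≤ η * O.card := by
      refine hE T hT hTP' (fun p u => 1 - Ph W P0 fe vq u p) ?_ ?_
      · intro p hp u1 u2 huu
        have := Ph_per W P0 fe vq p u1 u2 huu
        simp only at this ⊢
        rw [this]
      · intro p hp u
        exact hx01 p (hT hp) u
    simpa only [one_mul] using a2

theorem c1_sieve : type_of% @c1_sieve_pr := @c1_sieve_pr

end Pool.Agent.PFM
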