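import Mathlib
import Pool.Agent.Lib_helper15.PFM.Defs
import Pool.Agent.Lib_helper15.PFMF.F1

set_option autoImplicit false

namespace Pool.Agent.PFM

open Finset Pool.Agent.PENT Pool.Agent.PENK

variable {K : ℕ} [NeZero K]

theorem f6_ne {E : Finset (Fin K)} {P0 : ℕ} {u : PolyK K} (h : IsP E P0 u) : DE E u ≠ 0 :=
  Finset.prod_ne_zero_iff.mpr (fun j hj => (h.sq j hj).ne_zero)

theorem f6_one {E : Finset (Fin K)} {P0 : ℕ} {u : PolyK K} (h : IsP E P0 u) {p : ℕ}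
    (hp : p.Prime) (hd : p ∣ DE E u) :
    ∃ j0 ∈ E, p ∣ dn u j0 ∧ ∀ j ∈ E, p ∣ dn u j → j = j0 := by
  obtain ⟨j0, hj0, hdj⟩ := (hp.prime.dvd_finsetProd_iff _).mp hd
  refine ⟨j0, hj0, hdj, ?_⟩
  intro j hj hd2
  by_contra hne
  exact Nat.not_coprime_of_dvd_of_dvd hp.one_lt hd2 hdj (h.co j hj j0 hj0 hne)

theorem f6_single {E : Finset (Fin K)} {u : PolyK K} {p : ℕ}
    {j0 : Fin K} (hj0 : j0 ∈ E) (hd : p ∣ dn u j0)
    (hu : ∀ j ∈ E, p ∣ dn u j → j = j0) (f : Fin K → ℝ) :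
    ∏ j ∈ E, (if p ∣ dn u j then f j else 1) = f j0 := by
  rw [Finset.prod_eq_single_of_mem j0 hj0]
  · rw [if_pos hd]
  · intro j hj hne
    rw [if_neg]
    intro h2
    exact hne (hu j hj h2)

theorem f6_pf {E : Finset (Fin K)} {P0 : ℕ} {u : PolyK K} (h : IsP E P0 u) {j : Fin K}
    (hj : j ∈ E) : (dn u j).primeFactors = (DE E u).primeFactors.filter (fun p => p ∣ dn u j) := by
  ext p
  rw [Finset.mem_filter, Nat.mem_primeFactors, Nat.mem_primeFactors]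
  constructor
  · intro ⟨h1, h2, _⟩
    exact ⟨⟨h1, dvd_trans h2 (Finset.dvd_prod_of_mem _ hj), f6_ne h⟩, h2⟩
  · intro ⟨⟨h1, _, _⟩, h2⟩
    exact ⟨h1, h2, (h.sq j hj).ne_zero⟩

theorem f6_swap {E : Finset (Fin K)} {P0 : ℕ} {u : PolyK K} (h : IsP E P0 u)
    (f : Fin K → ℕ → ℝ) :
    ∏ j ∈ E, ∏ p ∈ (dn u j).primeFactors, f j p =
      ∏ p ∈ (DE E u).primeFactors, ∏ j ∈ E, (if p ∣ dn u j then f j p else 1) := by
  rw [Finset.prod_comm]
  apply Finset.prod_congr rfl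
  intro j hj
  rw [f6_pf h hj, Finset.prod_filter]

theorem f6_inv {E : Finset (Fin K)} {P0 : ℕ} {u : PolyK K} (h : IsP E P0 u) :
    ∏ j ∈ E, ∏ p ∈ (dn u j).primeFactors, (1 / (p : ℝ)) = 1 / (DE E u : ℝ) := by
  have h1 : ∀ j ∈ E, ∏ p ∈ (dn u j).primeFactors, (1 / (p : ℝ)) = 1 / (dn u j : ℝ) := by
    intro j hj
    have h2 := Nat.prod_primeFactors_of_squarefree (h.sq j hj)
    have h3 : ((∏ p ∈ (dn u j).primeFactors, p : ℕ) : ℝ) = (dn u j : ℝ) := by rw [h2]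
    rw [Nat.cast_prod] at h3
    rw [Finset.prod_div_distrib, Finset.prod_const_one, h3]
  rw [Finset.prod_congr rfl h1, Finset.prod_div_distrib, Finset.prod_const_one]
  unfold DE
  rw [Nat.cast_prod]

/-- the number of the prime factors larger than `P` -/
theorem f6_large {D P : ℕ} {x τ : ℝ} (hx : 2 ≤ x) (hτ : 0 < τ) (hP : x ^ τ ≤ P) (hD : D ≠ 0)
    (hDx : (D : ℝ) ≤ x) :
    (2 : ℝ) ^ (D.primeFactors.filter (fun p => P < p)).card ≤ (2 : ℝ) ^ (1 / τ) := by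
  obtain ⟨B, hB⟩ : ∃ B, B = D.primeFactors.filter (fun p => P < p) := ⟨_, rfl⟩
  rw [← hB]
  have hx0 : (0 : ℝ) < x := by linarith
  have h1 : (x ^ τ) ^ B.card ≤ x := by
    have h2 : (x ^ τ) ^ B.card ≤ ∏ p ∈ B, (p : ℝ) := by
      rw [← Finset.prod_const]
      apply Finset.prod_le_prod
      · intro p _
        positivity
      · intro p hp
        rw [hB, Finset.mem_filter] at hp
        have h3 : (P : ℝ) ≤ (p : ℝ) := by exact_mod_cast hp.2.le
        linarith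
    have h3 : (∏ p ∈ B, p) ≤ D := by
      apply Nat.le_of_dvd (Nat.pos_of_ne_zero hD)
      refine dvd_trans (Finset.prod_dvd_prod_of_subset B D.primeFactors (fun p => p) ?_)
        (Nat.prod_primeFactors_dvd D)
      rw [hB]
      exact Finset.filter_subset _ _
    have h4 : (∏ p ∈ B, (p : ℝ)) ≤ (D : ℝ) := by
      have h5 : (((∏ p ∈ B, p : ℕ)) : ℝ) ≤ (D : ℝ) := Nat.cast_le.mpr h3
      rw [Nat.cast_prod] at h5
      exact h5
    linarith
  have h5 : x ^ (τ * B.card) ≤ x ^ (1 : ℝ) := by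
    rw [Real.rpow_mul hx0.le, Real.rpow_natCast, Real.rpow_one]
    exact h1
  have h6 : τ * B.card ≤ 1 := (Real.rpow_le_rpow_left_iff (by linarith)).mp h5
  have h7 : (B.card : ℝ) ≤ 1 / τ := by
    rw [le_div_iff₀ hτ]
    linarith
  rw [← Real.rpow_natCast]
  exact Real.rpow_le_rpow_of_exponent_le (by norm_num) h7

/-- block F6 (uses F1): the passage from `v1` to `Ph` (as helper18's PG5 `wi_VP_le`). The primes `> P` of
`DE` are at most `1/τ` in number and cost a factor `2` each; the others belong to `S` if they are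
`> ps`. -/
theorem w1_le_pr (W : Wts K) (hW : W.Ok) (fe vq : Finset (Fin K)) {τ : ℝ} (hτ : 0 < τ) :
    ∃ C x₀ : ℝ, 0 ≤ C ∧ 1 ≤ x₀ ∧ ∀ x ≥ x₀, ∀ P0 P ps : ℕ, 100 * K ≤ ps → 2 ≤ ps → ps ≤ P0 →
    x ^ τ ≤ P → ∀ u : PolyK K, IsP fe P0 u → (DE fe u : ℝ) ≤ x → ∀ m : ℕ,
    Nat.Coprime m (DE fe u) →
    (∏ j ∈ fe, ∏ p ∈ (dn u j).primeFactors, 2 * lw P p (W.al j) / (p : ℝ)) *
      ∏ p ∈ (prs (100 * K) P).filter (fun p => ¬ p ∣ DE fe u), (1 - v1 W P0 vq u p) ≤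
      C / (DE fe u : ℝ) * ∏ p ∈ (prs ps P).filter (fun p => ¬ p ∣ m), Ph W P0 fe vq u p := by
  refine ⟨(2 : ℝ) ^ (1 / τ), 2, by positivity, by norm_num, ?_⟩
  intro x hx P0 P ps hps hps2 hps0 hP u hu hDx m hm
  have hK1 : 1 ≤ K := Nat.one_le_iff_ne_zero.mpr (NeZero.ne K)
  obtain ⟨D, hD⟩ : ∃ D, D = DE fe u := ⟨_, rfl⟩
  have hD0 : DE fe u ≠ 0 := f6_ne hu
  -- the first factor
  have e1 : (∏ j ∈ fe, ∏ p ∈ (dn u j).primeFactors, 2 * lw P p (W.al j) / (p : ℝ)) =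
      (∏ p ∈ (DE fe u).primeFactors, ∏ j ∈ fe,
        (if p ∣ dn u j then 2 * lw P p (W.al j) else 1)) * (1 / (DE fe u : ℝ)) := by
    rw [← f6_inv hu, ← f6_swap hu, ← Finset.prod_mul_distrib]
    apply Finset.prod_congr rfl
    intro j _
    rw [← Finset.prod_mul_distrib]
    apply Finset.prod_congr rfl
    intro p _
    ring
  obtain ⟨h, hh⟩ : ∃ h : ℕ → ℝ, h = fun p => ∏ j ∈ fe,
    (if p ∣ dn u j then 2 * lw P p (W.al j) else 1) := ⟨_, rfl⟩
  have e2 : (∏ p ∈ (DE fe u).primeFactors, ∏ j ∈ fe,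
        (if p ∣ dn u j then 2 * lw P p (W.al j) else 1)) =
      (∏ p ∈ (DE fe u).primeFactors.filter (fun p => P < p), h p) *
        ∏ p ∈ (DE fe u).primeFactors.filter (fun p => ¬ P < p), h p := by
    rw [Finset.prod_filter_mul_prod_filter_not, hh]
  have hlw0 : ∀ (p : ℕ) (j : Fin K), 0 ≤ 2 * lw P p (W.al j) := by
    intro p j
    unfold lw
    split_ifs
    · have h1 := hW.al0 j
      linarith
    · norm_num
  have hh0 : ∀ p, 0 ≤ h p := by
    intro p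
    rw [hh]
    apply Finset.prod_nonneg
    intro j _
    split_ifs
    · exact hlw0 p j
    · norm_num
  have e3 : (∏ p ∈ (DE fe u).primeFactors.filter (fun p => P < p), h p) ≤ (2 : ℝ) ^ (1 / τ) := by
    refine le_trans ?_ (f6_large hx hτ hP hD0 hDx)
    rw [← Finset.prod_const]
    apply Finset.prod_le_prod
    · intro p _
      exact hh0 p
    · intro p hp
      rw [Finset.mem_filter, Nat.mem_primeFactors] at hp
      obtain ⟨j0, hj0, hd0, hu0⟩ := f6_one hu hp.1.1 hp.1.2.1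
      rw [hh]
      show ∏ j ∈ fe, (if p ∣ dn u j then 2 * lw P p (W.al j) else 1) ≤ 2
      rw [f6_single hj0 hd0 hu0 (fun j => 2 * lw P p (W.al j))]
      unfold lw
      rw [if_neg (not_le.mpr hp.2)]
      norm_num
  -- the product on the right
  have r1 : ∏ p ∈ (prs ps P).filter (fun p => ¬ p ∣ m), Ph W P0 fe vq u p =
      (∏ p ∈ ((prs ps P).filter (fun p => ¬ p ∣ m)).filter (fun p => p ∣ DE fe u),
        Ph W P0 fe vq u p) *
      ∏ p ∈ ((prs ps P).filter (fun p => ¬ p ∣ m)).filter (fun p => ¬ p ∣ DE fe u),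
        Ph W P0 fe vq u p := by
    rw [Finset.prod_filter_mul_prod_filter_not]
  have r2 : ((prs ps P).filter (fun p => ¬ p ∣ m)).filter (fun p => p ∣ DE fe u) =
      (DE fe u).primeFactors.filter (fun p => ¬ P < p) := by
    ext p
    unfold prs
    simp only [Finset.mem_filter, Finset.mem_Ioc, Nat.mem_primeFactors]
    constructor
    · intro ⟨⟨⟨⟨_, h2⟩, h3⟩, _⟩, h5⟩
      exact ⟨⟨h3, h5, hD0⟩, not_lt.mpr h2⟩
    · intro ⟨⟨h3, h5, _⟩, h6⟩
      obtain ⟨j0, hj0, hd0, _⟩ := f6_one hu h3 h5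
      have h7 := (hu.ro j0 hj0 p h3 hd0).1
      refine ⟨⟨⟨⟨lt_of_le_of_lt hps0 h7, not_lt.mp h6⟩, h3⟩, ?_⟩, h5⟩
      intro h8
      exact Nat.not_coprime_of_dvd_of_dvd h3.one_lt h8 h5 hm
  have r3 : ∏ p ∈ (DE fe u).primeFactors.filter (fun p => ¬ P < p), Ph W P0 fe vq u p =
      ∏ p ∈ (DE fe u).primeFactors.filter (fun p => ¬ P < p), h p := by
    apply Finset.prod_congr rfl
    intro p hp
    rw [Finset.mem_filter, Nat.mem_primeFactors] at hp
    obtain ⟨j0, hj0, hd0, _⟩ := f6_one hu hp.1.1 hp.1.2.1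
    have h7 := hu.ro j0 hj0 p hp.1.1 hd0
    unfold Ph
    rw [if_pos hp.1.2.1, if_neg, hh]
    · apply Finset.prod_congr rfl
      intro j _
      split_ifs with h8
      · unfold lw
        rw [if_pos (not_lt.mp hp.2)]
      · rfl
    · intro h8
      rcases h8 with h8 | h8
      · exact absurd h7.1 (not_lt.mpr h8)
      · rw [h7.2] at h8
        norm_num at h8
  have hv : ∀ p ∈ (prs (100 * K) P).filter (fun p => ¬ p ∣ DE fe u),
      0 ≤ 1 - v1 W P0 vq u p ∧ 1 - v1 W P0 vq u p ≤ 1 := by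
    intro p hp
    unfold prs at hp
    simp only [Finset.mem_filter, Finset.mem_Ioc] at hp
    have h1 : 2 < p := by omega
    have h2 := v1_mem W hW P0 vq u hp.1.2 h1
    constructor <;> linarith
  have r4 : ∏ p ∈ (prs (100 * K) P).filter (fun p => ¬ p ∣ DE fe u), (1 - v1 W P0 vq u p) ≤
      ∏ p ∈ ((prs ps P).filter (fun p => ¬ p ∣ m)).filter (fun p => ¬ p ∣ DE fe u),
        Ph W P0 fe vq u p := by
    have s1 : ((prs ps P).filter (fun p => ¬ p ∣ m)).filter (fun p => ¬ p ∣ DE fe u) ⊆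
        (prs (100 * K) P).filter (fun p => ¬ p ∣ DE fe u) := by
      intro p hp
      unfold prs at hp ⊢
      simp only [Finset.mem_filter, Finset.mem_Ioc] at hp ⊢
      refine ⟨⟨⟨by omega, hp.1.1.1.2⟩, hp.1.1.2⟩, hp.2⟩
    have s2 : ∏ p ∈ ((prs ps P).filter (fun p => ¬ p ∣ m)).filter (fun p => ¬ p ∣ DE fe u),
        Ph W P0 fe vq u p =
        ∏ p ∈ ((prs ps P).filter (fun p => ¬ p ∣ m)).filter (fun p => ¬ p ∣ DE fe u),
          (1 - v1 W P0 vq u p) := by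
      apply Finset.prod_congr rfl
      intro p hp
      rw [Finset.mem_filter] at hp
      unfold Ph
      rw [if_neg hp.2]
    rw [s2, ← Finset.prod_sdiff s1]
    have s3 : ∏ p ∈ (prs (100 * K) P).filter (fun p => ¬ p ∣ DE fe u) \
        ((prs ps P).filter (fun p => ¬ p ∣ m)).filter (fun p => ¬ p ∣ DE fe u),
        (1 - v1 W P0 vq u p) ≤ 1 := by
      apply Finset.prod_le_one
      · intro p hp
        exact (hv p (Finset.mem_sdiff.mp hp).1).1
      · intro p hp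
        exact (hv p (Finset.mem_sdiff.mp hp).1).2
    have s4 : 0 ≤ ∏ p ∈ ((prs ps P).filter (fun p => ¬ p ∣ m)).filter
        (fun p => ¬ p ∣ DE fe u), (1 - v1 W P0 vq u p) := by
      apply Finset.prod_nonneg
      intro p hp
      exact (hv p (s1 hp)).1
    exact mul_le_of_le_one_left s4 s3
  have r5 : 0 ≤ ∏ p ∈ (prs (100 * K) P).filter (fun p => ¬ p ∣ DE fe u),
      (1 - v1 W P0 vq u p) := by
    apply Finset.prod_nonneg
    intro p hp
    exact (hv p hp).1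
  rw [e1, e2, r1, r2, r3]
  obtain ⟨A, hA⟩ : ∃ A, A = ∏ p ∈ (DE fe u).primeFactors.filter (fun p => P < p), h p := ⟨_, rfl⟩
  obtain ⟨B, hB⟩ : ∃ B, B = ∏ p ∈ (DE fe u).primeFactors.filter (fun p => ¬ P < p), h p :=
    ⟨_, rfl⟩
  obtain ⟨V, hV⟩ : ∃ V, V = ∏ p ∈ (prs (100 * K) P).filter (fun p => ¬ p ∣ DE fe u),
      (1 - v1 W P0 vq u p) := ⟨_, rfl⟩
  obtain ⟨V', hV'⟩ : ∃ V', V' = ∏ p ∈ ((prs ps P).filter (fun p => ¬ p ∣ m)).filter
      (fun p => ¬ p ∣ DE fe u), Ph W P0 fe vq u p := ⟨_, rfl⟩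
  rw [← hA] at e3
  rw [← hV] at r4 r5
  rw [← hV'] at r4
  rw [← hA, ← hB, ← hV, ← hV']
  have hB0 : 0 ≤ B := by
    rw [hB]
    exact Finset.prod_nonneg (fun p _ => hh0 p)
  have hDi : 0 ≤ 1 / (DE fe u : ℝ) := by positivity
  have t1 : A * V ≤ (2 : ℝ) ^ (1 / τ) * V' :=
    mul_le_mul e3 r4 r5 (by positivity)
  have t2 : (B * (1 / (DE fe u : ℝ))) * (A * V) ≤
      (B * (1 / (DE fe u : ℝ))) * ((2 : ℝ) ^ (1 / τ) * V') :=
    mul_le_mul_of_nonneg_left t1 (mul_nonneg hB0 hDi)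
  have t3 : A * B * (1 / (DE fe u : ℝ)) * V = (B * (1 / (DE fe u : ℝ))) * (A * V) := by ring
  have t4 : (2 : ℝ) ^ (1 / τ) / (DE fe u : ℝ) * (B * V') =
      (B * (1 / (DE fe u : ℝ))) * ((2 : ℝ) ^ (1 / τ) * V') := by ring
  rw [t3, t4]
  exact t2

theorem w1_le : type_of% @w1_le_pr := @w1_le_pr

end Pool.Agent.PFM
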