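import Pool.Agent.Lib_helper15.PFM.Defs
import Pool.Agent.Lib_helper8.PENT.ZS
import Pool.Agent.Lib_helper68.LEV.MRT

set_option autoImplicit false

namespace Pool.Agent.PFM

open Finset Pool.Agent.PENT Pool.Agent.PENK

/-- the sum of `1/p` over the primes `p ≤ z` with `p % 4 ≠ 3` -/
noncomputable def f7_S (z : ℕ) : ℝ := ∑ p ∈ (prs 0 z).filter (fun p => ¬ p % 4 = 3), 1 / (p : ℝ)

/-- the sum of `1/p` over the primes `p ≤ z` with `p % 4 = 3` -/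
noncomputable def f7_R (z : ℕ) : ℝ := ∑ p ∈ (prs 0 z).filter (fun p => p % 4 = 3), 1 / (p : ℝ)

theorem f7_mem {a b p : ℕ} : p ∈ prs a b ↔ (a < p ∧ p ≤ b) ∧ p.Prime := by
  unfold prs
  rw [mem_filter, mem_Ioc]

theorem f7_S_eq {z : ℕ} (hz : 2 ≤ z) : f7_S z = s14 z + 1 / 2 := by
  unfold f7_S s14
  have e : (prs 0 z).filter (fun p => ¬ p % 4 = 3) =
      insert 2 ((Finset.Icc 1 ⌊(z : ℝ)⌋₊).filter (fun p => p.Prime ∧ p % 4 = 1)) := by
    ext p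
    rw [mem_filter, f7_mem, mem_insert, mem_filter, mem_Icc, Nat.floor_natCast]
    constructor
    · rintro ⟨⟨⟨h1, h2⟩, h3⟩, h4⟩
      rcases h3.eq_two_or_odd with h5 | h5
      · exact Or.inl h5
      · right
        refine ⟨⟨h1, h2⟩, h3, ?_⟩
        omega
    · rintro (rfl | ⟨⟨h1, h2⟩, h3, h4⟩)
      · exact ⟨⟨⟨by norm_num, hz⟩, Nat.prime_two⟩, by norm_num⟩
      · exact ⟨⟨⟨by omega, h2⟩, h3⟩, by omega⟩
  rw [e, sum_insert]
  · push_cast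
    ring
  · rw [mem_filter]
    rintro ⟨_, _, h⟩
    norm_num at h

theorem f7_SR (z : ℕ) : f7_S z + f7_R z =
    ∑ p ∈ (Finset.Icc 1 ⌊(z : ℝ)⌋₊).filter Nat.Prime, 1 / (p : ℝ) := by
  unfold f7_S f7_R
  rw [add_comm, Finset.sum_filter_add_sum_filter_not]
  apply Finset.sum_congr _ fun _ _ => rfl
  ext p
  rw [f7_mem, mem_filter, mem_Icc, Nat.floor_natCast]
  constructor
  · rintro ⟨⟨h1, h2⟩, h3⟩
    exact ⟨⟨h1, h2⟩, h3⟩
  · rintro ⟨⟨h1, h2⟩, h3⟩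
    exact ⟨⟨h1, h2⟩, h3⟩

theorem f7_mert : ∃ C : ℝ, 0 ≤ C ∧ ∀ z : ℕ, 2 ≤ z →
    |f7_S z - 1 / 2 * Real.log (Real.log z)| ≤ C ∧
      1 / 2 * Real.log (Real.log z) - C ≤ f7_R z := by
  obtain ⟨C1, h10, h1⟩ := mertens_s14
  obtain ⟨C2, h2⟩ := Pool.Agent.LEV.mertens_two
  refine ⟨C1 + |C2| + 1, by positivity, fun z hz => ?_⟩
  have hz' : (2 : ℝ) ≤ z := by exact_mod_cast hz
  have a1 := abs_le.1 (h1 z hz')
  have a2 := abs_le.1 (h2 z hz')
  have a3 := f7_S_eq hz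
  have a4 := f7_SR z
  have a5 := le_abs_self C2
  have a6 := abs_nonneg C2
  constructor
  · rw [abs_le]
    constructor <;> linarith
  · linarith

variable {K : ℕ} [NeZero K]

theorem f7_bd (W : Wts K) (hW : W.Ok) (fe vq : Finset (Fin K)) (P0 p : ℕ) :
    0 ≤ bd fe vq W P0 p ∧ bd fe vq W P0 p ≤ (fe.card : ℝ) + 2 * (vq.card : ℝ) := by
  have h1 : 0 ≤ ∑ j ∈ fe, (1 - 2 * W.al j) :=
    sum_nonneg fun j _ => by linarith [hW.al1 j]
  have h1' : ∑ j ∈ fe, (1 - 2 * W.al j) ≤ (fe.card : ℝ) := by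
    calc _ ≤ ∑ j ∈ fe, (1 : ℝ) := sum_le_sum fun j _ => by linarith [hW.al0 j]
      _ = _ := by simp
  have h2 : 0 ≤ ∑ i ∈ vq, (1 - W.be i) := sum_nonneg fun j _ => by linarith [hW.be1 j]
  have h2' : ∑ i ∈ vq, (1 - W.be i) ≤ (vq.card : ℝ) := by
    calc _ ≤ ∑ j ∈ vq, (1 : ℝ) := sum_le_sum fun j _ => by linarith [hW.be0 j]
      _ = _ := by simp
  have h3 : 0 ≤ ∑ i ∈ vq, (1 - W.bo i) := sum_nonneg fun j _ => by linarith [hW.bo1 j]
  have h3' : ∑ i ∈ vq, (1 - W.bo i) ≤ (vq.card : ℝ) := by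
    calc _ ≤ ∑ j ∈ vq, (1 : ℝ) := sum_le_sum fun j _ => by linarith [hW.bo0 j]
      _ = _ := by simp
  have h4 : (0 : ℝ) ≤ fe.card := Nat.cast_nonneg _
  unfold bd
  split_ifs <;> constructor <;> linarith

/-- the whole sum -/
theorem f7_sum (W : Wts K) (fe vq : Finset (Fin K)) {P0 P : ℕ} (h : P0 ≤ P) :
    ∑ p ∈ prs 0 P, bd fe vq W P0 p * (1 / (p : ℝ)) =
      (fe.card : ℝ) * f7_R P + ((fe.card : ℝ) + 2 * ∑ i ∈ vq, (1 - W.bo i)) * f7_S P0 +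
        (∑ j ∈ fe, (1 - 2 * W.al j) + 2 * ∑ i ∈ vq, (1 - W.be i)) * (f7_S P - f7_S P0) := by
  have e0 : prs 0 P0 ⊆ prs 0 P := by
    intro p hp
    rw [f7_mem] at hp ⊢
    exact ⟨⟨hp.1.1, hp.1.2.trans h⟩, hp.2⟩
  have e1 : f7_S P0 = ∑ p ∈ (prs 0 P).filter (fun p => ¬ p % 4 = 3),
      if p ≤ P0 then 1 / (p : ℝ) else 0 := by
    unfold f7_S
    rw [← sum_filter]
    apply sum_congr _ fun _ _ => rfl
    ext p
    simp only [mem_filter, f7_mem]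
    constructor
    · rintro ⟨⟨⟨a1, a2⟩, a3⟩, a4⟩
      exact ⟨⟨⟨⟨a1, a2.trans h⟩, a3⟩, a4⟩, a2⟩
    · rintro ⟨⟨⟨⟨a1, a2⟩, a3⟩, a4⟩, a5⟩
      exact ⟨⟨⟨a1, a5⟩, a3⟩, a4⟩
  obtain ⟨A1, hA1⟩ : ∃ A, A = (fe.card : ℝ) + 2 * ∑ i ∈ vq, (1 - W.bo i) := ⟨_, rfl⟩
  obtain ⟨A2, hA2⟩ : ∃ A, A = ∑ j ∈ fe, (1 - 2 * W.al j) + 2 * ∑ i ∈ vq, (1 - W.be i) := ⟨_, rfl⟩
  rw [← Finset.sum_filter_add_sum_filter_not (prs 0 P) (fun p => p % 4 = 3)]
  rw [e1, ← hA1, ← hA2]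
  unfold f7_S f7_R
  rw [← sum_sub_distrib, mul_sum, mul_sum, mul_sum, add_assoc, ← sum_add_distrib]
  congr 1
  · apply sum_congr rfl
    intro p hp
    rw [mem_filter] at hp
    unfold bd
    rw [if_pos hp.2]
  · apply sum_congr rfl
    intro p hp
    rw [mem_filter] at hp
    unfold bd
    rw [if_neg hp.2, ← hA1, ← hA2]
    split_ifs <;> ring

/-- the sum of `1/p` over the prime divisors of `m` -/
theorem f7_div {P0 m : ℕ} (h3 : 3 ≤ P0) (hm : 0 < m) (hp : ∀ p : ℕ, p.Prime → p ∣ m → P0 < p)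
    (hl : Real.log m ≤ P0) (P : ℕ) :
    ∑ p ∈ (prs 0 P).filter (fun p => p ∣ m), 1 / (p : ℝ) ≤ 2 := by
  have hP0 : (0 : ℝ) < P0 := by
    have : 0 < P0 := by omega
    exact_mod_cast this
  have e1 : (prs 0 P).filter (fun p => p ∣ m) ⊆ m.primeFactors := by
    intro p h
    rw [mem_filter, f7_mem] at h
    exact Nat.mem_primeFactors.2 ⟨h.1.2, h.2, hm.ne'⟩
  have e2 : ∑ p ∈ (prs 0 P).filter (fun p => p ∣ m), 1 / (p : ℝ) ≤
      ∑ p ∈ m.primeFactors, 1 / (P0 : ℝ) := by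
    calc _ ≤ ∑ p ∈ m.primeFactors, 1 / (p : ℝ) :=
          sum_le_sum_of_subset_of_nonneg e1 fun p _ _ => by positivity
      _ ≤ _ := by
        apply sum_le_sum
        intro p h
        rw [Nat.mem_primeFactors] at h
        have := hp p h.1 h.2.1
        apply one_div_le_one_div_of_le hP0
        exact_mod_cast this.le
  have e3 : (2 : ℝ) ^ m.primeFactors.card ≤ m := by
    have h1 : ∏ p ∈ m.primeFactors, 2 ≤ ∏ p ∈ m.primeFactors, p :=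
      prod_le_prod' fun p h => (Nat.prime_of_mem_primeFactors h).two_le
    rw [prod_const] at h1
    have h2 := Nat.le_of_dvd hm (Nat.prod_primeFactors_dvd m)
    exact_mod_cast h1.trans h2
  have e4 : (m.primeFactors.card : ℝ) * Real.log 2 ≤ P0 := by
    have h1 := Real.log_le_log (by positivity) e3
    rw [Real.log_pow] at h1
    linarith
  have e5 : (m.primeFactors.card : ℝ) ≤ 2 * P0 := by
    have h1 := Real.log_two_gt_d9
    have h2 : (0 : ℝ) ≤ m.primeFactors.card := Nat.cast_nonneg _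
    nlinarith
  refine e2.trans ?_
  rw [sum_const, nsmul_eq_mul, mul_one_div, div_le_iff₀ hP0]
  exact e5

theorem f7_sq0 (N : ℕ) : ∑ n ∈ Finset.Icc 1 (N + 1), 1 / (n : ℝ) ^ 2 ≤ 2 - 1 / ((N : ℝ) + 1) := by
  induction N with
  | zero => norm_num
  | succ N ih =>
    rw [sum_Icc_succ_top (by omega)]
    have h1 : (0 : ℝ) < (N : ℝ) + 1 := by positivity
    have h2 : (0 : ℝ) < (N : ℝ) + 2 := by positivity
    have h3 : 1 / (((N + 1 + 1 : ℕ) : ℝ)) ^ 2 ≤ 1 / ((N : ℝ) + 1) - 1 / ((N : ℝ) + 2) := by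
      push_cast
      rw [show (N : ℝ) + 1 + 1 = N + 2 by ring, div_sub_div _ _ h1.ne' h2.ne',
        div_le_div_iff₀ (by positivity) (by positivity)]
      nlinarith
    have h4 : ((N + 1 : ℕ) : ℝ) + 1 = N + 2 := by push_cast; ring
    rw [h4]
    linarith

theorem f7_sq (a b : ℕ) : ∑ p ∈ prs a b, 1 / (p : ℝ) ^ 2 ≤ 2 := by
  have h1 : prs a b ⊆ Finset.Icc 1 (b + 1) := by
    intro p hp
    rw [f7_mem] at hp
    rw [mem_Icc]
    omega
  refine (sum_le_sum_of_subset_of_nonneg h1 fun p _ _ => by positivity).trans ?_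
  have h2 := f7_sq0 b
  have h3 : 0 ≤ 1 / ((b : ℝ) + 1) := by positivity
  linarith

theorem f7_ps (ps : ℕ) : ∑ p ∈ prs 0 ps, 1 / (p : ℝ) ≤ ps := by
  have h1 : prs 0 ps ⊆ Finset.Icc 1 ps := by
    intro p hp
    rw [f7_mem] at hp
    rw [mem_Icc]
    omega
  calc _ ≤ ∑ p ∈ Finset.Icc 1 ps, 1 / (p : ℝ) :=
        sum_le_sum_of_subset_of_nonneg h1 fun p _ _ => by positivity
    _ ≤ ∑ p ∈ Finset.Icc 1 ps, (1 : ℝ) := by
        apply sum_le_sum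
        intro p hp
        rw [mem_Icc] at hp
        rw [div_le_one (by exact_mod_cast hp.1)]
        exact_mod_cast hp.1
    _ = ps := by simp

/-- block F7 -/
theorem bd_prod_pr (W : Wts K) (hW : W.Ok) (fe vq : Finset (Fin K)) (ps : ℕ) (C1 : ℝ) (hC1 : 0 ≤ C1) :
    ∃ C : ℝ, 0 ≤ C ∧ ∀ P0 P : ℕ, ps ≤ P0 → 3 ≤ P0 → P0 ≤ P → ∀ m : ℕ, 0 < m →
      (∀ p : ℕ, p.Prime → p ∣ m → P0 < p) → Real.log m ≤ P0 →
      (∀ p ∈ (prs ps P).filter (fun p => ¬ p ∣ m),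
        1 / 4 ≤ 1 - bd fe vq W P0 p / p + C1 / (p : ℝ) ^ 2) →
      ∏ p ∈ (prs ps P).filter (fun p => ¬ p ∣ m),
        (1 - bd fe vq W P0 p / p + C1 / (p : ℝ) ^ 2) ≤
      C * Real.log P ^ (-(fe.card : ℝ) + ∑ j ∈ fe, W.al j - ∑ i ∈ vq, (1 - W.be i)) *
        Real.log P0 ^ (∑ i ∈ vq, (1 - W.be i) - ∑ i ∈ vq, (1 - W.bo i) - ∑ j ∈ fe, W.al j) := by
  obtain ⟨Cm, hCm, hmert⟩ := f7_mert
  set F : ℝ := (fe.card : ℝ) with hF
  set SA : ℝ := ∑ j ∈ fe, W.al j with hSA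
  set B : ℝ := ∑ i ∈ vq, (1 - W.be i) with hB
  set Bo : ℝ := ∑ i ∈ vq, (1 - W.bo i) with hBo
  set M : ℝ := F + 2 * (vq.card : ℝ) with hM
  have hF0 : 0 ≤ F := Nat.cast_nonneg _
  have hM0 : 0 ≤ M := by positivity
  have hB0 : 0 ≤ B := sum_nonneg fun j _ => by linarith [hW.be1 j]
  have hBo0 : 0 ≤ Bo := sum_nonneg fun j _ => by linarith [hW.bo1 j]
  have hA : ∑ j ∈ fe, (1 - 2 * W.al j) = F - 2 * SA := by
    rw [sum_sub_distrib, ← mul_sum]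
    simp [hF, hSA]
  have hA0 : 0 ≤ F - 2 * SA := by
    rw [← hA]
    exact sum_nonneg fun j _ => by linarith [hW.al1 j]
  set D : ℝ := F * Cm + (F + 2 * Bo) * Cm + (F - 2 * SA + 2 * B) * (2 * Cm) + M * ps + M * 2 +
    C1 * 2 with hD
  refine ⟨Real.exp D, (Real.exp_pos _).le, ?_⟩
  intro P0 P hps h3 hPP m hm hmp hlm hq
  set T := (prs ps P).filter (fun p => ¬ p ∣ m) with hT
  have hlP0 : 0 < Real.log P0 := Real.log_pos (by exact_mod_cast (by omega : 1 < P0))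
  have hlP : 0 < Real.log P := Real.log_pos (by exact_mod_cast (by omega : 1 < P))
  -- the pointwise bound
  have k1 : ∏ p ∈ T, (1 - bd fe vq W P0 p / p + C1 / (p : ℝ) ^ 2) ≤
      Real.exp (∑ p ∈ T, (-(bd fe vq W P0 p * (1 / (p : ℝ))) + C1 * (1 / (p : ℝ) ^ 2))) := by
    rw [Real.exp_sum]
    apply prod_le_prod
    · intro p hp
      have := hq p hp
      linarith
    · intro p _
      have := Real.add_one_le_exp (-(bd fe vq W P0 p * (1 / (p : ℝ))) + C1 * (1 / (p : ℝ) ^ 2))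
      refine le_trans (le_of_eq ?_) this
      ring
  -- the sum
  have k2 : ∑ p ∈ T, C1 * (1 / (p : ℝ) ^ 2) ≤ C1 * 2 := by
    rw [← mul_sum]
    apply mul_le_mul_of_nonneg_left _ hC1
    refine le_trans ?_ (f7_sq ps P)
    exact sum_le_sum_of_subset_of_nonneg (filter_subset _ _) fun p _ _ => by positivity
  have k3 : ∑ p ∈ prs 0 P, bd fe vq W P0 p * (1 / (p : ℝ)) ≤
      ∑ p ∈ T, bd fe vq W P0 p * (1 / (p : ℝ)) + M * ps + M * 2 := by
    have a1 : ∑ p ∈ prs 0 P, bd fe vq W P0 p * (1 / (p : ℝ)) ≤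
        ∑ p ∈ prs 0 P, ((if p ∈ T then bd fe vq W P0 p * (1 / (p : ℝ)) else 0) +
          (if p ≤ ps then M * (1 / (p : ℝ)) else 0) +
          (if p ∣ m then M * (1 / (p : ℝ)) else 0)) := by
      apply sum_le_sum
      intro p hp
      obtain ⟨b1, b2⟩ := f7_bd W hW fe vq P0 p
      have c0 : (0 : ℝ) ≤ 1 / (p : ℝ) := by positivity
      have c1 : bd fe vq W P0 p * (1 / (p : ℝ)) ≤ M * (1 / (p : ℝ)) :=
        mul_le_mul_of_nonneg_right b2 c0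
      have c2 : 0 ≤ bd fe vq W P0 p * (1 / (p : ℝ)) := mul_nonneg b1 c0
      have c3 : 0 ≤ M * (1 / (p : ℝ)) := mul_nonneg hM0 c0
      by_cases g1 : p ≤ ps
      · by_cases g2 : p ∣ m <;> by_cases g3 : p ∈ T <;> simp only [g1, g2, g3, if_true, if_false] <;>
          linarith
      · by_cases g2 : p ∣ m
        · by_cases g3 : p ∈ T <;> simp only [g1, g2, g3, if_true, if_false] <;> linarith
        · have g3 : p ∈ T := by
            rw [hT, mem_filter, f7_mem]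
            rw [f7_mem] at hp
            exact ⟨⟨⟨not_le.1 g1, hp.1.2⟩, hp.2⟩, g2⟩
          simp only [g1, g2, g3, if_true, if_false]
          linarith
    rw [sum_add_distrib, sum_add_distrib, ← sum_filter, ← sum_filter, ← sum_filter] at a1
    have a2 : (prs 0 P).filter (fun p => p ∈ T) ⊆ T := by
      intro p hp
      exact (mem_filter.1 hp).2
    have a3 : ∑ p ∈ (prs 0 P).filter (fun p => p ∈ T), bd fe vq W P0 p * (1 / (p : ℝ)) ≤
        ∑ p ∈ T, bd fe vq W P0 p * (1 / (p : ℝ)) :=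
      sum_le_sum_of_subset_of_nonneg a2 fun p _ _ =>
        mul_nonneg (f7_bd W hW fe vq P0 p).1 (by positivity)
    have a4 : ∑ p ∈ (prs 0 P).filter (fun p => p ≤ ps), M * (1 / (p : ℝ)) ≤ M * ps := by
      rw [← mul_sum]
      apply mul_le_mul_of_nonneg_left _ hM0
      refine le_trans ?_ (f7_ps ps)
      apply sum_le_sum_of_subset_of_nonneg
      · intro p hp
        rw [mem_filter, f7_mem] at hp
        rw [f7_mem]
        exact ⟨⟨hp.1.1.1, hp.2⟩, hp.1.2⟩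
      · intro p _ _
        positivity
    have a5 : ∑ p ∈ (prs 0 P).filter (fun p => p ∣ m), M * (1 / (p : ℝ)) ≤ M * 2 := by
      rw [← mul_sum]
      exact mul_le_mul_of_nonneg_left (f7_div h3 hm hmp hlm P) hM0
    linarith
  have k4 := f7_sum W fe vq hPP
  rw [hA] at k4
  obtain ⟨m1, m2⟩ := hmert P (by omega)
  obtain ⟨m3, _⟩ := hmert P0 (by omega)
  rw [abs_le] at m1 m3
  set LP : ℝ := Real.log (Real.log P) with hLP
  set L0 : ℝ := Real.log (Real.log P0) with hL0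
  have k5 : F * (1 / 2 * LP - Cm) ≤ F * f7_R P := mul_le_mul_of_nonneg_left m2 hF0
  have k6 : (F + 2 * Bo) * (1 / 2 * L0 - Cm) ≤ (F + 2 * Bo) * f7_S P0 :=
    mul_le_mul_of_nonneg_left (by linarith) (by positivity)
  have k7 : (F - 2 * SA + 2 * B) * (1 / 2 * LP - 1 / 2 * L0 - 2 * Cm) ≤
      (F - 2 * SA + 2 * B) * (f7_S P - f7_S P0) :=
    mul_le_mul_of_nonneg_left (by linarith) (by positivity)
  have k8 : ∑ p ∈ T, (-(bd fe vq W P0 p * (1 / (p : ℝ))) + C1 * (1 / (p : ℝ) ^ 2)) ≤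
      D + LP * (-F + SA - B) + L0 * (B - Bo - SA) := by
    rw [sum_add_distrib, sum_neg_distrib]
    rw [hD]
    linarith
  refine k1.trans ((Real.exp_le_exp.2 k8).trans (le_of_eq ?_))
  rw [Real.exp_add, Real.exp_add, Real.rpow_def_of_pos hlP, Real.rpow_def_of_pos hlP0]

theorem bd_prod : type_of% @bd_prod_pr := @bd_prod_pr

end Pool.Agent.PFM
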