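import Pool.Agent.Lib_helper15.PFM.Defs

/-! PFM (MP_892e4c_nt), block F8 (helper67): the uniform law -/

set_option autoImplicit false

namespace Pool.Agent.PFM

open Finset Pool.Agent.PENT Pool.Agent.PENK

theorem f8_card {p : ℕ} : (L1 p).card = p ^ 2 := by
  rw [L1, card_product, Int.card_Ico]
  simp only [sub_zero, Int.toNat_natCast]
  ring

theorem f8_mem {p : ℕ} {b : ℤ × ℤ} :
    b ∈ L1 p ↔ (0 ≤ b.1 ∧ b.1 < p) ∧ (0 ≤ b.2 ∧ b.2 < p) := by
  rw [L1, mem_product, mem_Ico, mem_Ico]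

theorem f8_eq {p : ℕ} {s t : ℤ} (hs : 0 ≤ s ∧ s < p) (ht : 0 ≤ t ∧ t < p)
    (h : (p : ℤ) ∣ s - t) : s = t := by
  obtain ⟨k, hk⟩ := h
  have h1 : (-1 : ℤ) < k := by
    by_contra hk1
    have : k ≤ -1 := by omega
    nlinarith
  have h2 : k < 1 := by
    by_contra hk1
    have : 1 ≤ k := by omega
    nlinarith
  have : k = 0 := by omega
  rw [this] at hk
  linarith

/-- the number of vectors on the line of `a`, upper bound -/
theorem f8_line_le {p : ℕ} (hp : p.Prime) {a : ℤ × ℤ} (ha : ¬ ((p : ℤ) ∣ a.1 ∧ (p : ℤ) ∣ a.2)) :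
    ((L1 p).filter (fun b => (p : ℤ) ∣ dt a b)).card ≤ p := by
  have hpp : Prime (p : ℤ) := Nat.prime_iff_prime_int.mp hp
  have hc : (Ico (0 : ℤ) p).card = p := by simp
  by_cases h1 : (p : ℤ) ∣ a.1
  · have h2 : ¬ (p : ℤ) ∣ a.2 := fun h => ha ⟨h1, h⟩
    have : ((L1 p).filter (fun b => (p : ℤ) ∣ dt a b)).card ≤ (Ico (0 : ℤ) p).card := by
      apply card_le_card_of_injOn (fun b => b.2)
      · intro b hb
        have hb' := f8_mem.mp (mem_filter.mp hb).1
        exact mem_coe.mpr (mem_Ico.mpr hb'.2)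
      · intro b hb b' hb' hbb
        have e1 := f8_mem.mp (mem_filter.mp hb).1
        have e2 := f8_mem.mp (mem_filter.mp hb').1
        have d1 := (mem_filter.mp hb).2
        have d2 := (mem_filter.mp hb').2
        have hbb' : b.2 = b'.2 := hbb
        have d3 : (p : ℤ) ∣ a.2 * (b.1 - b'.1) := by
          have e3 : a.2 * (b.1 - b'.1) = dt a b' - dt a b := by
            unfold dt
            rw [hbb']
            ring
          rw [e3]
          exact dvd_sub d2 d1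
        have d4 := (hpp.dvd_or_dvd d3).resolve_left h2
        exact Prod.ext (f8_eq e1.1 e2.1 d4) hbb'
    omega
  · have : ((L1 p).filter (fun b => (p : ℤ) ∣ dt a b)).card ≤ (Ico (0 : ℤ) p).card := by
      apply card_le_card_of_injOn (fun b => b.1)
      · intro b hb
        have hb' := f8_mem.mp (mem_filter.mp hb).1
        exact mem_coe.mpr (mem_Ico.mpr hb'.1)
      · intro b hb b' hb' hbb
        have e1 := f8_mem.mp (mem_filter.mp hb).1
        have e2 := f8_mem.mp (mem_filter.mp hb').1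
        have d1 := (mem_filter.mp hb).2
        have d2 := (mem_filter.mp hb').2
        have hbb' : b.1 = b'.1 := hbb
        have d3 : (p : ℤ) ∣ a.1 * (b.2 - b'.2) := by
          have e3 : a.1 * (b.2 - b'.2) = dt a b - dt a b' := by
            unfold dt
            rw [hbb']
            ring
          rw [e3]
          exact dvd_sub d1 d2
        have d4 := (hpp.dvd_or_dvd d3).resolve_left h1
        exact Prod.ext hbb' (f8_eq e1.2 e2.2 d4)
    omega

/-- the number of vectors on the line of `a`, lower bound -/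
theorem f8_line_ge {p : ℕ} (hp : p.Prime) (a : ℤ × ℤ) :
    p ≤ ((L1 p).filter (fun b => (p : ℤ) ∣ dt a b)).card := by
  have hpp : Prime (p : ℤ) := Nat.prime_iff_prime_int.mp hp
  have hp0 : (0 : ℤ) < p := by exact_mod_cast hp.pos
  by_cases ha : (p : ℤ) ∣ a.1 ∧ (p : ℤ) ∣ a.2
  · have e : (L1 p).filter (fun b => (p : ℤ) ∣ dt a b) = L1 p := by
      apply filter_true_of_mem
      intro b _
      exact dvd_sub (ha.1.mul_right _) (ha.2.mul_right _)
    rw [e, f8_card]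
    nlinarith [hp.one_le]
  · have hc : (Ico (0 : ℤ) p).card = p := by simp
    have : (Ico (0 : ℤ) p).card ≤ ((L1 p).filter (fun b => (p : ℤ) ∣ dt a b)).card := by
      apply card_le_card_of_injOn (fun t => ((a.1 * t) % p, (a.2 * t) % p))
      · intro t _
        apply mem_coe.mpr
        rw [mem_filter]
        refine ⟨f8_mem.mpr ⟨⟨Int.emod_nonneg _ hp0.ne', Int.emod_lt_of_pos _ hp0⟩,
          ⟨Int.emod_nonneg _ hp0.ne', Int.emod_lt_of_pos _ hp0⟩⟩, ?_⟩
        have e1 := Int.emod_add_mul_ediv (a.1 * t) p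
        have e2 := Int.emod_add_mul_ediv (a.2 * t) p
        refine ⟨a.2 * (a.1 * t / p) - a.1 * (a.2 * t / p), ?_⟩
        unfold dt
        simp only
        linear_combination a.1 * e2 - a.2 * e1
      · intro t ht t' ht' htt
        have h1 : (a.1 * t) % p = (a.1 * t') % p := congrArg Prod.fst htt
        have h2 : (a.2 * t) % p = (a.2 * t') % p := congrArg Prod.snd htt
        have d1 : (p : ℤ) ∣ a.1 * (t - t') := by
          rw [mul_sub]
          exact Int.dvd_of_emod_eq_zero (Int.emod_eq_emod_iff_emod_sub_eq_zero.mp h1)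
        have d2 : (p : ℤ) ∣ a.2 * (t - t') := by
          rw [mul_sub]
          exact Int.dvd_of_emod_eq_zero (Int.emod_eq_emod_iff_emod_sub_eq_zero.mp h2)
        have d3 : (p : ℤ) ∣ t - t' := by
          rcases hpp.dvd_or_dvd d1 with h | h
          · rcases hpp.dvd_or_dvd d2 with h' | h'
            · exact absurd ⟨h, h'⟩ ha
            · exact h'
          · exact h
        exact f8_eq (mem_Ico.mp (mem_coe.mp ht)) (mem_Ico.mp (mem_coe.mp ht')) d3
    omega

/-- averaging over one vertex -/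
theorem f8_avg {p : ℕ} (v : Fin 5) (f : PolyK 5 → ℝ) :
    ((L1 p).card : ℝ) * ∑ u ∈ Un 5 p, f u =
      ∑ u ∈ Un 5 p, ∑ x ∈ L1 p, f (Function.update u v x) := by
  rw [← sum_product']
  have e : ((L1 p).card : ℝ) * ∑ u ∈ Un 5 p, f u = ∑ z ∈ Un 5 p ×ˢ L1 p, f z.1 := by
    rw [sum_product]
    simp only [sum_const, nsmul_eq_mul]
    rw [mul_sum]
  rw [e]
  refine sum_nbij' (fun z => (Function.update z.1 v z.2, z.1 v))
    (fun z => (Function.update z.1 v z.2, z.1 v)) ?_ ?_ ?_ ?_ ?_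
  · intro z hz
    rw [mem_product, Un, Fintype.mem_piFinset] at hz
    rw [mem_product, Un, Fintype.mem_piFinset]
    refine ⟨fun i => ?_, hz.1 v⟩
    by_cases hi : i = v
    · subst hi
      simpa using hz.2
    · simp only [Function.update_of_ne hi]
      exact hz.1 i
  · intro z hz
    rw [mem_product, Un, Fintype.mem_piFinset] at hz
    rw [mem_product, Un, Fintype.mem_piFinset]
    refine ⟨fun i => ?_, hz.1 v⟩
    by_cases hi : i = v
    · subst hi
      simpa using hz.2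
    · simp only [Function.update_of_ne hi]
      exact hz.1 i
  · intro z _
    simp
  · intro z _
    simp
  · intro z _
    simp

theorem f8_ich {V : Type} (s : Finset V) (q : V → Prop) [DecidablePred q] :
    ∑ x ∈ s, ich (q x) = ((s.filter q).card : ℝ) := by
  rw [card_filter]
  push_cast
  refine sum_congr rfl fun x _ => ?_
  rw [ich]
  by_cases h : q x <;> simp [h]

theorem f8_ich0 (a : Prop) : 0 ≤ ich a := by
  unfold ich
  split_ifs <;> norm_num

theorem f8_ich1 (a : Prop) : ich a ≤ 1 := by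
  unfold ich
  split_ifs <;> norm_num

theorem f8_mono {a b : Prop} (h : a → b) : ich a ≤ ich b := by
  unfold ich
  by_cases h1 : a
  · rw [if_pos h1, if_pos (h h1)]
  · rw [if_neg h1]
    split_ifs <;> norm_num

theorem f8_and (a b : Prop) : ich (a ∧ b) = ich a * ich b := by
  unfold ich
  by_cases h1 : a <;> by_cases h2 : b <;> simp [h1, h2]

/-- the zero vector -/
def f8Z (p : ℕ) (a : ℤ × ℤ) : Prop := (p : ℤ) ∣ a.1 ∧ (p : ℤ) ∣ a.2

theorem f8_sum_le {p : ℕ} (hp : p.Prime) (a : ℤ × ℤ) :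
    ∑ x ∈ L1 p, ich ((p : ℤ) ∣ dt a x) ≤ p + (p : ℝ) ^ 2 * ich (f8Z p a) := by
  rw [f8_ich]
  by_cases ha : f8Z p a
  · have h1 : ((L1 p).filter (fun b => (p : ℤ) ∣ dt a b)).card ≤ p ^ 2 := by
      rw [← f8_card]
      exact card_filter_le _ _
    have h2 : (((L1 p).filter (fun b => (p : ℤ) ∣ dt a b)).card : ℝ) ≤ (p : ℝ) ^ 2 := by
      exact_mod_cast h1
    rw [ich, if_pos ha]
    have : (0 : ℝ) ≤ p := Nat.cast_nonneg p
    linarith
  · have h1 := f8_line_le hp ha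
    have h2 : (((L1 p).filter (fun b => (p : ℤ) ∣ dt a b)).card : ℝ) ≤ p := by exact_mod_cast h1
    rw [ich, if_neg ha]
    linarith

theorem f8_sum_ge {p : ℕ} (hp : p.Prime) (a : ℤ × ℤ) :
    (p : ℝ) ≤ ∑ x ∈ L1 p, ich ((p : ℤ) ∣ dt a x) := by
  rw [f8_ich]
  exact_mod_cast f8_line_ge hp a

theorem f8_swap (p : ℕ) (a x : ℤ × ℤ) : ich ((p : ℤ) ∣ dt x a) = ich ((p : ℤ) ∣ dt a x) := by
  have : dt x a = -dt a x := by unfold dt; ring
  rw [this, dvd_neg]

theorem f8_zsum {p : ℕ} : ∑ x ∈ L1 p, ich (f8Z p x) ≤ 1 := by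
  classical
  rw [f8_ich]
  have : ((L1 p).filter (fun x => f8Z p x)).card ≤ 1 := by
    rw [card_le_one]
    intro x hx y hy
    have e1 := f8_mem.mp (mem_filter.mp hx).1
    have e2 := f8_mem.mp (mem_filter.mp hy).1
    have d1 := (mem_filter.mp hx).2
    have d2 := (mem_filter.mp hy).2
    exact Prod.ext (f8_eq e1.1 e2.1 (dvd_sub d1.1 d2.1)) (f8_eq e1.2 e2.2 (dvd_sub d1.2 d2.2))
  exact_mod_cast this

/-- the probability that a vertex is zero -/
theorem f8_P0 {p : ℕ} (w : Fin 5) :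
    (p : ℝ) ^ 2 * ∑ u ∈ Un 5 p, ich (f8Z p (u w)) ≤ (Un 5 p).card := by
  have h := f8_avg (p := p) w (fun u => ich (f8Z p (u w)))
  rw [f8_card] at h
  push_cast at h
  rw [h]
  calc ∑ u ∈ Un 5 p, ∑ x ∈ L1 p, ich (f8Z p (Function.update u w x w))
      ≤ ∑ _u ∈ Un 5 p, (1 : ℝ) := by
        refine sum_le_sum fun u _ => ?_
        simp only [Function.update_self]
        exact f8_zsum
    _ = _ := by simp

/-- the probability that two vertices are parallel -/
theorem f8_P1 {p : ℕ} (hp : p.Prime) {w v : Fin 5} (hwv : w ≠ v) :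
    (p : ℝ) ^ 2 * ∑ u ∈ Un 5 p, ich ((p : ℤ) ∣ dt (u w) (u v)) ≤ 2 * p * (Un 5 p).card ∧
      (p : ℝ) * (Un 5 p).card ≤ (p : ℝ) ^ 2 * ∑ u ∈ Un 5 p, ich ((p : ℤ) ∣ dt (u w) (u v)) := by
  have h := f8_avg (p := p) v (fun u => ich ((p : ℤ) ∣ dt (u w) (u v)))
  rw [f8_card] at h
  push_cast at h
  rw [h]
  simp only [Function.update_self, Function.update_of_ne hwv]
  have hp1 : (1 : ℝ) ≤ p := by exact_mod_cast hp.one_le
  have hN : (0 : ℝ) ≤ (Un 5 p).card := Nat.cast_nonneg _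
  constructor
  · calc ∑ u ∈ Un 5 p, ∑ x ∈ L1 p, ich ((p : ℤ) ∣ dt (u w) x)
        ≤ ∑ u ∈ Un 5 p, ((p : ℝ) + (p : ℝ) ^ 2 * ich (f8Z p (u w))) :=
          sum_le_sum fun u _ => f8_sum_le hp (u w)
      _ = (Un 5 p).card * p + (p : ℝ) ^ 2 * ∑ u ∈ Un 5 p, ich (f8Z p (u w)) := by
          rw [sum_add_distrib, sum_const, nsmul_eq_mul, mul_sum]
      _ ≤ (Un 5 p).card * p + (Un 5 p).card := by linarith [f8_P0 (p := p) w]
      _ ≤ 2 * p * (Un 5 p).card := by nlinarith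
  · calc (p : ℝ) * (Un 5 p).card = ∑ _u ∈ Un 5 p, (p : ℝ) := by
          rw [sum_const, nsmul_eq_mul]; ring
      _ ≤ _ := sum_le_sum fun u _ => f8_sum_ge hp (u w)

/-- two edges -/
theorem f8_P2 {p : ℕ} (hp : p.Prime) {a b w v : Fin 5} (hwv : w ≠ v) (hab : a ≠ b) (ha : a ≠ v)
    (hb : b ≠ v) :
    (p : ℝ) ^ 2 * ∑ u ∈ Un 5 p, ich ((p : ℤ) ∣ dt (u a) (u b) ∧ (p : ℤ) ∣ dt (u w) (u v)) ≤
      3 * (Un 5 p).card := by
  have h := f8_avg (p := p) v
    (fun u => ich ((p : ℤ) ∣ dt (u a) (u b) ∧ (p : ℤ) ∣ dt (u w) (u v)))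
  rw [f8_card] at h
  push_cast at h
  rw [h]
  simp only [Function.update_self, Function.update_of_ne hwv, Function.update_of_ne ha,
    Function.update_of_ne hb]
  have hp0 : (0 : ℝ) < p := by exact_mod_cast hp.pos
  have h1 := (f8_P1 hp hab).1
  have h2 := f8_P0 (p := p) w
  have h3 : (p : ℝ) * ∑ u ∈ Un 5 p, ich ((p : ℤ) ∣ dt (u a) (u b)) ≤ 2 * (Un 5 p).card := by
    have e : (p : ℝ) * ((p : ℝ) * ∑ u ∈ Un 5 p, ich ((p : ℤ) ∣ dt (u a) (u b))) ≤
        (p : ℝ) * (2 * (Un 5 p).card) := by linarith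
    exact le_of_mul_le_mul_left e hp0
  calc ∑ u ∈ Un 5 p, ∑ x ∈ L1 p, ich ((p : ℤ) ∣ dt (u a) (u b) ∧ (p : ℤ) ∣ dt (u w) x)
      = ∑ u ∈ Un 5 p, ich ((p : ℤ) ∣ dt (u a) (u b)) * ∑ x ∈ L1 p, ich ((p : ℤ) ∣ dt (u w) x) := by
        refine sum_congr rfl fun u _ => ?_
        rw [mul_sum]
        exact sum_congr rfl fun x _ => f8_and _ _
    _ ≤ ∑ u ∈ Un 5 p, (p * ich ((p : ℤ) ∣ dt (u a) (u b)) + (p : ℝ) ^ 2 * ich (f8Z p (u w))) := by
        refine sum_le_sum fun u _ => ?_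
        have e1 := f8_sum_le hp (u w)
        have e2 := f8_ich0 ((p : ℤ) ∣ dt (u a) (u b))
        have e3 := f8_ich1 ((p : ℤ) ∣ dt (u a) (u b))
        have e4 := f8_ich0 (f8Z p (u w))
        have e5 : 0 ≤ (p : ℝ) ^ 2 * ich (f8Z p (u w)) := by positivity
        nlinarith
    _ = p * ∑ u ∈ Un 5 p, ich ((p : ℤ) ∣ dt (u a) (u b)) +
          (p : ℝ) ^ 2 * ∑ u ∈ Un 5 p, ich (f8Z p (u w)) := by
        rw [sum_add_distrib, mul_sum, mul_sum]
    _ ≤ 3 * (Un 5 p).card := by linarith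

theorem f8_ne {p : ℕ} (hp : p.Prime) : (Un 5 p).Nonempty := by
  refine ⟨fun _ => (0, 0), ?_⟩
  rw [Un, Fintype.mem_piFinset]
  intro _
  have : (0 : ℤ) < p := by exact_mod_cast hp.pos
  exact f8_mem.mpr ⟨⟨le_refl _, this⟩, ⟨le_refl _, this⟩⟩

theorem f8_div_le {p : ℕ} (hp : p.Prime) {S N K : ℝ} (hN : 0 < N) (n : ℕ)
    (h : (p : ℝ) ^ 2 * S ≤ K * p ^ n * N) (hn : n ≤ 2) : S / N ≤ K / (p : ℝ) ^ (2 - n) := by
  have hp0 : (0 : ℝ) < p := by exact_mod_cast hp.pos
  rw [div_le_div_iff₀ hN (by positivity)]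
  have e : (p : ℝ) ^ 2 = (p : ℝ) ^ n * (p : ℝ) ^ (2 - n) := by
    rw [← pow_add]
    congr 1
    omega
  have hpn : (0 : ℝ) < (p : ℝ) ^ n := by positivity
  rw [e] at h
  have h2 : (p : ℝ) ^ n * (S * (p : ℝ) ^ (2 - n)) ≤ (p : ℝ) ^ n * (K * N) := by linarith
  exact le_of_mul_le_mul_left h2 hpn

/-- block F8: the uniform law (all `2 K`-tuples modulo `p`): `P(p ∣ dt u u') = 1/p + 1/p² - 1/p³`,
two edges `≤ 2/p²` (also adjacent ones), parallel vertices `≤ 2/p`, a zero vertex makes its two edges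
divisible. -/
theorem un_locS_pr : ∃ C : ℝ, 0 ≤ C ∧ ∀ p : ℕ, p.Prime → 2 < p →
    LocS (univ : Finset (Fin 5)) univ p (Un 5 p) C := by
  refine ⟨3, by norm_num, ?_⟩
  intro p hp _
  have hp0 : (0 : ℝ) < p := by exact_mod_cast hp.pos
  have hN : (0 : ℝ) < (Un 5 p).card := by
    exact_mod_cast (f8_ne hp).card_pos
  have hne : ∀ j : Fin 5, j ≠ j + 1 := by decide
  refine ⟨f8_ne hp, ?_, ?_, ?_, ?_, ?_⟩
  · intro j _
    have h := (f8_P1 hp (hne j)).2
    have h1 : 1 / (p : ℝ) ≤ mL (Un 5 p) (fun u => ich ((p : ℤ) ∣ dl u j)) := by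
      unfold mL dl
      rw [div_le_div_iff₀ hp0 hN]
      have h2 : (p : ℝ) * (1 * (Un 5 p).card) ≤
          (p : ℝ) * ((∑ u ∈ Un 5 p, ich ((p : ℤ) ∣ dt (u j) (u (j + 1)))) * p) := by
        linarith
      exact le_of_mul_le_mul_left h2 hp0
    have h3 : (0 : ℝ) ≤ 3 / (p : ℝ) ^ 2 := by positivity
    linarith
  · intro j _
    have h := (f8_P1 hp (hne j)).1
    have h1 := f8_div_le (K := 2) hp hN 1 (by rw [pow_one]; exact h) (by norm_num)
    have h2 : (2 : ℝ) / (p : ℝ) ^ (2 - 1) ≤ 3 / p := by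
      rw [show 2 - 1 = 1 from rfl, pow_one]
      gcongr
      norm_num
    exact h1.trans h2
  · intro i _ j _ hij
    by_cases hc : j + 1 = i
    · -- the vertex `j` is not on the edge `i`
      have d1 : i ≠ j := hij
      have d2 : i + 1 ≠ j := by
        subst hc
        revert j
        decide
      have h := f8_P2 hp (a := i) (b := i + 1) (w := j + 1) (v := j) (hne j).symm (hne i) d1 d2
      have h' : (p : ℝ) ^ 2 * ∑ u ∈ Un 5 p, ich ((p : ℤ) ∣ dl u i ∧ (p : ℤ) ∣ dl u j) ≤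
          3 * (p : ℝ) ^ 0 * (Un 5 p).card := by
        rw [pow_zero, mul_one]
        refine le_trans (le_of_eq ?_) h
        congr 1
        refine sum_congr rfl fun u _ => ?_
        rw [f8_and, f8_and]
        congr 1
        exact f8_swap p _ _
      exact f8_div_le hp hN 0 h' (by norm_num)
    · have d1 : i ≠ j + 1 := fun h => hc h.symm
      have d2 : i + 1 ≠ j + 1 := fun h => hij (add_right_cancel h)
      have h := f8_P2 hp (a := i) (b := i + 1) (w := j) (v := j + 1) (hne j) (hne i) d1 d2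
      exact f8_div_le hp hN 0 (by rw [pow_zero, mul_one]; exact h) (by norm_num)
  · intro u _ h i _ hz
    exact h i (mem_univ i) (dvd_sub (hz.1.mul_right _) (hz.2.mul_right _))
  · intro i _ j _ hij
    have h := (f8_P1 hp hij).1
    have h0 : (p : ℝ) ^ 2 * ∑ u ∈ Un 5 p, ich ((∀ j ∈ (univ : Finset (Fin 5)),
        ¬ (p : ℤ) ∣ dl u j) ∧ (p : ℤ) ∣ dt (u i) (u j)) ≤ 2 * (p : ℝ) ^ 1 * (Un 5 p).card := by
      rw [pow_one]
      refine le_trans ?_ h
      gcongr with u _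
      exact f8_mono fun h => h.2
    have h1 := f8_div_le (K := 2) hp hN 1 h0 (by norm_num)
    have h2 : (2 : ℝ) / (p : ℝ) ^ (2 - 1) ≤ 3 / p := by
      rw [show 2 - 1 = 1 from rfl, pow_one]
      gcongr
      norm_num
    exact h1.trans h2

theorem un_locS : type_of% @un_locS_pr := @un_locS_pr

end Pool.Agent.PFM
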