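import Mathlib
import Pool.Agent.Lib_helper15.PFM.Defs
import Pool.Agent.Lib_helper18.PENKF.PF6
import Pool.Agent.Lib_helper8.PENT.ZS

/-! block F9 (helper5): equidistribution of the boxes -/

set_option autoImplicit false

namespace Pool.Agent.PFM

open Finset Pool.Agent.PENT Pool.Agent.PENK

/-- nested pairs to a pentagon -/
def f9_e (w : ((((ℤ × ℤ) × (ℤ × ℤ)) × (ℤ × ℤ)) × (ℤ × ℤ)) × (ℤ × ℤ)) : PolyK 5 :=
  ![w.1.1.1.1, w.1.1.1.2, w.1.1.2, w.1.2, w.2]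

theorem f9_sum (s : Fin 5 → Finset (ℤ × ℤ)) (F : PolyK 5 → ℝ) :
    ∑ u ∈ Fintype.piFinset s, F u =
      ∑ w ∈ (((s 0 ×ˢ s 1) ×ˢ s 2) ×ˢ s 3) ×ˢ s 4, F (f9_e w) := by
  refine Finset.sum_nbij' (fun u => ((((u 0, u 1), u 2), u 3), u 4)) f9_e ?_ ?_ ?_ ?_ ?_
  · intro u hu
    rw [Fintype.mem_piFinset] at hu
    simp only [Finset.mem_product]
    exact ⟨⟨⟨⟨hu 0, hu 1⟩, hu 2⟩, hu 3⟩, hu 4⟩
  · intro w hw
    simp only [Finset.mem_product] at hw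
    rw [Fintype.mem_piFinset]
    intro j
    fin_cases j
    · exact hw.1.1.1.1
    · exact hw.1.1.1.2
    · exact hw.1.1.2
    · exact hw.1.2
    · exact hw.2
  · intro u _
    funext j
    fin_cases j <;> rfl
  · intro w _
    rfl
  · intro u _
    congr 1
    funext j
    fin_cases j <;> rfl

theorem f9_card (s : Fin 5 → Finset (ℤ × ℤ)) :
    ((Fintype.piFinset s).card : ℝ) = (((((s 0 ×ˢ s 1) ×ˢ s 2) ×ˢ s 3) ×ˢ s 4).card : ℝ) := by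
  have h := f9_sum s (fun _ => 1)
  simpa using h

/-- sums over the residues -/
theorem f9_ico (p : ℕ) (f : ℤ → ℝ) : ∑ a ∈ Ico (0 : ℤ) p, f a = ∑ a ∈ range p, f (a : ℤ) := by
  symm
  refine Finset.sum_nbij (fun a : ℕ => (a : ℤ)) ?_ ?_ ?_ ?_
  · intro a ha
    have := Finset.mem_range.1 ha
    rw [Finset.mem_Ico]
    constructor <;> omega
  · intro a _ b _ hab
    simpa using hab
  · intro z hz
    have h1 := Finset.mem_Ico.1 (Finset.mem_coe.1 hz)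
    refine ⟨z.toNat, ?_, ?_⟩
    · rw [Finset.mem_coe, Finset.mem_range]
      omega
    · show ((z.toNat : ℕ) : ℤ) = z
      omega
  · intro a _
    rfl

theorem f9_mG {p : ℕ} (hp : 0 < p) (h : ℤ × ℤ → ℝ) : mG (L1 p) h = av p (fun s t => h (s, t)) := by
  unfold mG L1 av
  rw [Finset.sum_product, f9_ico, Finset.card_product, Int.card_Ico]
  have h1 : ∀ a ∈ range p, ∑ b ∈ Ico (0 : ℤ) p, h ((a : ℤ), b) = ∑ b ∈ range p, h ((a : ℤ), (b : ℤ)) :=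
    fun a _ => f9_ico p (fun b => h ((a : ℤ), b))
  rw [Finset.sum_congr rfl h1]
  have h2 : ((p : ℤ) - 0).toNat = p := by omega
  rw [h2]
  push_cast
  rw [pow_two]

/-- one vertex -/
theorem f9_one (A Q : ℕ) (S : Finset ℕ) (hS : ∀ p ∈ S, p.Prime) (hQ : 1 ≤ Q) (hA : Q ^ 2 ≤ A) :
    EquiG ((Icc (1 : ℤ) A) ×ˢ (Icc (1 : ℤ) A)) (fun v : ℤ × ℤ => v) cg1 L1 S (Q : ℝ)
      (3 * (Q : ℝ) / A) := by
  intro T hT hq h hper h01
  have hpr : ∀ p ∈ T, p.Prime := fun p hp => hS p (hT hp)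
  have hq' : ∏ p ∈ T, p ≤ Q := by exact_mod_cast hq
  have hq0 : 0 < ∏ p ∈ T, p := Finset.prod_pos (fun p hp => (hpr p hp).pos)
  have hA0 : 0 < A := lt_of_lt_of_le (by positivity) hA
  have key := av_prod (q := 1) one_pos (f := fun _ _ => (1 : ℝ)) (fun _ _ _ _ _ _ => rfl) T
    (fun p => p) (fun p s t => h p (s, t)) (fun p hp => (hpr p hp).pos)
    (fun p _ => Nat.coprime_one_left p)
    (fun p hp p' hp' hne => (Nat.coprime_primes (hpr p hp) (hpr p' hp')).2 hne)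
    (fun p hp s t s' t' h1 h2 => hper p hp (s, t) (s', t') ⟨h1, h2⟩)
  have hav1 : av 1 (fun _ _ => (1 : ℝ)) = 1 := by
    unfold av
    simp
  rw [hav1, one_mul, one_mul] at key
  simp only [one_mul] at key
  have hbox := box_av hq0 key.1 (fun s t => ⟨Finset.prod_nonneg (fun p hp => (h01 p hp _).1),
    Finset.prod_le_one (fun p hp => (h01 p hp _).1) (fun p hp => (h01 p hp _).2)⟩)
    0 (A : ℤ) 0 (A : ℤ) (by positivity) (by positivity)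
  have hI : Icc (1 : ℤ) A = Ioc (0 : ℤ) A := by
    ext z
    rw [Finset.mem_Icc, Finset.mem_Ioc]
    omega
  have hcard : (((Icc (1 : ℤ) A) ×ˢ (Icc (1 : ℤ) A)).card : ℝ) = (A : ℝ) ^ 2 := by
    rw [Finset.card_product, Int.card_Icc]
    have : ((A : ℤ) + 1 - 1).toNat = A := by omega
    rw [this]
    push_cast
    ring
  have hprod : ∏ p ∈ T, mG (L1 p) (h p) = ∏ p ∈ T, av p (fun s t => h p (s, t)) :=
    Finset.prod_congr rfl (fun p hp => f9_mG (hpr p hp).pos (h p))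
  rw [hcard, hprod, hI, Finset.sum_product]
  rw [key.2] at hbox
  have e1 : (((A : ℤ) - 0 : ℤ) : ℝ) = (A : ℝ) := by push_cast; ring
  rw [e1] at hbox
  have e2 : (A : ℝ) * (A : ℝ) * ∏ p ∈ T, av p (fun s t => h p (s, t)) =
      (A : ℝ) ^ 2 * ∏ p ∈ T, av p (fun s t => h p (s, t)) := by ring
  rw [e2] at hbox
  refine hbox.trans ?_
  have hqR : ((∏ p ∈ T, p : ℕ) : ℝ) ≤ (Q : ℝ) := by exact_mod_cast hq'
  have hq0R : (0 : ℝ) < ((∏ p ∈ T, p : ℕ) : ℝ) := by exact_mod_cast hq0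
  have hAR : (0 : ℝ) < (A : ℝ) := by exact_mod_cast hA0
  have hQ2 : ((Q : ℝ)) ^ 2 ≤ A := by exact_mod_cast hA
  have hQ1 : (1 : ℝ) ≤ (Q : ℝ) := by exact_mod_cast hQ
  have e3 : 3 * (Q : ℝ) / A * (A : ℝ) ^ 2 = 3 * (Q : ℝ) * A := by
    field_simp
  rw [e3]
  have hQA : (Q : ℝ) ≤ A := by nlinarith
  nlinarith [mul_le_mul hqR hQA (by positivity : (0:ℝ) ≤ (Q:ℝ)) (by positivity : (0:ℝ) ≤ (Q:ℝ)),
    mul_le_mul_of_nonneg_right hqR hAR.le, mul_le_mul hqR hqR hq0R.le (by positivity : (0:ℝ) ≤ (Q:ℝ)),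
    mul_le_mul_of_nonneg_left hQA (by positivity : (0:ℝ) ≤ (Q:ℝ))]

theorem bo_equi_pr : ∃ C : ℝ, 0 ≤ C ∧ ∀ (A : Fin 5 → ℕ) (Q : ℕ) (η : ℝ) (S : Finset ℕ),
    (∀ p ∈ S, p.Prime) → 1 ≤ Q → (∀ j, Q ^ 2 ≤ A j) → (∀ j, C * Q ^ 2 ≤ η * A j) →
    EquiF (Bo A) (fun u => u) (Un 5) S (Q : ℝ) η := by
  refine ⟨15, by norm_num, ?_⟩
  intro A Q η S hS hQ hA hη T hT hq h hper h01
  have hc1 : ∀ (p : ℕ) (v : ℤ × ℤ), cg1 p v v := fun p v => by
    unfold cg1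
    simp
  have hpos : ∀ j, 0 ≤ 3 * (Q : ℝ) / (A j : ℝ) := fun j => by positivity
  have h0 := f9_one (A 0) Q S hS hQ (hA 0)
  have h1 := f9_one (A 1) Q S hS hQ (hA 1)
  have h2 := f9_one (A 2) Q S hS hQ (hA 2)
  have h3 := f9_one (A 3) Q S hS hQ (hA 3)
  have h4 := f9_one (A 4) Q S hS hQ (hA 4)
  have k1 := equi_prod hc1 hc1 (hpos 0) (hpos 1) h0 h1
  have k2 := equi_prod (fun p v => ⟨hc1 p v.1, hc1 p v.2⟩) hc1 (add_nonneg (hpos 0) (hpos 1))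
    (hpos 2) k1 h2
  have k3 := equi_prod (fun p v => ⟨⟨hc1 p v.1.1, hc1 p v.1.2⟩, hc1 p v.2⟩) hc1
    (add_nonneg (add_nonneg (hpos 0) (hpos 1)) (hpos 2)) (hpos 3) k2 h3
  have k4 := equi_prod (fun p v => ⟨⟨⟨hc1 p v.1.1.1, hc1 p v.1.1.2⟩, hc1 p v.1.2⟩, hc1 p v.2⟩) hc1
    (add_nonneg (add_nonneg (add_nonneg (hpos 0) (hpos 1)) (hpos 2)) (hpos 3)) (hpos 4) k3 h4
  have k5 := k4 T hT hq (fun p w => h p (f9_e w)) (fun p hp v w hvw => by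
      apply hper p hp
      intro j
      fin_cases j
      · exact hvw.1.1.1.1
      · exact hvw.1.1.1.2
      · exact hvw.1.1.2
      · exact hvw.1.2
      · exact hvw.2) (fun p hp w => h01 p hp _)
  have hB : ∑ o ∈ Bo A, ∏ p ∈ T, h p o = _ := f9_sum _ (fun u => ∏ p ∈ T, h p u)
  have hBc : ((Bo A).card : ℝ) = _ := f9_card _
  have hm : ∀ p ∈ T, mL (Un 5 p) (h p) =
      mG ((((L1 p ×ˢ L1 p) ×ˢ L1 p) ×ˢ L1 p) ×ˢ L1 p) (fun w => h p (f9_e w)) := by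
    intro p _
    unfold mL mG Un
    rw [f9_sum, f9_card]
  show |∑ o ∈ Bo A, ∏ p ∈ T, h p o - ((Bo A).card : ℝ) * ∏ p ∈ T, mL (Un 5 p) (h p)| ≤
    η * ((Bo A).card : ℝ)
  rw [hB, hBc, Finset.prod_congr rfl hm]
  refine k5.trans ?_
  apply mul_le_mul_of_nonneg_right _ (Nat.cast_nonneg _)
  have hj : ∀ j, 3 * (Q : ℝ) / (A j : ℝ) ≤ η / 5 := by
    intro j
    have hQ1 : (1 : ℝ) ≤ (Q : ℝ) := by exact_mod_cast hQ
    have hAj : (0 : ℝ) < (A j : ℝ) := by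
      have : 0 < A j := lt_of_lt_of_le (by positivity) (hA j)
      exact_mod_cast this
    rw [div_le_iff₀ hAj]
    have := hη j
    nlinarith
  have s := hj 0
  have s1 := hj 1
  have s2 := hj 2
  have s3 := hj 3
  have s4 := hj 4
  linarith

theorem bo_equi : type_of% @bo_equi_pr := @bo_equi_pr

end Pool.Agent.PFM
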