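import Pool.Agent.Lib_helper15.PFMF.F1
import Pool.Agent.Lib_helper15.PFMF.F4
import Pool.Agent.Lib_helper15.PFMF.F6
import Pool.Agent.Lib_helper15.PFMF.F7
import Pool.Agent.Lib_helper15.PFMF.F8
import Pool.Agent.Lib_helper15.PFMF.F9

/-! PFM block F11 (helper41): the sum over the pentagons -/

set_option autoImplicit false

namespace Pool.Agent.PFM

open Finset Pool.Agent.PENT Pool.Agent.PENK

theorem f11_isP {p : Pool.Agent.PENT.Par} {X : ℕ} {u : PolyK 5} (h : p.GP X u) :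
    IsP univ ⌊PP X⌋₊ u := by
  refine ⟨fun i => ?_, fun j _ => (h.dp j).1, fun j _ q hq hd => ?_, fun i _ j _ hij => ?_⟩
  · have h1 := h.cop (i - 1) i (by fin_cases i <;> decide)
    rw [sub_add_cancel] at h1
    obtain ⟨a, b, hab⟩ := h1
    unfold dt at hab
    exact ⟨-a * (u (i - 1)).2 + b * (u (i + 1)).2, a * (u (i - 1)).1 - b * (u (i + 1)).1,
      by linear_combination hab⟩
  · have h1 := (h.dp j).2 q hq hd
    exact ⟨(Nat.floor_lt (Real.exp_pos _).le).2 h1.2, h1.1⟩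
  · exact Int.isCoprime_iff_gcd_eq_one.1 (h.cop i j hij)

theorem f11_nm {p : Pool.Agent.PENT.Par} {X : ℕ} {u : PolyK 5} (h : p.GP X u) (j : Fin 5) :
    2 ≤ nm (u j) := by
  have h1 := h.pos1 j
  have h2 := h.pos2 j
  unfold nm
  omega

theorem f11_dn_le {p : Pool.Agent.PENT.Par} {X : ℕ} {u : PolyK 5} (h : p.GP X u) (j : Fin 5) :
    (dn u j : ℝ) ≤ (nm (u j) : ℝ) * (nm (u (j + 1)) : ℝ) := by
  have h1 : (dn u j : ℤ) ≤ nm (u j) * nm (u (j + 1)) := by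
    unfold dn dl dt nm
    rw [Int.natCast_natAbs, abs_le]
    have a1 := h.pos1 j
    have a2 := h.pos2 j
    have a3 := h.pos1 (j + 1)
    have a4 := h.pos2 (j + 1)
    constructor
    · nlinarith [mul_pos a1 a3, mul_pos a1 a4, mul_pos a2 a3, mul_pos a2 a4]
    · nlinarith [mul_pos a1 a3, mul_pos a1 a4, mul_pos a2 a3, mul_pos a2 a4]
  exact_mod_cast h1

theorem f11_dn_ge {p : Pool.Agent.PENT.Par} {κ : ℝ} (hp : p.Ok κ) {X : ℕ} {u : PolyK 5}
    (h : p.GP X u) (j : Fin 5) :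
    p.c1 * ((nm (u j) : ℝ) * (nm (u (j + 1)) : ℝ)) ≤ (dn u j : ℝ) := by
  have h1 := h.sep j (j + 1) (by fin_cases j <;> decide)
  have h2 : (dn u j : ℝ) = |(dt (u j) (u (j + 1)) : ℝ)| := by
    unfold dn dl
    rw [Nat.cast_natAbs, Int.cast_abs]
  rw [h2]
  rcases hp.sg1 j (j + 1) with h3 | h3
  · rw [h3] at h1
    push_cast at h1
    rw [one_mul] at h1
    exact h1.trans (le_abs_self _)
  · rw [h3] at h1
    push_cast at h1
    have h4 := neg_le_abs (dt (u j) (u (j + 1)) : ℝ)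
    linarith

/-- the dyadic sizes -/
def f11_sz (u : PolyK 5) (j : Fin 5) : ℕ := Nat.log 2 (nm (u j)).toNat

theorem f11_sz_lo {p : Pool.Agent.PENT.Par} {X : ℕ} {u : PolyK 5} (h : p.GP X u) (j : Fin 5) :
    (2 : ℝ) ^ f11_sz u j ≤ (nm (u j) : ℝ) := by
  have h1 := f11_nm h j
  have h2 : 2 ^ f11_sz u j ≤ (nm (u j)).toNat := by
    apply Nat.pow_log_le_self
    omega
  have h3 : ((2 ^ f11_sz u j : ℕ) : ℤ) ≤ nm (u j) := by omega
  exact_mod_cast h3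

theorem f11_sz_hi {p : Pool.Agent.PENT.Par} {X : ℕ} {u : PolyK 5} (h : p.GP X u) (j : Fin 5) :
    nm (u j) < (2 ^ (f11_sz u j + 1) : ℕ) := by
  have h1 := f11_nm h j
  have h2 : (nm (u j)).toNat < 2 ^ (f11_sz u j + 1) :=
    Nat.lt_pow_succ_log_self (by norm_num) _
  omega

theorem f11_DE_ge {p : Pool.Agent.PENT.Par} {κ : ℝ} (hp : p.Ok κ) {X : ℕ} {u : PolyK 5}
    (h : p.GP X u) : p.c1 ^ 5 * ∏ j, (4 : ℝ) ^ f11_sz u j ≤ (DE univ u : ℝ) := by
  have h1 : ∏ j, (4 : ℝ) ^ f11_sz u j ≤ ∏ j, (nm (u j) : ℝ) ^ 2 := by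
    apply Finset.prod_le_prod
    · intro j _; positivity
    · intro j _
      have h2 := f11_sz_lo h j
      calc (4 : ℝ) ^ f11_sz u j = ((2 : ℝ) ^ f11_sz u j) ^ 2 := by
            rw [← pow_mul, mul_comm, pow_mul]; norm_num
        _ ≤ _ := pow_le_pow_left₀ (by positivity) h2 2
  have h3 : ∏ j, (p.c1 * ((nm (u j) : ℝ) * (nm (u (j + 1)) : ℝ))) ≤ (DE univ u : ℝ) := by
    unfold DE
    rw [Nat.cast_prod]
    apply Finset.prod_le_prod
    · intro j _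
      have a1 : (0 : ℝ) < nm (u j) := by
        have := f11_nm h j; exact_mod_cast (by omega : 0 < nm (u j))
      have a2 : (0 : ℝ) < nm (u (j + 1)) := by
        have := f11_nm h (j + 1); exact_mod_cast (by omega : 0 < nm (u (j + 1)))
      have a3 := hp.c10
      positivity
    · intro j _
      exact f11_dn_ge hp h j
  refine le_trans ?_ h3
  calc p.c1 ^ 5 * ∏ j, (4 : ℝ) ^ f11_sz u j ≤ p.c1 ^ 5 * ∏ j, (nm (u j) : ℝ) ^ 2 :=
        mul_le_mul_of_nonneg_left h1 (pow_nonneg hp.c10.le _)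
    _ = _ := by
        rw [Fin.prod_univ_five, Fin.prod_univ_five]
        have e0 : (0 : Fin 5) + 1 = 1 := by decide
        have e1 : (1 : Fin 5) + 1 = 2 := by decide
        have e2 : (2 : Fin 5) + 1 = 3 := by decide
        have e3 : (3 : Fin 5) + 1 = 4 := by decide
        have e4 : (4 : Fin 5) + 1 = 0 := by decide
        rw [e0, e1, e2, e3, e4]
        ring

theorem f11_ub {p : Pool.Agent.PENT.Par} {κ : ℝ} (hp : p.Ok κ) (hκ : κ ≤ 1 / 100) {X : ℕ}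
    (hX : 1 ≤ X) {u : PolyK 5} (h : p.GP X u) (j : Fin 5) :
    (nm (u j) : ℝ) ≤ (X : ℝ) ^ (1 / 50 : ℝ) := by
  refine (h.upp j).trans (Real.rpow_le_rpow_of_exponent_le (by exact_mod_cast hX) ?_)
  have h1 := hp.ek j
  have h2 := hp.e4 j
  have h3 := hp.ep0
  linarith

theorem f11_DE_le {p : Pool.Agent.PENT.Par} {κ : ℝ} (hp : p.Ok κ) (hκ : κ ≤ 1 / 100) {X : ℕ}
    (hX : 1 ≤ X) {u : PolyK 5} (h : p.GP X u) : (DE univ u : ℝ) ≤ X := by
  have hX1 : (1 : ℝ) ≤ X := by exact_mod_cast hX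
  have h1 : ∀ j, (dn u j : ℝ) ≤ (X : ℝ) ^ (1 / 25 : ℝ) := by
    intro j
    have h2 := f11_dn_le h j
    have h3 := f11_ub hp hκ hX h j
    have h4 := f11_ub hp hκ hX h (j + 1)
    have a1 : (0 : ℝ) ≤ nm (u (j + 1)) := by
      have := f11_nm h (j + 1); exact_mod_cast (by omega : 0 ≤ nm (u (j + 1)))
    calc (dn u j : ℝ) ≤ _ := h2
      _ ≤ (X : ℝ) ^ (1 / 50 : ℝ) * (X : ℝ) ^ (1 / 50 : ℝ) :=
          mul_le_mul h3 h4 a1 (by positivity)
      _ = _ := by rw [← Real.rpow_add (by linarith)]; norm_num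
  unfold DE
  rw [Nat.cast_prod]
  calc ∏ j, (dn u j : ℝ) ≤ ∏ _j : Fin 5, (X : ℝ) ^ (1 / 25 : ℝ) :=
        Finset.prod_le_prod (fun j _ => Nat.cast_nonneg _) (fun j _ => h1 j)
    _ = (X : ℝ) ^ (1 / 5 : ℝ) := by
        rw [Finset.prod_const, Finset.card_univ, Fintype.card_fin, ← Real.rpow_natCast,
          ← Real.rpow_mul (by linarith)]
        norm_num
    _ ≤ (X : ℝ) ^ (1 : ℝ) := Real.rpow_le_rpow_of_exponent_le hX1 (by norm_num)
    _ = X := Real.rpow_one _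

theorem f11_card (i : Fin 5 → ℕ) :
    ((Bo (fun j => 2 ^ (i j + 1)) : Finset (PolyK 5)).card : ℝ) = 4 ^ 5 * ∏ j, (4 : ℝ) ^ i j := by
  unfold Bo
  rw [Fintype.card_piFinset]
  simp only [Finset.card_product, Int.card_Icc]
  push_cast
  have h1 : ∀ j, (((2 : ℤ) ^ (i j + 1) + 1 - 1).toNat : ℝ) = 2 ^ (i j + 1) := by
    intro j
    rw [add_sub_cancel_right]
    have : ((2 : ℤ) ^ (i j + 1)).toNat = 2 ^ (i j + 1) := by
      have h2 : ((2 : ℤ) ^ (i j + 1)) = ((2 ^ (i j + 1) : ℕ) : ℤ) := by push_cast; ring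
      rw [h2, Int.toNat_natCast]
    rw [this]
    push_cast
    ring
  have h3 : ∀ j, (2 : ℝ) ^ (i j + 1) * 2 ^ (i j + 1) = 4 * 4 ^ i j := by
    intro j
    rw [← mul_pow]
    norm_num [pow_succ]
    ring
  simp only [h1, h3]
  rw [Finset.prod_mul_distrib, Finset.prod_const, Finset.card_univ, Fintype.card_fin]

theorem f11_rp {c y z b : ℝ} (hc : 0 < c) (hc1 : c ≤ 1) (hy : 0 < y) (h1 : c * y ≤ z)
    (h2 : z ≤ y) : z ^ b ≤ c ^ (-|b|) * y ^ b := by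
  have hz : 0 < z := lt_of_lt_of_le (mul_pos hc hy) h1
  rcases le_total 0 b with hb | hb
  · rw [abs_of_nonneg hb]
    have h3 : (1 : ℝ) ≤ c ^ (-b) := Real.one_le_rpow_of_pos_of_le_one_of_nonpos hc hc1 (by linarith)
    calc z ^ b ≤ y ^ b := Real.rpow_le_rpow hz.le h2 hb
      _ ≤ c ^ (-b) * y ^ b := by
          nlinarith [Real.rpow_nonneg hy.le b]
  · rw [abs_of_nonpos hb, neg_neg, ← Real.mul_rpow hc.le hy.le]
    exact Real.rpow_le_rpow_of_nonpos (mul_pos hc hy) h1 hb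

theorem f11_fl {z : ℝ} (hz : 2 ≤ z) : z ≤ (⌊z ^ 2⌋₊ : ℝ) := by
  have h1 := Nat.lt_floor_add_one (z ^ 2)
  nlinarith

open Filter in
theorem f11_ev (ps : ℕ) {ep t : ℝ} (hep : 0 < ep) (ht : 0 < t) (Cb x0 r : ℝ) :
    ∃ X₀ : ℕ, ∀ X ≥ X₀, 3 ≤ X ∧ x0 ≤ (X : ℝ) ∧ ps ≤ ⌊PP X⌋₊ ∧ 3 ≤ ⌊PP X⌋₊ ∧
      ⌊PP X⌋₊ ≤ ⌊(X : ℝ) ^ t⌋₊ ∧ (X : ℝ) ^ (t / 2) ≤ ⌊(X : ℝ) ^ t⌋₊ ∧
      Real.exp (1 / 2 * Real.log X ^ (1 / 100 : ℝ)) ≤ ⌊PP X⌋₊ ∧ Cb ≤ (X : ℝ) ^ ep ∧
      (X : ℝ) ^ (-ep) ≤ Real.log X ^ r := by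
  have hc : Tendsto (fun X : ℕ => (X : ℝ)) atTop atTop := tendsto_natCast_atTop_atTop
  have hl : Tendsto (fun X : ℕ => Real.log (X : ℝ)) atTop atTop := Real.tendsto_log_atTop.comp hc
  have hl1 : Tendsto (fun X : ℕ => Real.log (X : ℝ) ^ (1 / 100 : ℝ)) atTop atTop :=
    (tendsto_rpow_atTop (by norm_num)).comp hl
  have hP : Tendsto (fun X : ℕ => PP X) atTop atTop := Real.tendsto_exp_atTop.comp hl1
  have hn : Tendsto (fun X : ℕ => Real.log (X : ℝ) ^ (-(99 / 100) : ℝ)) atTop (nhds 0) :=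
    (tendsto_rpow_neg_atTop (by norm_num)).comp hl
  have ht2 : Tendsto (fun X : ℕ => (X : ℝ) ^ (t / 2)) atTop atTop :=
    (tendsto_rpow_atTop (by positivity)).comp hc
  have hep2 : Tendsto (fun X : ℕ => (X : ℝ) ^ ep) atTop atTop :=
    (tendsto_rpow_atTop hep).comp hc
  have hlo := ((isLittleO_log_rpow_rpow_atTop (-r) hep).comp_tendsto hc).bound
    (show (0 : ℝ) < 1 by norm_num)
  have hall := (eventually_ge_atTop 3).and <| (hc.eventually_ge_atTop x0).and <|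
    (hP.eventually_ge_atTop (ps : ℝ)).and <| (hP.eventually_ge_atTop (3 : ℝ)).and <|
    (hn.eventually (eventually_lt_nhds ht)).and <| (ht2.eventually_ge_atTop 2).and <|
    (hl1.eventually_ge_atTop 2).and <| (hep2.eventually_ge_atTop Cb).and <|
    (hl.eventually_ge_atTop 1).and hlo
  obtain ⟨X₀, hX₀⟩ := eventually_atTop.1 hall
  refine ⟨X₀, fun X hX => ?_⟩
  obtain ⟨a1, a2, a3, a4, a5, a6, a7, a8, a9, a10⟩ := hX₀ X hX
  have hX0 : (0 : ℝ) < X := by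
    have : 0 < X := by omega
    exact_mod_cast this
  have hL : 0 < Real.log (X : ℝ) := by linarith
  refine ⟨a1, a2, Nat.le_floor a3, Nat.le_floor (by exact_mod_cast a4), ?_, ?_, ?_, a8, ?_⟩
  · apply Nat.floor_le_floor
    unfold PP
    rw [Real.rpow_def_of_pos hX0]
    apply Real.exp_le_exp.2
    have h1 : Real.log (X : ℝ) ^ (1 / 100 : ℝ) =
        Real.log (X : ℝ) * Real.log (X : ℝ) ^ (-(99 / 100) : ℝ) := by
      nth_rewrite 2 [← Real.rpow_one (Real.log (X : ℝ))]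
      rw [← Real.rpow_add hL]
      norm_num
    rw [h1]
    exact mul_le_mul_of_nonneg_left a5.le hL.le
  · have h1 := f11_fl a6
    rw [← Real.rpow_natCast, ← Real.rpow_mul hX0.le] at h1
    have h2 : t / 2 * ((2 : ℕ) : ℝ) = t := by push_cast; ring
    rwa [h2] at h1
  · have h0 : 2 ≤ Real.exp (1 / 2 * Real.log (X : ℝ) ^ (1 / 100 : ℝ)) := by
      have h1 := Real.add_one_le_exp (1 / 2 * Real.log (X : ℝ) ^ (1 / 100 : ℝ))
      linarith
    have h1 := f11_fl h0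
    rw [← Real.exp_nat_mul] at h1
    have h2 : ((2 : ℕ) : ℝ) * (1 / 2 * Real.log (X : ℝ) ^ (1 / 100 : ℝ)) =
        Real.log (X : ℝ) ^ (1 / 100 : ℝ) := by push_cast; ring
    rw [h2] at h1
    exact h1
  · simp only [Function.comp, one_mul, Real.norm_eq_abs] at a10
    rw [abs_of_nonneg (Real.rpow_nonneg hL.le _), abs_of_nonneg (Real.rpow_nonneg hX0.le _),
      Real.rpow_neg hL.le] at a10
    rw [Real.rpow_neg hX0.le]
    have h1 : 0 < Real.log (X : ℝ) ^ r := Real.rpow_pos_of_pos hL _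
    have h2 : 0 < (X : ℝ) ^ ep := Real.rpow_pos_of_pos hX0 _
    exact inv_le_of_inv_le₀ h1 a10

theorem f11_log {X : ℕ} (hX : 3 ≤ X) : ((Nat.log 2 X + 1 : ℕ) : ℝ) ≤ 3 * Real.log X := by
  have h1 : (2 : ℕ) ^ Nat.log 2 X ≤ X := Nat.pow_log_le_self 2 (by omega)
  have h2 : ((2 : ℕ) ^ Nat.log 2 X : ℝ) ≤ X := by exact_mod_cast h1
  have h3 : (Nat.log 2 X : ℝ) * Real.log 2 ≤ Real.log X := by
    have := Real.log_le_log (by positivity) h2
    rw [Real.log_pow] at this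
    push_cast at this
    exact this
  have h4 := Real.log_two_gt_d9
  have h5 : 1 ≤ Real.log X := by
    rw [Real.le_log_iff_exp_le (by have : 0 < X := by omega
                                   exact_mod_cast this)]
    have h6 := Real.exp_one_lt_d9
    have h7 : (3 : ℝ) ≤ X := by exact_mod_cast hX
    linarith
  push_cast
  have h8 : (0 : ℝ) ≤ Nat.log 2 X := Nat.cast_nonneg _
  nlinarith

/-- one tuple of sizes -/
theorem f11_one {κ : ℝ} {W : Wts 5} (hW : W.Ok) {p : Pool.Agent.PENT.Par} (hp : p.Ok κ)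
    {X P0 P ps : ℕ} {C2 B : ℝ} (hC2 : 0 ≤ C2)
    (i : Fin 5 → ℕ) (G : Finset (PolyK 5)) (hG : ∀ u ∈ G, p.GP X u ∧ f11_sz u = i)
    (hps : 2 ≤ ps) (F : PolyK 5 → ℝ)
    (hF : ∀ u ∈ G, F u ≤ C2 / (DE univ u : ℝ) *
      ∏ q ∈ (prs ps P).filter (fun q => ¬ q ∣ 1), Ph W P0 univ univ u q)
    (hs : ∑ o ∈ Bo (fun j => 2 ^ (i j + 1)), ∏ q ∈ (prs ps P).filter (fun q => ¬ q ∣ 1),
      Ph W P0 univ univ o q ≤ ((Bo (fun j => 2 ^ (i j + 1)) : Finset (PolyK 5)).card : ℝ) * B) :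
    ∑ u ∈ G, F u ≤ C2 * 4 ^ 5 / p.c1 ^ 5 * B := by
  have hc := hp.c10
  have hpi : (0 : ℝ) < ∏ j, (4 : ℝ) ^ i j := Finset.prod_pos (fun j _ => by positivity)
  have hPh : ∀ u : PolyK 5, 0 ≤ ∏ q ∈ (prs ps P).filter (fun q => ¬ q ∣ 1),
      Ph W P0 univ univ u q := by
    intro u
    apply Finset.prod_nonneg
    intro q hq
    rw [mem_filter, prs, mem_filter, mem_Ioc] at hq
    exact (Ph_mem W hW P0 univ univ hq.1.2 (by omega) u).1
  have hsub : G ⊆ Bo (fun j => 2 ^ (i j + 1)) := by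
    intro u hu
    obtain ⟨h1, h2⟩ := hG u hu
    unfold Bo
    rw [Fintype.mem_piFinset]
    intro j
    have h3 := f11_sz_hi h1 j
    rw [h2] at h3
    have h4 := h1.pos1 j
    have h5 := h1.pos2 j
    unfold nm at h3
    rw [mem_product, mem_Icc, mem_Icc]
    refine ⟨⟨by omega, ?_⟩, ⟨by omega, ?_⟩⟩ <;> push_cast at h3 ⊢ <;> omega
  calc ∑ u ∈ G, F u ≤ ∑ u ∈ G, C2 / (p.c1 ^ 5 * ∏ j, (4 : ℝ) ^ i j) *
        ∏ q ∈ (prs ps P).filter (fun q => ¬ q ∣ 1), Ph W P0 univ univ u q := by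
        apply Finset.sum_le_sum
        intro u hu
        obtain ⟨h1, h2⟩ := hG u hu
        refine (hF u hu).trans (mul_le_mul_of_nonneg_right ?_ (hPh u))
        have h3 := f11_DE_ge hp h1
        rw [h2] at h3
        exact div_le_div_of_nonneg_left hC2 (by positivity) h3
    _ = C2 / (p.c1 ^ 5 * ∏ j, (4 : ℝ) ^ i j) *
        ∑ u ∈ G, ∏ q ∈ (prs ps P).filter (fun q => ¬ q ∣ 1), Ph W P0 univ univ u q := by
        rw [Finset.mul_sum]
    _ ≤ C2 / (p.c1 ^ 5 * ∏ j, (4 : ℝ) ^ i j) *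
        (((Bo (fun j => 2 ^ (i j + 1)) : Finset (PolyK 5)).card : ℝ) * B) := by
        apply mul_le_mul_of_nonneg_left _ (by positivity)
        exact (Finset.sum_le_sum_of_subset_of_nonneg hsub (fun u _ _ => hPh u)).trans hs
    _ = C2 * 4 ^ 5 / p.c1 ^ 5 * B := by
        rw [f11_card]
        field_simp

/-- all tuples of sizes -/
theorem f11_all {κ : ℝ} {p : Pool.Agent.PENT.Par} (hp : p.Ok κ) (hκ : κ ≤ 1 / 100) {X : ℕ}
    (hX : 3 ≤ X) (G : Finset (PolyK 5)) (hG : ∀ u ∈ G, p.GP X u) (F : PolyK 5 → ℝ) {B : ℝ}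
    (hB : 0 ≤ B) (h : ∀ i : Fin 5 → ℕ, ∑ u ∈ G.filter (fun u => f11_sz u = i), F u ≤ B) :
    ∑ u ∈ G, F u ≤ (3 * Real.log X) ^ 5 * B := by
  have hX1 : (1 : ℝ) ≤ X := by
    have : 1 ≤ X := by omega
    exact_mod_cast this
  have hmaps : ∀ u ∈ G, f11_sz u ∈ Fintype.piFinset (fun _ : Fin 5 => range (Nat.log 2 X + 1)) := by
    intro u hu
    rw [Fintype.mem_piFinset]
    intro j
    rw [mem_range]
    have h1 := f11_ub hp hκ (by omega) (hG u hu) j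
    have h2 : (nm (u j) : ℝ) ≤ X := h1.trans (by
      calc (X : ℝ) ^ (1 / 50 : ℝ) ≤ (X : ℝ) ^ (1 : ℝ) :=
            Real.rpow_le_rpow_of_exponent_le hX1 (by norm_num)
        _ = X := Real.rpow_one _)
    have h3 : nm (u j) ≤ X := by exact_mod_cast h2
    have h4 : f11_sz u j ≤ Nat.log 2 X := Nat.log_mono_right (by omega)
    omega
  rw [← Finset.sum_fiberwise_of_maps_to hmaps]
  refine (Finset.sum_le_sum (fun i _ => h i)).trans ?_
  rw [Finset.sum_const, Fintype.card_piFinset, Finset.prod_const, Finset.card_range,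
    Finset.card_univ, Fintype.card_fin, nsmul_eq_mul]
  have h1 := f11_log hX
  have h2 : (((Nat.log 2 X + 1) ^ 5 : ℕ) : ℝ) ≤ (3 * Real.log X) ^ 5 := by
    push_cast at h1 ⊢
    exact pow_le_pow_left₀ (by positivity) h1 5
  exact mul_le_mul_of_nonneg_right h2 hB

/-- the bound for one tuple of sizes -/
theorem f11_B {W : Wts 5} {ps P0 P k : ℕ} {C1 C3 L lP lP0 c b' r η M : ℝ} {a b : ℝ} (hL0 : 0 < L)
    (hC3 : 0 ≤ C3) (hc : 0 < c) (hb' : 0 ≤ b')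
    (h1 : 0 ≤ lP ^ a) (h2 : 0 ≤ lP0 ^ b) (r1 : lP ^ a ≤ c * L ^ a)
    (r2 : lP0 ^ b ≤ b' * L ^ (1 / 100 * b)) (hr : r = a + 1 / 100 * b)
    (s3 : ∏ q ∈ (prs ps P).filter (fun q => ¬ q ∣ 1),
      (1 - bd univ univ W P0 q / q + C1 / (q : ℝ) ^ 2) ≤ C3 * lP ^ a * lP0 ^ b)
    (hPη : (P : ℝ) ^ k * η ≤ L ^ r) (hM : M = 2 * (C3 * (c * b')) + 1) :
    2 * ∏ q ∈ (prs ps P).filter (fun q => ¬ q ∣ 1),
      (1 - bd univ univ W P0 q / q + C1 / (q : ℝ) ^ 2) + (P : ℝ) ^ k * η ≤ M * L ^ r := by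
  have s4 : ∏ q ∈ (prs ps P).filter (fun q => ¬ q ∣ 1),
      (1 - bd univ univ W P0 q / q + C1 / (q : ℝ) ^ 2) ≤ C3 * (c * b') * L ^ r := by
    refine s3.trans ?_
    rw [hr, Real.rpow_add hL0]
    have h3 : 0 ≤ L ^ a := Real.rpow_nonneg hL0.le _
    have h4 : 0 ≤ L ^ (1 / 100 * b) := Real.rpow_nonneg hL0.le _
    calc C3 * lP ^ a * lP0 ^ b ≤ C3 * (c * L ^ a) * (b' * L ^ (1 / 100 * b)) := by
          apply mul_le_mul (mul_le_mul_of_nonneg_left r1 hC3) r2 h2 (by positivity)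
      _ = _ := by ring
  rw [hM]
  linarith

theorem usum_pr {κ : ℝ} (W : Wts 5) (hW : W.Ok) (p : Pool.Agent.PENT.Par) (hp : p.Ok κ)
    (hκ : κ ≤ 1 / 100) :
    ∃ t₁ : ℝ, 0 < t₁ ∧ ∀ t : ℝ, 0 < t → t ≤ t₁ → ∃ C : ℝ, 0 ≤ C ∧ ∃ X₀ : ℕ, ∀ X ≥ X₀,
      ∀ G : Finset (PolyK 5), (∀ u ∈ G, p.GP X u) →
      ∑ u ∈ G, (∏ j, ∏ l ∈ (dn u j).primeFactors,
          2 * lw ⌊(X : ℝ) ^ t⌋₊ l (W.al j) / (l : ℝ)) *
        ∏ l ∈ (prs 500 ⌊(X : ℝ) ^ t⌋₊).filter (fun l => ¬ l ∣ DE univ u),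
          (1 - v1 W ⌊PP X⌋₊ univ u l) ≤
      C * Real.log X ^ (-5 + ∑ j, (W.al j + W.be j) +
        1 / 100 * (∑ j, (W.bo j - W.al j - W.be j))) := by
  obtain ⟨C0, hC0, hLoc⟩ := un_locS
  obtain ⟨ps, k, C1, hps, hps2, hC1, hsv⟩ := c1_sieve W hW univ univ C0 hC0
  obtain ⟨Cb, hCb, hequi⟩ := bo_equi
  have hep := hp.ep0
  have hep1 : p.ep ≤ 1 / 400 := by
    have h1 := hp.e4 0
    have h2 := hp.ek 0
    linarith
  refine ⟨p.ep / (2 * (k + 1)), by positivity, fun t ht ht1 => ?_⟩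
  have ht2 : t * (2 * (k + 1)) ≤ p.ep := by
    rwa [le_div_iff₀ (by positivity)] at ht1
  have ht3 : t * k ≤ p.ep / 2 := by linarith
  have ht4 : t ≤ 1 := by
    have : (0 : ℝ) ≤ k := Nat.cast_nonneg k
    nlinarith
  obtain ⟨C2, x0, hC2, hx0, hw1⟩ := w1_le W hW univ univ (show 0 < t / 2 by positivity)
  obtain ⟨C3, hC3, hbd⟩ := bd_prod W hW univ univ ps C1 hC1
  set a : ℝ := -10 + ∑ j, (W.al j + W.be j) with ha
  set b : ℝ := ∑ j, (W.bo j - W.al j - W.be j) with hb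
  obtain ⟨X₀, hX₀⟩ := f11_ev ps hep ht Cb x0 (a + 1 / 100 * b)
  have hc := hp.c10
  set D : ℝ := C2 * 4 ^ 5 / p.c1 ^ 5 with hD
  have hD0 : 0 ≤ D := by positivity
  set M : ℝ := 2 * (C3 * ((t / 2) ^ (-|a|) * (1 / 2 : ℝ) ^ (-|b|))) + 1 with hM
  have hM0 : 0 ≤ M := by positivity
  refine ⟨3 ^ 5 * (D * M), by positivity, X₀, fun X hX G hG => ?_⟩
  obtain ⟨a1, a2, a3, a4, a5, a6, a7, a8, a9⟩ := hX₀ X hX
  set P : ℕ := ⌊(X : ℝ) ^ t⌋₊ with hPdef
  set P0 : ℕ := ⌊PP X⌋₊ with hP0def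
  have hXpos : (0 : ℝ) < X := by
    have : 0 < X := by omega
    exact_mod_cast this
  have hX1 : (1 : ℝ) ≤ X := by
    have : 1 ≤ X := by omega
    exact_mod_cast this
  have hL : 1 ≤ Real.log X := by
    rw [Real.le_log_iff_exp_le hXpos]
    have h6 := Real.exp_one_lt_d9
    have h7 : (3 : ℝ) ≤ X := by exact_mod_cast a1
    linarith
  have hL0 : 0 < Real.log X := by linarith
  have hP1 : 1 ≤ P := by omega
  have hPX : (P : ℝ) ≤ (X : ℝ) ^ t := Nat.floor_le (by positivity)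
  -- the logarithms
  have hP0pos : (0 : ℝ) < P0 := by
    have : 0 < P0 := by omega
    exact_mod_cast this
  have hPpos : (0 : ℝ) < P := by exact_mod_cast hP1
  have l1 : t / 2 * Real.log X ≤ Real.log P := by
    rw [← Real.log_rpow hXpos]
    exact Real.log_le_log (by positivity) a6
  have l2 : Real.log P ≤ Real.log X := by
    apply Real.log_le_log hPpos
    calc (P : ℝ) ≤ (X : ℝ) ^ t := hPX
      _ ≤ (X : ℝ) ^ (1 : ℝ) := Real.rpow_le_rpow_of_exponent_le hX1 ht4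
      _ = X := Real.rpow_one _
  have l3 : 1 / 2 * Real.log X ^ (1 / 100 : ℝ) ≤ Real.log P0 := by
    rw [Real.le_log_iff_exp_le hP0pos]
    exact a7
  have l4 : Real.log P0 ≤ Real.log X ^ (1 / 100 : ℝ) := by
    rw [Real.log_le_iff_le_exp hP0pos]
    exact Nat.floor_le (Real.exp_pos _).le
  have r1 := f11_rp (b := a) (show 0 < t / 2 by positivity) (by linarith) hL0 l1 l2
  have r2 := f11_rp (b := b) (show (0 : ℝ) < 1 / 2 by norm_num) (by norm_num)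
    (Real.rpow_pos_of_pos hL0 _) l3 l4
  rw [← Real.rpow_mul hL0.le] at r2
  -- the product of the densities
  set S : Finset ℕ := (prs ps P).filter (fun q => ¬ q ∣ 1) with hS
  have hSm : ∀ q ∈ S, q.Prime ∧ ps < q ∧ q ≤ P := by
    intro q hq
    rw [hS, mem_filter, prs, mem_filter, mem_Ioc] at hq
    exact ⟨hq.1.2, hq.1.1.1, hq.1.1.2⟩
  set η : ℝ := (X : ℝ) ^ (-(2 * p.ep)) with hη
  have hη0 : 0 ≤ η := by positivity
  have hη1 : η ≤ 1 := Real.rpow_le_one_of_one_le_of_nonpos hX1 (by linarith)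
  have hPk : (P : ℝ) ^ k ≤ (X : ℝ) ^ (p.ep / 2) := by
    calc (P : ℝ) ^ k ≤ ((X : ℝ) ^ t) ^ k := pow_le_pow_left₀ (Nat.cast_nonneg _) hPX k
      _ = (X : ℝ) ^ (t * k) := by rw [← Real.rpow_natCast, ← Real.rpow_mul hXpos.le]
      _ ≤ _ := Real.rpow_le_rpow_of_exponent_le hX1 ht3
  have hPη : (P : ℝ) ^ k * η ≤ Real.log X ^ (a + 1 / 100 * b) := by
    calc (P : ℝ) ^ k * η ≤ (X : ℝ) ^ (p.ep / 2) * (X : ℝ) ^ (-(2 * p.ep)) :=
          mul_le_mul_of_nonneg_right hPk hη0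
      _ = (X : ℝ) ^ (-(3 / 2 * p.ep)) := by rw [← Real.rpow_add hXpos]; congr 1; ring
      _ ≤ (X : ℝ) ^ (-p.ep) := Real.rpow_le_rpow_of_exponent_le hX1 (by linarith)
      _ ≤ _ := a9
  -- one tuple
  have hone : ∀ i : Fin 5 → ℕ, ∑ u ∈ G.filter (fun u => f11_sz u = i),
      (∏ j, ∏ l ∈ (dn u j).primeFactors, 2 * lw P l (W.al j) / (l : ℝ)) *
        ∏ l ∈ (prs 500 P).filter (fun l => ¬ l ∣ DE univ u), (1 - v1 W P0 univ u l) ≤
      D * (M * Real.log X ^ (a + 1 / 100 * b)) := by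
    intro i
    have hr0 : 0 < Real.log X ^ (a + 1 / 100 * b) := Real.rpow_pos_of_pos hL0 _
    rcases (G.filter (fun u => f11_sz u = i)).eq_empty_or_nonempty with he | ⟨u0, hu0⟩
    · rw [he, Finset.sum_empty]
      positivity
    rw [mem_filter] at hu0
    have hg0 := hG u0 hu0.1
    have hAi : ∀ j, (X : ℝ) ^ (4 * p.ep) ≤ ((2 ^ (i j + 1) : ℕ) : ℝ) := by
      intro j
      have h1 := f11_sz_hi hg0 j
      rw [hu0.2] at h1
      have h2 : (nm (u0 j) : ℝ) < ((2 ^ (i j + 1) : ℕ) : ℝ) := by exact_mod_cast h1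
      calc (X : ℝ) ^ (4 * p.ep) ≤ (X : ℝ) ^ (p.e j) :=
            Real.rpow_le_rpow_of_exponent_le hX1 (hp.e4 j)
        _ ≤ _ := hg0.low j
        _ ≤ _ := h2.le
    have hQ2 : (((P ^ k) ^ 2 : ℕ) : ℝ) ≤ (X : ℝ) ^ p.ep := by
      push_cast
      calc ((P : ℝ) ^ k) ^ 2 ≤ ((X : ℝ) ^ (p.ep / 2)) ^ 2 := pow_le_pow_left₀ (by positivity) hPk 2
        _ = (X : ℝ) ^ p.ep := by
            rw [← Real.rpow_natCast, ← Real.rpow_mul hXpos.le]
            congr 1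
            push_cast
            ring
    have hE : EquiF (Bo (fun j => 2 ^ (i j + 1))) (fun u => u) (Un 5) S ((P : ℝ) ^ k) η := by
      have h1 := hequi (fun j => 2 ^ (i j + 1)) (P ^ k) η S (fun q hq => (hSm q hq).1)
        (Nat.one_le_pow _ _ hP1) ?_ ?_
      · rw [Nat.cast_pow] at h1
        exact h1
      · intro j
        have h2 : (X : ℝ) ^ p.ep ≤ (X : ℝ) ^ (4 * p.ep) :=
          Real.rpow_le_rpow_of_exponent_le hX1 (by linarith)
        have h3 := (hQ2.trans h2).trans (hAi j)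
        exact_mod_cast h3
      · intro j
        have h3 := hAi j
        calc Cb * ((P ^ k : ℕ) : ℝ) ^ 2 ≤ (X : ℝ) ^ p.ep * (X : ℝ) ^ p.ep := by
              apply mul_le_mul a8 _ (by positivity) (by positivity)
              push_cast at hQ2 ⊢
              exact hQ2
          _ = (X : ℝ) ^ (-(2 * p.ep)) * (X : ℝ) ^ (4 * p.ep) := by
              rw [← Real.rpow_add hXpos, ← Real.rpow_add hXpos]; congr 1; ring
          _ ≤ η * ((2 ^ (i j + 1) : ℕ) : ℝ) := mul_le_mul_of_nonneg_left h3 hη0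
    obtain ⟨s1, s2⟩ := hsv (PolyK 5) (Bo (fun j => 2 ^ (i j + 1))) (fun u => u) (Un 5) S P0 P η hP1
      hη0 hη1 hSm (fun q hq => hLoc q (hSm q hq).1 (by have := (hSm q hq).2.1; omega)) hE
    have s3 := hbd P0 P a3 a4 a5 1 one_pos
      (fun q hq h1 => absurd (Nat.dvd_one.1 h1) hq.one_lt.ne')
      (by rw [Nat.cast_one, Real.log_one]; exact hP0pos.le) s2
    have e1 : (-((univ : Finset (Fin 5)).card : ℝ) + ∑ j, W.al j - ∑ i, (1 - W.be i)) = a := by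
      rw [ha, Finset.card_univ, Fintype.card_fin, Finset.sum_add_distrib, Finset.sum_sub_distrib,
        Finset.sum_const, Finset.card_univ, Fintype.card_fin]
      simp only [nsmul_eq_mul]
      push_cast
      ring
    have e2 : (∑ i, (1 - W.be i) - ∑ i, (1 - W.bo i) - ∑ j, W.al j) = b := by
      rw [hb]
      simp only [Finset.sum_sub_distrib]
      ring
    rw [e1, e2] at s3
    have hB : 2 * ∏ q ∈ S, (1 - bd univ univ W P0 q / q + C1 / (q : ℝ) ^ 2) + (P : ℝ) ^ k * η ≤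
        M * Real.log X ^ (a + 1 / 100 * b) := by
      have h1 : 0 ≤ Real.log P ^ a :=
        Real.rpow_nonneg (le_trans (mul_nonneg (half_pos ht).le hL0.le) l1) _
      have h2 : 0 ≤ Real.log P0 ^ b := by
        apply Real.rpow_nonneg
        have := Real.rpow_nonneg hL0.le (1 / 100 : ℝ)
        linarith
      exact f11_B hL0 hC3 (by positivity) (by positivity) h1 h2 r1 r2 rfl s3 hPη hM
    have hfin := f11_one hW hp (P0 := P0) (P := P) (ps := ps) (C2 := C2)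
      (B := 2 * ∏ q ∈ S, (1 - bd univ univ W P0 q / q + C1 / (q : ℝ) ^ 2) + (P : ℝ) ^ k * η)
      hC2 i (G.filter (fun u => f11_sz u = i))
      (fun u hu => ⟨hG u (mem_filter.1 hu).1, (mem_filter.1 hu).2⟩) hps2
      (fun u => (∏ j, ∏ l ∈ (dn u j).primeFactors, 2 * lw P l (W.al j) / (l : ℝ)) *
        ∏ l ∈ (prs 500 P).filter (fun l => ¬ l ∣ DE univ u), (1 - v1 W P0 univ u l))
      (fun u hu => hw1 X a2 P0 P ps hps hps2 a3 a6 u (f11_isP (hG u (mem_filter.1 hu).1))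
        (f11_DE_le hp hκ (by omega) (hG u (mem_filter.1 hu).1)) 1 (Nat.coprime_one_left _)) s1
    exact hfin.trans (mul_le_mul_of_nonneg_left hB hD0)
  -- all tuples
  have hr0 : 0 < Real.log X ^ (a + 1 / 100 * b) := Real.rpow_pos_of_pos hL0 _
  refine (f11_all hp hκ a1 G hG _ (by positivity) hone).trans (le_of_eq ?_)
  have e3 : Real.log X ^ (-5 + ∑ j, (W.al j + W.be j) + 1 / 100 * b) =
      Real.log X ^ 5 * Real.log X ^ (a + 1 / 100 * b) := by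
    rw [← Real.rpow_natCast, ← Real.rpow_add hL0]
    congr 1
    rw [ha]
    push_cast
    ring
  rw [e3]
  ring

theorem usum : type_of% @usum_pr := @usum_pr

end Pool.Agent.PFM
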