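import Pool.Agent.Lib_helper15.PFMF.Diag
import Pool.Agent.Lib_helper18.PENKF.PE1
import Pool.Agent.Lib_helper97.PENT.TopB

/-!
# PENT (MP_892e4c_nt): the diagonal of the pentagon theorem (helper15)
-/

set_option autoImplicit false

namespace Pool.Agent.PENT

/-- DIAGONAL -/
theorem diag : ∃ κ : ℝ, 0 < κ ∧ ∀ p : Par, p.Ok κ →
    ∃ t₁ : ℝ, 0 < t₁ ∧ ∀ t : ℝ, 0 < t → t ≤ t₁ → ∃ C : ℝ, ∃ X₀ : ℕ, ∀ X ≥ X₀,
      ∑ τ ∈ (p.at' t).T X, (p.at' t).w X τ *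
        ((p.at' t).w X τ / (p.at' t).nu X τ.base) ^ (1 / 20 : ℝ) ≤
        C * X * Real.log X ^ (-(5 / 2) * (1 + 1 / 20) : ℝ) :=
  Pool.Agent.PFM.diag_of Pool.Agent.PENK.eqq (fun _ _ _ => mem_T) diag_num

end Pool.Agent.PENT
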