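import Pool.Agent.Lib_helper15.PFM.Defs

/-! PFM block F10 (helper41): the weight of the diagonal, pointwise -/

set_option autoImplicit false

namespace Pool.Agent.PFM

open Finset Pool.Agent.PENT Pool.Agent.PENK

theorem f10_cm (g : ℕ → ℝ) {m N : ℕ} (hm : m ≤ N) :
    cm g m = ∏ l ∈ (range (N + 1)).filter Nat.Prime, g l ^ (m.factorization l) := by
  unfold cm
  refine Finsupp.prod_of_support_subset _ ?_ _ (fun i _ => pow_zero _)
  intro l hl
  rw [Nat.support_factorization, Nat.mem_primeFactors] at hl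
  rw [mem_filter, mem_range]
  have := Nat.le_of_dvd (Nat.pos_of_ne_zero hl.2.2) hl.2.1
  exact ⟨by omega, hl.1⟩

/-- the exponents of `al` -/
noncomputable def f10_ea : Fin 5 → ℝ := ![21 / 10, 41 / 20, 21 / 10, 21 / 10, 41 / 20]

/-- the exponents of `be` -/
noncomputable def f10_eb : Fin 5 → ℝ := ![41 / 20, 41 / 20, 21 / 10, 21 / 10, 21 / 10]

/-- the exponents of `bo` -/
noncomputable def f10_eo : Fin 5 → ℝ := ![1, 1, 21 / 20, 21 / 20, 21 / 20]

theorem f10_e1 : (4 : ℝ) ^ (-(21 / 20) : ℝ) = (2 : ℝ) ^ (-(21 / 10) : ℝ) := by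
  rw [show (4 : ℝ) = (2 : ℝ) ^ (2 : ℝ) by norm_num, ← Real.rpow_mul (by norm_num)]
  norm_num

theorem f10_e2 : (2 : ℝ) ^ (-(1 / 20) : ℝ) / 4 = (2 : ℝ) ^ (-(41 / 20) : ℝ) := by
  rw [show (4 : ℝ) = (2 : ℝ) ^ (2 : ℝ) by norm_num, ← Real.rpow_sub (by norm_num)]
  norm_num

theorem f10_al (j : Fin 5) : Wd.al j = (2 : ℝ) ^ (-f10_ea j) := by
  have h1 := f10_e1
  have h2 := f10_e2
  fin_cases j <;> simp only [Wd, f10_ea] <;> first | exact h1 | exact h2

theorem f10_be (j : Fin 5) : Wd.be j = (2 : ℝ) ^ (-f10_eb j) := by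
  have h1 := f10_e1
  have h2 := f10_e2
  fin_cases j <;> simp only [Wd, f10_eb] <;> first | exact h1 | exact h2

theorem f10_bo (j : Fin 5) : Wd.bo j = (2 : ℝ) ^ (-f10_eo j) := by
  have h3 : (1 / 2 : ℝ) = (2 : ℝ) ^ (-(1 : ℝ)) := by
    rw [Real.rpow_neg (by norm_num), Real.rpow_one]; norm_num
  fin_cases j <;> simp only [Wd, f10_eo] <;> first | exact h3 | rfl

theorem Wd_ok_pr : Wd.Ok := by
  have hA : ∀ x : ℝ, 1 ≤ x → (2 : ℝ) ^ (-x) ≤ 1 / 2 := by
    intro x hx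
    calc (2 : ℝ) ^ (-x) ≤ (2 : ℝ) ^ (-(1 : ℝ)) :=
          Real.rpow_le_rpow_of_exponent_le (by norm_num) (by linarith)
      _ = 1 / 2 := by rw [Real.rpow_neg (by norm_num), Real.rpow_one]; norm_num
  have hea : ∀ j, 1 ≤ f10_ea j := by
    intro j; fin_cases j <;> simp [f10_ea] <;> norm_num
  have heb : ∀ j, 1 ≤ f10_eb j := by
    intro j; fin_cases j <;> simp [f10_eb] <;> norm_num
  have heo : ∀ j, 1 ≤ f10_eo j := by
    intro j; fin_cases j <;> simp [f10_eo] <;> norm_num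
  refine ⟨?_, ?_, ?_, ?_, ?_, ?_⟩
  · intro j; rw [f10_al]; positivity
  · intro j; rw [f10_al]; exact hA _ (hea j)
  · intro j; rw [f10_be]; positivity
  · intro j; rw [f10_be]; have := hA _ (heb j); linarith
  · intro j; rw [f10_bo]; positivity
  · intro j; rw [f10_bo]; have := hA _ (heo j); linarith

/-- powers of `2` -/
theorem f10_pw (x : ℝ) (n : ℕ) : ((2 : ℝ) ^ x) ^ n = (2 : ℝ) ^ (x * n) := by
  rw [← Real.rpow_natCast, ← Real.rpow_mul (by norm_num)]

theorem f10_q_ne {τ : Pol 5} (hτ : τ.Good) (j : Fin 5) : τ.q j ≠ 0 := by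
  intro h0
  have h1 := hτ.edge j
  rw [h0, zero_mul] at h1
  have h2 := hτ.ne j
  have h3 : 0 < ((τ.n j : ℤ) ^ 2 + 1) * τ.d j ^ 2 := by positivity
  omega

theorem f10_y {p : Pool.Agent.PENT.Par} {X : ℕ} {τ : Pol 5} (hτ : p.TS X τ) (j : Fin 5) :
    (τ.q j).natAbs = τ.y j * ((τ.d (j - 1)).natAbs * (τ.d j).natAbs) := by
  have h1 : (τ.d j).natAbs ∣ (τ.q j).natAbs := Int.natAbs_dvd_natAbs.2 (hτ.good.d1 j)
  have h2 : (τ.d (j - 1)).natAbs ∣ (τ.q j).natAbs := by
    have := hτ.good.d2 (j - 1)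
    rw [sub_add_cancel] at this
    exact Int.natAbs_dvd_natAbs.2 this
  have h3 : Nat.Coprime (τ.d (j - 1)).natAbs (τ.d j).natAbs := by
    have h4 := hτ.gp.cop (j - 1) j (by fin_cases j <;> decide)
    exact Int.isCoprime_iff_gcd_eq_one.1 h4
  unfold Pol.y
  exact (Nat.div_mul_cancel (h3.mul_dvd_of_dvd_of_dvd h2 h1)).symm

theorem f10_vq {p : Pool.Agent.PENT.Par} {X : ℕ} {τ : Pol 5} (hτ : p.TS X τ) (j : Fin 5)
    (l : ℕ) : (τ.q j).natAbs.factorization l = (τ.y j).factorization l +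
      ((τ.d (j - 1)).natAbs.factorization l + (τ.d j).natAbs.factorization l) := by
  have h1 := f10_y hτ j
  have h2 : (τ.q j).natAbs ≠ 0 := Int.natAbs_ne_zero.2 (f10_q_ne hτ.good j)
  have h3 : (τ.d (j - 1)).natAbs ≠ 0 := Int.natAbs_ne_zero.2 (hτ.good.ne _)
  have h4 : (τ.d j).natAbs ≠ 0 := Int.natAbs_ne_zero.2 (hτ.good.ne _)
  have h5 : τ.y j ≠ 0 := by
    intro h0; rw [h0, zero_mul] at h1; exact h2 h1
  rw [h1, Nat.factorization_mul h5 (mul_ne_zero h3 h4), Nat.factorization_mul h3 h4]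
  rfl

theorem f10_vn {p : Pool.Agent.PENT.Par} {X : ℕ} {τ : Pol 5} (hτ : p.TS X τ) (l : ℕ) :
    (τ.n 0 ^ 2 + 1).factorization l = (τ.y 0).factorization l + (τ.y 1).factorization l +
      (τ.d 4).natAbs.factorization l + (τ.d 1).natAbs.factorization l := by
  have h1 := congrArg Int.natAbs (hτ.good.edge 0)
  rw [Int.natAbs_mul, Int.natAbs_mul, Int.natAbs_pow] at h1
  have h2 : (((τ.n 0 : ℕ) : ℤ) ^ 2 + 1).natAbs = τ.n 0 ^ 2 + 1 := by
    have : (((τ.n 0 : ℕ) : ℤ) ^ 2 + 1) = ((τ.n 0 ^ 2 + 1 : ℕ) : ℤ) := by push_cast; ring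
    rw [this, Int.natAbs_natCast]
  rw [h2] at h1
  have n0 : τ.n 0 ^ 2 + 1 ≠ 0 := Nat.succ_ne_zero _
  have n1 : (τ.d 0).natAbs ^ 2 ≠ 0 := pow_ne_zero _ (Int.natAbs_ne_zero.2 (hτ.good.ne _))
  have n2 : (τ.q 0).natAbs ≠ 0 := Int.natAbs_ne_zero.2 (f10_q_ne hτ.good 0)
  have n3 : (τ.q (0 + 1)).natAbs ≠ 0 := Int.natAbs_ne_zero.2 (f10_q_ne hτ.good _)
  have h3 := congrArg (fun m : ℕ => m.factorization l) h1
  beta_reduce at h3
  rw [Nat.factorization_mul n0 n1, Nat.factorization_mul n2 n3, Nat.factorization_pow] at h3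
  have h4 := f10_vq hτ 0 l
  have h5 := f10_vq hτ 1 l
  have e1 : (0 : Fin 5) - 1 = 4 := by decide
  have e2 : (1 : Fin 5) - 1 = 0 := by decide
  have e3 : (0 : Fin 5) + 1 = 1 := by decide
  rw [e1] at h4
  rw [e2] at h5
  rw [e3] at h3
  simp only [Finsupp.add_apply, Finsupp.smul_apply, smul_eq_mul] at h3
  rw [h4, h5] at h3
  omega

/-- the local inequality -/
theorem f10_loc {p : Pool.Agent.PENT.Par} {X : ℕ} {τ : Pol 5} (hτ : p.TS X τ) {l : ℕ}
    (hl : l.Prime) :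
    (∏ j, (wd (p.Y X) l ^ ((τ.d j).natAbs.factorization l) *
        wy (PP X) (p.Y X) l ^ ((τ.y j).factorization l))) *
      ((∏ j, (wd (p.Y X) l ^ ((τ.d j).natAbs.factorization l) *
        wy (PP X) (p.Y X) l ^ ((τ.y j).factorization l))) /
        wn (p.Y X) l ^ ((τ.n 0 ^ 2 + 1).factorization l)) ^ (1 / 20 : ℝ) ≤
      if l ∈ prs 2 ⌊p.Y X⌋₊ then
        (if l ∣ DE univ τ.u then ∏ j, (if l ∣ dn τ.u j then Wd.al j else 1)
          else ph Wd ⌊PP X⌋₊ univ τ.u l (bas τ)) else 1 := by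
  have hd0 : ∀ j, (τ.d j).natAbs ≠ 0 := fun j => Int.natAbs_ne_zero.2 (hτ.good.ne j)
  have hdd : ∀ j, dn τ.u j = (τ.d j).natAbs := fun j => rfl
  -- `2` does not divide the `d_j`
  by_cases h2 : l = 2
  · have h3 : ∀ j, (τ.d j).natAbs.factorization l = 0 := by
      intro j
      apply Nat.factorization_eq_zero_of_not_dvd
      intro h4
      have := (hτ.gp.dp j).2 l hl h4
      omega
    rw [if_neg (by rw [h2]; simp [prs])]
    simp only [h3, pow_zero, one_mul]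
    have h5 : wy (PP X) (p.Y X) l = 1 := by unfold wy; rw [if_pos h2]
    have h6 : wn (p.Y X) l = 1 := by unfold wn; rw [if_pos h2]
    rw [h5, h6]
    simp
  by_cases hY : (l : ℝ) ≤ p.Y X
  swap
  · rw [if_neg (by
      intro h3
      rw [prs, mem_filter, mem_Ioc] at h3
      apply hY
      have h4 : (0 : ℝ) ≤ p.Y X := by unfold Pool.Agent.PENT.Par.Y; positivity
      exact (Nat.le_floor_iff h4).1 h3.1.2)]
    have h5 : wd (p.Y X) l = 1 := by unfold wd; rw [if_neg hY]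
    have h6 : wn (p.Y X) l = 1 := by unfold wn; rw [if_neg h2, if_neg hY]
    have h7 : 0 ≤ wy (PP X) (p.Y X) l ∧ wy (PP X) (p.Y X) l ≤ 1 := by
      unfold wy
      split_ifs <;> norm_num
    rw [h5, h6]
    simp only [one_pow, one_mul, div_one]
    have h8 : ∏ j, wy (PP X) (p.Y X) l ^ ((τ.y j).factorization l) ≤ 1 :=
      Finset.prod_le_one (fun j _ => pow_nonneg h7.1 _) (fun j _ => pow_le_one₀ h7.1 h7.2)
    have h9 : 0 ≤ ∏ j, wy (PP X) (p.Y X) l ^ ((τ.y j).factorization l) :=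
      Finset.prod_nonneg (fun j _ => pow_nonneg h7.1 _)
    calc _ ≤ (1 : ℝ) * 1 := by
          apply mul_le_mul h8 (Real.rpow_le_one h9 h8 (by norm_num)) (Real.rpow_nonneg h9 _)
            (by norm_num)
      _ = 1 := one_mul 1
  have hY0 : (0 : ℝ) ≤ p.Y X := (Nat.cast_nonneg l).trans hY
  have hl2 : 2 < l := lt_of_le_of_ne hl.two_le (Ne.symm h2)
  have hmem : l ∈ prs 2 ⌊p.Y X⌋₊ := by
    rw [prs, mem_filter, mem_Ioc]
    exact ⟨⟨hl2, (Nat.le_floor_iff hY0).2 hY⟩, hl⟩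
  rw [if_pos hmem]
  -- the exponents
  obtain ⟨g, hg, hg1, hg2⟩ : ∃ g : ℝ, wy (PP X) (p.Y X) l = (2 : ℝ) ^ (-g) ∧
      ((l : ℝ) ≤ PP X → g = 1) ∧ (¬ (l : ℝ) ≤ PP X → g = 2) := by
    by_cases hP : (l : ℝ) ≤ PP X
    · refine ⟨1, ?_, fun _ => rfl, fun h => absurd hP h⟩
      unfold wy
      rw [if_neg h2, if_pos hP, Real.rpow_neg (by norm_num), Real.rpow_one]; norm_num
    · refine ⟨2, ?_, fun h => absurd h hP, fun _ => rfl⟩
      unfold wy
      rw [if_neg h2, if_neg hP, if_pos hY, Real.rpow_neg (by norm_num)]; norm_num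
  have hd : wd (p.Y X) l = (2 : ℝ) ^ (-(2 : ℝ)) := by
    unfold wd
    rw [if_pos hY, Real.rpow_neg (by norm_num)]; norm_num
  have hn : wn (p.Y X) l = (2 : ℝ) ^ (-(1 : ℝ)) := by
    unfold wn
    rw [if_neg h2, if_pos hY, Real.rpow_neg (by norm_num), Real.rpow_one]; norm_num
  set vd : Fin 5 → ℕ := fun j => (τ.d j).natAbs.factorization l with hvd
  set vy : Fin 5 → ℕ := fun j => (τ.y j).factorization l with hvy
  have hvn := f10_vn hτ l
  set vn : ℕ := (τ.n 0 ^ 2 + 1).factorization l with hvnd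
  have hvn' : vn = vy 0 + vy 1 + vd 4 + vd 1 := hvn
  rw [hg, hd, hn]
  have e1 : ∏ j, (((2 : ℝ) ^ (-(2 : ℝ))) ^ (vd j) * ((2 : ℝ) ^ (-g)) ^ (vy j)) =
      (2 : ℝ) ^ (∑ j, (-(2 : ℝ) * (vd j : ℝ) + -g * (vy j : ℝ))) := by
    rw [Real.rpow_sum_of_pos (by norm_num)]
    apply Finset.prod_congr rfl
    intro j _
    rw [f10_pw, f10_pw, ← Real.rpow_add (by norm_num)]
  change (∏ j, (((2 : ℝ) ^ (-(2 : ℝ))) ^ (vd j) * ((2 : ℝ) ^ (-g)) ^ (vy j))) *
    ((∏ j, (((2 : ℝ) ^ (-(2 : ℝ))) ^ (vd j) * ((2 : ℝ) ^ (-g)) ^ (vy j))) /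
      ((2 : ℝ) ^ (-(1 : ℝ))) ^ vn) ^ (1 / 20 : ℝ) ≤ _
  rw [e1, f10_pw, ← Real.rpow_sub (by norm_num), ← Real.rpow_mul (by norm_num),
    ← Real.rpow_add (by norm_num)]
  by_cases hD : l ∣ DE univ τ.u
  · rw [if_pos hD]
    obtain ⟨j, _, hj⟩ := (Prime.dvd_finsetProd_iff hl.prime _).1 hD
    have hone : vd j = 1 := by
      have h3 : Squarefree (τ.d j).natAbs := (hτ.gp.dp j).1
      have h4 : vd j ≤ 1 := (Nat.squarefree_iff_factorization_le_one (hd0 j)).1 h3 l
      have h5 : 0 < vd j := hl.factorization_pos_of_dvd (hd0 j) hj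
      omega
    have hoth : ∀ i, i ≠ j → ¬ l ∣ dn τ.u i := by
      intro i hi h3
      have h4 := hτ.gp.cop i j hi
      have h5 : Nat.Coprime (τ.d i).natAbs (τ.d j).natAbs := by
        rw [Int.isCoprime_iff_gcd_eq_one] at h4
        exact h4
      have h6 : l ∣ Nat.gcd (τ.d i).natAbs (τ.d j).natAbs := Nat.dvd_gcd h3 hj
      have h7 : Nat.gcd (τ.d i).natAbs (τ.d j).natAbs = 1 := h5
      rw [h7] at h6
      exact hl.one_lt.ne' (Nat.dvd_one.1 h6)
    have hz : ∀ i, i ≠ j → vd i = 0 := fun i hi =>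
      Nat.factorization_eq_zero_of_not_dvd (hoth i hi)
    have hgt : ¬ (l : ℝ) ≤ PP X := not_le.2 ((hτ.gp.dp j).2 l hl hj).2
    have hg' := hg2 hgt
    have e2 : ∏ i, (if l ∣ dn τ.u i then Wd.al i else 1) = (2 : ℝ) ^ (-f10_ea j) := by
      rw [Finset.prod_eq_single j (fun i _ hi => if_neg (hoth i hi))
        (fun h => absurd (mem_univ j) h), if_pos hj, f10_al]
    rw [e2]
    apply Real.rpow_le_rpow_of_exponent_le (by norm_num)
    rw [Fin.sum_univ_five, hg', hvn']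
    have c : ∀ i, (0 : ℝ) ≤ vy i := fun i => Nat.cast_nonneg _
    have c0 := c 0
    have c1 := c 1
    have c2 := c 2
    have c3 := c 3
    have c4 := c 4
    push_cast
    fin_cases j
    · have a1 := hz 1 (by decide)
      have a2 := hz 2 (by decide)
      have a3 := hz 3 (by decide)
      have a4 := hz 4 (by decide)
      have a0 : vd 0 = 1 := hone
      rw [a0, a1, a2, a3, a4]
      simp [f10_ea]
      linarith
    · have a1 := hz 0 (by decide)
      have a2 := hz 2 (by decide)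
      have a3 := hz 3 (by decide)
      have a4 := hz 4 (by decide)
      have a0 : vd 1 = 1 := hone
      rw [a0, a1, a2, a3, a4]
      simp [f10_ea]
      linarith
    · have a1 := hz 0 (by decide)
      have a2 := hz 1 (by decide)
      have a3 := hz 3 (by decide)
      have a4 := hz 4 (by decide)
      have a0 : vd 2 = 1 := hone
      rw [a0, a1, a2, a3, a4]
      simp [f10_ea]
      linarith
    · have a1 := hz 0 (by decide)
      have a2 := hz 1 (by decide)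
      have a3 := hz 2 (by decide)
      have a4 := hz 4 (by decide)
      have a0 : vd 3 = 1 := hone
      rw [a0, a1, a2, a3, a4]
      simp [f10_ea]
      linarith
    · have a1 := hz 0 (by decide)
      have a2 := hz 1 (by decide)
      have a3 := hz 2 (by decide)
      have a4 := hz 3 (by decide)
      have a0 : vd 4 = 1 := hone
      rw [a0, a1, a2, a3, a4]
      simp [f10_ea]
      linarith
  · rw [if_neg hD]
    have hnd : ∀ i, ¬ l ∣ dn τ.u i := fun i h3 =>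
      hD (h3.trans (Finset.dvd_prod_of_mem _ (mem_univ i)))
    have hz : ∀ i, vd i = 0 := fun i => Nat.factorization_eq_zero_of_not_dvd (hnd i)
    -- the exponents of the vertices
    obtain ⟨eg, heg, heg2⟩ : ∃ eg : Fin 5 → ℝ, (∀ i, Wd.gi ⌊PP X⌋₊ l i = (2 : ℝ) ^ (-eg i)) ∧
        (∀ i, eg i = if i = 0 ∨ i = 1 then (21 / 20) * g - 1 / 20 else (21 / 20) * g) := by
      have hP0 : (0 : ℝ) ≤ PP X := by unfold PP; positivity
      by_cases hP : (l : ℝ) ≤ PP X
      · refine ⟨f10_eo, fun i => ?_, fun i => ?_⟩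
        · unfold Wts.gi
          rw [if_pos ((Nat.le_floor_iff hP0).2 hP), f10_bo]
        · rw [hg1 hP]
          fin_cases i <;> simp [f10_eo] <;> norm_num
      · refine ⟨f10_eb, fun i => ?_, fun i => ?_⟩
        · unfold Wts.gi
          rw [if_neg (fun h3 => hP ((Nat.le_floor_iff hP0).1 h3)), f10_be]
        · rw [hg2 hP]
          fin_cases i <;> simp [f10_eb] <;> norm_num
    have hq : ∀ i, ((l : ℤ) ∣ Rf (bas τ) (τ.u i) ↔ 0 < vy i) := by
      intro i
      have h3 : (τ.q i).natAbs ≠ 0 := Int.natAbs_ne_zero.2 (f10_q_ne hτ.good i)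
      have h4 := f10_vq hτ i l
      have h5 : (τ.q i).natAbs.factorization l = vy i := by
        rw [h4]
        have a1 : (τ.d (i - 1)).natAbs.factorization l = 0 := hz (i - 1)
        have a2 : (τ.d i).natAbs.factorization l = 0 := hz i
        rw [a1, a2]
        exact Nat.add_zero (vy i)
      have h6 : Rf (bas τ) (τ.u i) = τ.q i := rfl
      rw [h6, Int.natCast_dvd, ← h5]
      constructor
      · intro h7
        exact hl.factorization_pos_of_dvd h3 h7
      · intro h7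
        by_contra h8
        rw [Nat.factorization_eq_zero_of_not_dvd h8] at h7
        exact lt_irrefl _ h7
    have e2 : ph Wd ⌊PP X⌋₊ univ τ.u l (bas τ) =
        (2 : ℝ) ^ (∑ i, (if 0 < vy i then -eg i else 0)) := by
      unfold ph
      rw [Real.rpow_sum_of_pos (by norm_num)]
      apply Finset.prod_congr rfl
      intro i _
      unfold ind
      by_cases h3 : 0 < vy i
      · rw [if_pos ((hq i).2 h3), if_pos h3, heg]
      · rw [if_neg (fun h4 => h3 ((hq i).1 h4)), if_neg h3, Real.rpow_zero]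
    rw [e2]
    apply Real.rpow_le_rpow_of_exponent_le (by norm_num)
    have hg0 : 1 ≤ g := by
      by_cases hP : (l : ℝ) ≤ PP X
      · rw [hg1 hP]
      · rw [hg2 hP]; norm_num
    have key : ∀ i, (21 / 20) * g * (vy i : ℝ) - (if i = 0 ∨ i = 1 then (vy i : ℝ) / 20 else 0) ≥
        -(if 0 < vy i then -eg i else 0) := by
      intro i
      by_cases h3 : 0 < vy i
      · rw [if_pos h3, heg2]
        have h4 : (1 : ℝ) ≤ vy i := by exact_mod_cast h3
        split_ifs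
        · nlinarith
        · nlinarith
      · rw [if_neg h3]
        have h4 : vy i = 0 := by omega
        rw [h4]
        split_ifs <;> simp
    have k0 := key 0
    have k1 := key 1
    have k2 := key 2
    have k3 := key 3
    have k4 := key 4
    rw [Fin.sum_univ_five, Fin.sum_univ_five, hvn', hz 0, hz 1, hz 2, hz 3, hz 4]
    rw [if_pos (show ((0 : Fin 5) = 0 ∨ (0 : Fin 5) = 1) by decide)] at k0
    rw [if_pos (show ((1 : Fin 5) = 0 ∨ (1 : Fin 5) = 1) by decide)] at k1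
    rw [if_neg (show ¬ ((2 : Fin 5) = 0 ∨ (2 : Fin 5) = 1) by decide)] at k2
    rw [if_neg (show ¬ ((3 : Fin 5) = 0 ∨ (3 : Fin 5) = 1) by decide)] at k3
    rw [if_neg (show ¬ ((4 : Fin 5) = 0 ∨ (4 : Fin 5) = 1) by decide)] at k4
    push_cast
    ring_nf at k0 k1 k2 k3 k4 ⊢
    linarith

theorem diag_ptw_pr {p : Pool.Agent.PENT.Par} {κ : ℝ} (h : p.Ok κ) {X : ℕ} (hX : 2 ≤ X)
    {τ : Pol 5} (hτ : p.TS X τ) :
    p.w X τ * (p.w X τ / p.nu X τ.base) ^ (1 / 20 : ℝ) ≤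
      W1 Wd ⌊PP X⌋₊ ⌊p.Y X⌋₊ univ univ τ.u (bas τ) := by
  set N : ℕ := (∑ j, (τ.d j).natAbs) + (∑ j, τ.y j) + (τ.n 0 ^ 2 + 1) + ⌊p.Y X⌋₊ with hN
  have hNd : ∀ j, (τ.d j).natAbs ≤ N := by
    intro j
    have := Finset.single_le_sum (f := fun j => (τ.d j).natAbs) (fun j _ => Nat.zero_le _)
      (mem_univ j)
    beta_reduce at this
    omega
  have hNy : ∀ j, τ.y j ≤ N := by
    intro j
    have := Finset.single_le_sum (f := fun j => τ.y j) (fun j _ => Nat.zero_le _) (mem_univ j)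
    beta_reduce at this
    omega
  have hNn : τ.n 0 ^ 2 + 1 ≤ N := by omega
  set T : Finset ℕ := (range (N + 1)).filter Nat.Prime with hT
  set t : ℕ → ℝ := fun l => ∏ j, (wd (p.Y X) l ^ ((τ.d j).natAbs.factorization l) *
        wy (PP X) (p.Y X) l ^ ((τ.y j).factorization l)) with ht
  have ht0 : ∀ l, 0 ≤ t l := by
    intro l
    apply Finset.prod_nonneg
    intro j _
    apply mul_nonneg <;> apply pow_nonneg
    · unfold wd; split_ifs <;> norm_num
    · unfold wy; split_ifs <;> norm_num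
  have hn0 : ∀ l, 0 ≤ wn (p.Y X) l ^ ((τ.n 0 ^ 2 + 1).factorization l) := by
    intro l
    apply pow_nonneg
    unfold wn; split_ifs <;> norm_num
  have e1 : p.w X τ = ∏ l ∈ T, t l := by
    unfold Pool.Agent.PENT.Par.w
    rw [ht]
    simp only []
    rw [Finset.prod_comm]
    apply Finset.prod_congr rfl
    intro j _
    rw [f10_cm _ (hNd j), f10_cm _ (hNy j), ← Finset.prod_mul_distrib]
  have e2 : p.nu X τ.base = ∏ l ∈ T, wn (p.Y X) l ^ ((τ.n 0 ^ 2 + 1).factorization l) := by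
    unfold Pool.Agent.PENT.Par.nu
    exact f10_cm _ hNn
  have e3 : W1 Wd ⌊PP X⌋₊ ⌊p.Y X⌋₊ univ univ τ.u (bas τ) = ∏ l ∈ T,
      if l ∈ prs 2 ⌊p.Y X⌋₊ then
        (if l ∣ DE univ τ.u then ∏ j, (if l ∣ dn τ.u j then Wd.al j else 1)
          else ph Wd ⌊PP X⌋₊ univ τ.u l (bas τ)) else 1 := by
    unfold W1
    rw [Finset.prod_ite_mem]
    apply Finset.prod_congr _ (fun _ _ => rfl)
    symm
    apply Finset.inter_eq_right.2
    intro l hl
    rw [prs, mem_filter, mem_Ioc] at hl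
    rw [hT, mem_filter, mem_range]
    exact ⟨by omega, hl.2⟩
  rw [e1, e2, e3, ← Finset.prod_div_distrib,
    ← Real.finsetProd_rpow T _ (fun l _ => div_nonneg (ht0 l) (hn0 l)), ← Finset.prod_mul_distrib]
  apply Finset.prod_le_prod
  · intro l _
    exact mul_nonneg (ht0 l) (Real.rpow_nonneg (div_nonneg (ht0 l) (hn0 l)) _)
  · intro l hl
    exact f10_loc hτ (mem_filter.1 hl).2

theorem Wd_ok : type_of% @Wd_ok_pr := @Wd_ok_pr

theorem diag_ptw : type_of% @diag_ptw_pr := @diag_ptw_pr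

end Pool.Agent.PFM
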