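import Pool.Agent.Lib_helper15.PFM.Poly
import Pool.Agent.Lib_helper15.PFMF.F5
import Pool.Agent.Lib_helper15.PFMF.F10
import Pool.Agent.Lib_helper15.PFMF.F11

/-!
# PENT (MP_892e4c_nt): the diagonal of the pentagon theorem (helper15)
-/

set_option autoImplicit false

namespace Pool.Agent.PFM

open Finset Filter Pool.Agent.PENT Pool.Agent.PENK

/-- products over the primes of `D(u)` of `2/(p+1)` and the edge weights -/
theorem edge_prod_le {P0 P : ℕ} {u : PolyK 5} (h : IsP univ P0 u) (W : Wts 5) (hW : W.Ok) :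
    (∏ j, ∏ l ∈ (dn u j).primeFactors, lw P l (W.al j)) *
      (∏ p ∈ (DE univ u).primeFactors, 2 / ((p : ℝ) + 1)) ≤
      ∏ j, ∏ l ∈ (dn u j).primeFactors, 2 * lw P l (W.al j) / (l : ℝ) := by
  rw [prod_DE h, ← Finset.prod_mul_distrib]
  have lw0 : ∀ (l : ℕ) (j : Fin 5), 0 ≤ lw P l (W.al j) := by
    intro l j
    unfold lw
    split_ifs
    · exact hW.al0 j
    · exact zero_le_one
  apply Finset.prod_le_prod
  · intro j _
    apply mul_nonneg
    · exact Finset.prod_nonneg (fun l _ => lw0 l j)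
    · exact Finset.prod_nonneg (fun l _ => by positivity)
  · intro j _
    rw [← Finset.prod_mul_distrib]
    apply Finset.prod_le_prod
    · intro l _
      exact mul_nonneg (lw0 l j) (by positivity)
    · intro l hl
      have hl0 : (0 : ℝ) < l := by
        exact_mod_cast (Nat.prime_of_mem_primeFactors hl).pos
      rw [mul_div_assoc', mul_comm (lw P l (W.al j)) 2]
      apply div_le_div_of_nonneg_left _ hl0 (by linarith)
      exact mul_nonneg (by norm_num) (lw0 l j)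

/-- sizes of the polygons of the family -/
theorem gp_sizes {p : Pool.Agent.PENT.Par} {κ : ℝ} (hp : p.Ok κ) (hκ : κ ≤ 1 / 100) {X : ℕ}
    (hX : 2 ≤ X) {u : PolyK 5} (h : p.GP X u) :
    (∀ j, (u j).1 ∈ Icc (1 : ℤ) ⌊(X : ℝ) ^ (2 * κ)⌋ ∧ (u j).2 ∈ Icc (1 : ℤ) ⌊(X : ℝ) ^ (2 * κ)⌋) ∧
      (DE univ u : ℝ) ≤ (X : ℝ) ^ (20 * κ) := by
  have hX1 : (1 : ℝ) ≤ X := by exact_mod_cast (by omega : 1 ≤ X)
  have hX0 : (0 : ℝ) < X := by linarith
  have hup : ∀ j, (nm (u j) : ℝ) ≤ (X : ℝ) ^ (2 * κ) := by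
    intro j
    refine (h.upp j).trans (Real.rpow_le_rpow_of_exponent_le hX1 ?_)
    have := hp.e4 j
    have := hp.ek j
    have := hp.ep0
    linarith
  have hc : ∀ j, ((u j).1 : ℝ) ≤ (X : ℝ) ^ (2 * κ) ∧ ((u j).2 : ℝ) ≤ (X : ℝ) ^ (2 * κ) := by
    intro j
    have h1 := hup j
    have h2 : (0 : ℝ) < (u j).1 := by exact_mod_cast h.pos1 j
    have h3 : (0 : ℝ) < (u j).2 := by exact_mod_cast h.pos2 j
    unfold nm at h1
    push_cast at h1
    constructor <;> linarith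
  have hdn : ∀ j, (dn u j : ℝ) ≤ (X : ℝ) ^ (4 * κ) := by
    intro j
    unfold dn dl dt
    rw [Nat.cast_natAbs]
    push_cast
    obtain ⟨a1, a2⟩ := hc j
    obtain ⟨b1, b2⟩ := hc (j + 1)
    have h2 : (0 : ℝ) < (u j).1 := by exact_mod_cast h.pos1 j
    have h3 : (0 : ℝ) < (u j).2 := by exact_mod_cast h.pos2 j
    have h4 : (0 : ℝ) < (u (j + 1)).1 := by exact_mod_cast h.pos1 (j + 1)
    have h5 : (0 : ℝ) < (u (j + 1)).2 := by exact_mod_cast h.pos2 (j + 1)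
    have e : (X : ℝ) ^ (4 * κ) = (X : ℝ) ^ (2 * κ) * (X : ℝ) ^ (2 * κ) := by
      rw [← Real.rpow_add hX0]; congr 1; ring
    rw [e, abs_le]
    have m1 := mul_le_mul a1 b2 h5.le (by positivity)
    have m2 := mul_le_mul a2 b1 h4.le (by positivity)
    have m3 := mul_pos h2 h5
    have m4 := mul_pos h3 h4
    constructor <;> linarith
  refine ⟨fun j => ⟨?_, ?_⟩, ?_⟩
  · rw [Finset.mem_Icc]
    exact ⟨h.pos1 j, Int.le_floor.2 (hc j).1⟩
  · rw [Finset.mem_Icc]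
    exact ⟨h.pos2 j, Int.le_floor.2 (hc j).2⟩
  · unfold DE
    rw [Nat.cast_prod]
    calc ∏ j, (dn u j : ℝ) ≤ ∏ _j : Fin 5, (X : ℝ) ^ (4 * κ) :=
          Finset.prod_le_prod (fun j _ => Nat.cast_nonneg _) (fun j _ => hdn j)
      _ = (X : ℝ) ^ (20 * κ) := by
          rw [Finset.prod_const, Finset.card_univ, Fintype.card_fin, ← Real.rpow_natCast,
            ← Real.rpow_mul hX0.le]
          congr 1; push_cast; ring

/-- the number of polygons -/
theorem gp_card {p : Pool.Agent.PENT.Par} {κ : ℝ} (hp : p.Ok κ) (hκ : κ ≤ 1 / 100) {X : ℕ}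
    (hX : 2 ≤ X) (G : Finset (PolyK 5)) (hG : ∀ u ∈ G, p.GP X u) :
    (G.card : ℝ) ≤ (X : ℝ) ^ (20 * κ) := by
  classical
  have hX1 : (1 : ℝ) ≤ X := by exact_mod_cast (by omega : 1 ≤ X)
  have hX0 : (0 : ℝ) < X := by linarith
  set N : ℤ := ⌊(X : ℝ) ^ (2 * κ)⌋ with hN
  have hsub : G ⊆ Fintype.piFinset (fun _ : Fin 5 => (Icc (1 : ℤ) N) ×ˢ (Icc (1 : ℤ) N)) := by
    intro u hu
    rw [Fintype.mem_piFinset]
    intro j
    rw [Finset.mem_product]
    exact (gp_sizes hp hκ hX (hG u hu)).1 j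
  have h1 := Finset.card_le_card hsub
  rw [Fintype.card_piFinset] at h1
  simp only [Finset.card_product, Int.card_Icc, Finset.prod_const, Finset.card_univ,
    Fintype.card_fin] at h1
  have hN0 : 0 ≤ N := Int.floor_nonneg.2 (by positivity)
  have h2 : (((N + 1 - 1).toNat : ℕ) : ℝ) ≤ (X : ℝ) ^ (2 * κ) := by
    have e : (((N + 1 - 1).toNat : ℕ) : ℤ) = N := by
      rw [add_sub_cancel_right]; exact Int.toNat_of_nonneg hN0
    have e' : (((N + 1 - 1).toNat : ℕ) : ℝ) = (N : ℝ) := by exact_mod_cast congrArg (Int.cast (R := ℝ)) e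
    rw [e']
    exact Int.floor_le _
  calc (G.card : ℝ) ≤ (((N + 1 - 1).toNat * (N + 1 - 1).toNat) ^ 5 : ℕ) := by exact_mod_cast h1
    _ = ((((N + 1 - 1).toNat : ℕ) : ℝ)) ^ 10 := by push_cast; ring
    _ ≤ ((X : ℝ) ^ (2 * κ)) ^ 10 := pow_le_pow_left₀ (Nat.cast_nonneg _) h2 10
    _ = (X : ℝ) ^ (20 * κ) := by
        rw [← Real.rpow_natCast, ← Real.rpow_mul hX0.le]; congr 1; push_cast; ring

/-- DIAGONAL -/
theorem diag_of (hEQ : ∃ δ : ℝ, 0 < δ ∧ δ ≤ 1 / 10 ∧ EQQ δ)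
    (hT : ∀ (p : Pool.Agent.PENT.Par) (X : ℕ) (τ : Pol 5), τ ∈ p.T X ↔ p.TS X τ)
    (hnum : -5 + (2 : ℝ) ^ (-(1 / 20) : ℝ) + 3 / 2 * (4 : ℝ) ^ (-(1 / 20) : ℝ) +
      1 / 100 * (1 + (2 : ℝ) ^ (-(1 / 20) : ℝ) / 2 - 3 / 2 * (4 : ℝ) ^ (-(1 / 20) : ℝ)) ≤
      -(5 / 2) * (1 + 1 / 20)) :
    ∃ κ : ℝ, 0 < κ ∧ ∀ p : Pool.Agent.PENT.Par, p.Ok κ →
    ∃ t₁ : ℝ, 0 < t₁ ∧ ∀ t : ℝ, 0 < t → t ≤ t₁ → ∃ C : ℝ, ∃ X₀ : ℕ, ∀ X ≥ X₀,
      ∑ τ ∈ (p.at' t).T X, (p.at' t).w X τ *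
        ((p.at' t).w X τ / (p.at' t).nu X τ.base) ^ (1 / 20 : ℝ) ≤
        C * X * Real.log X ^ (-(5 / 2) * (1 + 1 / 20) : ℝ) := by
  classical
  obtain ⟨δ, hδ0, hδ1, hE⟩ := hEQ
  set κ : ℝ := δ / 100 with hκd
  have hκ0 : 0 < κ := by positivity
  have hκ1 : κ ≤ 1 / 100 := by rw [hκd]; linarith
  refine ⟨κ, hκ0, fun p hp => ?_⟩
  obtain ⟨τ₀, hτ₀, C1, x₀, hC1, hx₀, H1⟩ :=
    rsum1 (K := 5) univ univ Wd Wd_ok hδ0 hδ1 hE 2 (by norm_num)
  obtain ⟨t₂, ht₂, H2⟩ := usum Wd Wd_ok p hp hκ1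
  refine ⟨min τ₀ t₂, lt_min hτ₀ ht₂, fun t ht ht' => ?_⟩
  obtain ⟨C2, hC2, X₂, H3⟩ := H2 t ht (ht'.trans (min_le_right _ _))
  -- conditions for large `X`
  have hlog : Tendsto (fun X : ℕ => Real.log (X : ℝ)) atTop atTop :=
    Real.tendsto_log_atTop.comp tendsto_natCast_atTop_atTop
  have ev1 : ∀ᶠ X : ℕ in atTop, 3 ≤ PP X := by
    have t4 : Tendsto (fun X : ℕ => Real.exp (Real.log (X : ℝ) ^ (1 / 100 : ℝ))) atTop atTop :=
      Real.tendsto_exp_atTop.comp ((tendsto_rpow_atTop (by norm_num)).comp hlog)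
    exact t4.eventually_ge_atTop 3
  have ev2 : ∀ᶠ X : ℕ in atTop, Real.log (X : ℝ) ^ 3 ≤ (X : ℝ) ^ (δ / 4) := by
    have h1 := (isLittleO_log_rpow_atTop (r := δ / 12) (by positivity)).bound (c := 1) one_pos
    have h2 := tendsto_natCast_atTop_atTop (R := ℝ) |>.eventually h1
    filter_upwards [h2, hlog.eventually_ge_atTop 1,
      (tendsto_natCast_atTop_atTop (R := ℝ)).eventually_ge_atTop 1] with X h3 h4 h5
    rw [one_mul, Real.norm_of_nonneg (by linarith),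
      Real.norm_of_nonneg (Real.rpow_nonneg (by linarith) _)] at h3
    calc Real.log (X : ℝ) ^ 3 ≤ ((X : ℝ) ^ (δ / 12)) ^ 3 := pow_le_pow_left₀ (by linarith) h3 3
      _ = (X : ℝ) ^ (δ / 4) := by
          rw [← Real.rpow_natCast, ← Real.rpow_mul (by linarith)]; congr 1; push_cast; ring
  obtain ⟨X₃, hX₃⟩ := eventually_atTop.1 (ev1.and (ev2.and ((hlog.eventually_ge_atTop 1).and
    (((tendsto_natCast_atTop_atTop (R := ℝ)).eventually_ge_atTop x₀).and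
      ((tendsto_rpow_atTop ht).comp (tendsto_natCast_atTop_atTop (R := ℝ))
        |>.eventually_ge_atTop 1)))))
  refine ⟨C1 * C2 + 1, X₂ + X₃ + 3, fun X hX => ?_⟩
  obtain ⟨a1, a2, a3, a4, a5⟩ := hX₃ X (by omega)
  have hX2 : 2 ≤ X := by omega
  have hXr : (2 : ℝ) ≤ X := by exact_mod_cast hX2
  have hX0 : (0 : ℝ) < X := by linarith
  have hX1 : (1 : ℝ) ≤ X := by linarith
  set P0 : ℕ := ⌊PP X⌋₊ with hP0
  set P : ℕ := ⌊(X : ℝ) ^ t⌋₊ with hP
  have hP02 : 2 ≤ P0 := by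
    rw [hP0]; exact Nat.le_floor (by push_cast; linarith)
  have hP1 : 1 ≤ P := Nat.le_floor (by push_cast; exact a5)
  have hPX : (P : ℝ) ≤ (X : ℝ) ^ τ₀ :=
    (Nat.floor_le (by positivity)).trans
      (Real.rpow_le_rpow_of_exponent_le hX1 (ht'.trans (min_le_left _ _)))
  set q := p.at' t with hq
  -- the polygons
  set G : Finset (PolyK 5) := (q.T X).image (fun τ => τ.u) with hG
  have hGP : ∀ u ∈ G, p.GP X u := by
    intro u hu
    obtain ⟨τ, hτ, rfl⟩ := Finset.mem_image.1 hu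
    have := ((hT q X τ).1 hτ).gp
    exact ⟨this.pos1, this.pos2, this.low, this.upp, this.sep, this.dp, this.cop, this.nice⟩
  have hOkq : q.Ok κ := ⟨hp.ep0, hp.e4, hp.gap, hp.ek, hp.c10, hp.c11, hp.sg1⟩
  -- pointwise
  have s1 : ∑ τ ∈ q.T X, q.w X τ * (q.w X τ / q.nu X τ.base) ^ (1 / 20 : ℝ) ≤
      ∑ τ ∈ q.T X, W1 Wd P0 P univ univ τ.u (bas τ) := by
    apply Finset.sum_le_sum
    intro τ hτ
    exact diag_ptw hOkq hX2 ((hT q X τ).1 hτ)
  refine s1.trans ?_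
  -- fibres
  have s2 : ∑ τ ∈ q.T X, W1 Wd P0 P univ univ τ.u (bas τ) =
      ∑ u ∈ G, ∑ τ ∈ (q.T X).filter (fun τ => τ.u = u), W1 Wd P0 P univ univ τ.u (bas τ) :=
    (Finset.sum_fiberwise_of_maps_to (fun τ hτ => Finset.mem_image_of_mem _ hτ) _).symm
  rw [s2]
  have s3 : ∀ u ∈ G, ∑ τ ∈ (q.T X).filter (fun τ => τ.u = u), W1 Wd P0 P univ univ τ.u (bas τ) ≤
      C1 * X * ((∏ j, ∏ l ∈ (dn u j).primeFactors, 2 * lw P l (Wd.al j) / (l : ℝ)) *
        ∏ l ∈ (prs 500 P).filter (fun l => ¬ l ∣ DE univ u), (1 - v1 Wd P0 univ u l)) +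
        (X : ℝ) ^ (1 - δ / 2) := by
    intro u hu
    have hgp := hGP u hu
    have hisP := isP_of_gp hgp
    have hsz := gp_sizes hp hκ1 hX2 hgp
    set S : Finset Bas := ((q.T X).filter (fun τ => τ.u = u)).image bas with hS
    have e1 : ∑ τ ∈ (q.T X).filter (fun τ => τ.u = u), W1 Wd P0 P univ univ τ.u (bas τ) =
        ∑ R ∈ S, W1 Wd P0 P univ univ u R := by
      rw [hS, Finset.sum_image]
      · apply Finset.sum_congr rfl
        intro τ hτ
        rw [(Finset.mem_filter.1 hτ).2]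
      · intro τ hτ τ' hτ' he
        have h1 := (Finset.mem_filter.1 hτ).2
        have h2 := (Finset.mem_filter.1 hτ').2
        obtain ⟨a, b, c, v⟩ := τ
        obtain ⟨a', b', c', v'⟩ := τ'
        simp only [bas, Prod.mk.injEq] at he h1 h2
        obtain ⟨rfl, rfl, rfl⟩ := he
        rw [h1, h2]
    rw [e1]
    have e2 : ∑ R ∈ S, W1 Wd P0 P univ univ u R =
        (∏ j, ∏ l ∈ (dn u j).primeFactors, lw P l (Wd.al j)) *
          ∑ R ∈ S, ∏ p ∈ (prs 2 P).filter (fun p => ¬ p ∣ DE univ u), ph Wd P0 univ u p R := by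
      rw [Finset.mul_sum]
      apply Finset.sum_congr rfl
      intro R _
      exact W1_split hP02 hisP Wd R
    rw [e2]
    have hDE : (DE univ u : ℝ) ≤ (X : ℝ) ^ (δ / 2) :=
      hsz.2.trans (Real.rpow_le_rpow_of_exponent_le hX1 (by rw [hκd]; linarith))
    have h5 := H1 X a4 P0 P hP02 hP1 hPX u hisP hDE S (by
      intro R hR
      obtain ⟨τ, hτ, rfl⟩ := Finset.mem_image.1 hR
      obtain ⟨hτ1, hτ2⟩ := Finset.mem_filter.1 hτ
      have hts := (hT q X τ).1 hτ1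
      refine ⟨hts.good.disc, ?_, ?_, ?_, ?_⟩
      · have := hts.ha1
        show (X : ℝ) < ((τ.a : ℤ) : ℝ)
        exact_mod_cast this
      · have := hts.ha2
        show ((τ.a : ℤ) : ℝ) ≤ 2 * X
        exact_mod_cast this
      · show |((τ.b : ℤ) : ℝ)| ≤ 2 * X
        have h6 := hts.hb1
        have h7 := hts.hb2
        have h8 : (X : ℝ) < ((τ.b : ℤ) : ℝ) := by exact_mod_cast h6
        have h9 : ((τ.b : ℤ) : ℝ) ≤ 2 * X := by exact_mod_cast h7
        rw [abs_le]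
        constructor <;> linarith
      · intro j _
        rw [← hτ2]
        exact hts.good.d1 j)
    have hlw0 : 0 ≤ ∏ j, ∏ l ∈ (dn u j).primeFactors, lw P l (Wd.al j) := by
      apply Finset.prod_nonneg; intro j _
      apply Finset.prod_nonneg; intro l _
      unfold lw; split_ifs
      · exact Wd_ok.al0 j
      · exact zero_le_one
    have hlw1 : ∏ j, ∏ l ∈ (dn u j).primeFactors, lw P l (Wd.al j) ≤ 1 := by
      apply Finset.prod_le_one
      · intro j _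
        apply Finset.prod_nonneg; intro l _
        unfold lw; split_ifs
        · exact Wd_ok.al0 j
        · exact zero_le_one
      · intro j _
        apply Finset.prod_le_one
        · intro l _
          unfold lw; split_ifs
          · exact Wd_ok.al0 j
          · exact zero_le_one
        · intro l _
          unfold lw; split_ifs
          · have := Wd_ok.al1 j; linarith
          · exact le_rfl
    have hV0 : 0 ≤ ∏ l ∈ (prs (100 * 5) P).filter (fun l => ¬ l ∣ DE univ u),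
        (1 - v1 Wd P0 univ u l) := by
      apply Finset.prod_nonneg
      intro l hl
      have hl1 := (Finset.mem_filter.1 hl).1
      simp only [prs, Finset.mem_filter, Finset.mem_Ioc] at hl1
      have := v1_mem Wd Wd_ok P0 univ u hl1.2 (by omega)
      linarith [this.2]
    calc _ ≤ (∏ j, ∏ l ∈ (dn u j).primeFactors, lw P l (Wd.al j)) *
          (C1 * X * ((∏ p ∈ (DE univ u).primeFactors, 2 / ((p : ℝ) + 1)) *
          ∏ p ∈ (prs (100 * 5) P).filter (fun p => ¬ p ∣ DE univ u), (1 - v1 Wd P0 univ u p)) +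
          (X : ℝ) ^ (1 - δ / 2)) := mul_le_mul_of_nonneg_left h5 hlw0
      _ = C1 * X * (((∏ j, ∏ l ∈ (dn u j).primeFactors, lw P l (Wd.al j)) *
            (∏ p ∈ (DE univ u).primeFactors, 2 / ((p : ℝ) + 1))) *
          ∏ p ∈ (prs (100 * 5) P).filter (fun p => ¬ p ∣ DE univ u), (1 - v1 Wd P0 univ u p)) +
          (∏ j, ∏ l ∈ (dn u j).primeFactors, lw P l (Wd.al j)) * (X : ℝ) ^ (1 - δ / 2) := by ring
      _ ≤ C1 * X * ((∏ j, ∏ l ∈ (dn u j).primeFactors, 2 * lw P l (Wd.al j) / (l : ℝ)) *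
          ∏ l ∈ (prs (100 * 5) P).filter (fun l => ¬ l ∣ DE univ u), (1 - v1 Wd P0 univ u l)) +
          1 * (X : ℝ) ^ (1 - δ / 2) := by
          have hCX : 0 ≤ C1 * (X : ℝ) := mul_nonneg hC1 hX0.le
          exact add_le_add (mul_le_mul_of_nonneg_left
            (mul_le_mul_of_nonneg_right (edge_prod_le hisP Wd Wd_ok) hV0) hCX)
            (mul_le_mul_of_nonneg_right hlw1 (Real.rpow_nonneg hX0.le (1 - δ / 2)))
      _ = _ := by rw [one_mul]
  refine (Finset.sum_le_sum s3).trans ?_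
  rw [Finset.sum_add_distrib, Finset.sum_const, nsmul_eq_mul, ← Finset.mul_sum]
  have h6 := H3 X (by omega) G hGP
  have h7 := gp_card hp hκ1 hX2 G hGP
  have hL1 : 1 ≤ Real.log X := a3
  have hL0 : 0 < Real.log X := by linarith
  -- the exponent
  have hexp : -5 + ∑ j, (Wd.al j + Wd.be j) + 1 / 100 * (∑ j, (Wd.bo j - Wd.al j - Wd.be j)) ≤
      -(5 / 2) * (1 + 1 / 20) := by
    refine le_trans (le_of_eq ?_) hnum
    have e4 : (4 : ℝ) ^ (-(21 / 20) : ℝ) = (4 : ℝ) ^ (-(1 / 20) : ℝ) / 4 := by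
      rw [show (-(21 / 20) : ℝ) = -(1 / 20) + (-1) by norm_num,
        Real.rpow_add (by norm_num : (0 : ℝ) < 4), Real.rpow_neg_one]
      ring
    have e2 : (2 : ℝ) ^ (-(21 / 20) : ℝ) = (2 : ℝ) ^ (-(1 / 20) : ℝ) / 2 := by
      rw [show (-(21 / 20) : ℝ) = -(1 / 20) + (-1) by norm_num,
        Real.rpow_add (by norm_num : (0 : ℝ) < 2), Real.rpow_neg_one]
      ring
    rw [Fin.sum_univ_five, Fin.sum_univ_five]
    simp only [Wd, Matrix.cons_val_zero, Matrix.cons_val_one, Matrix.cons_val]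
    rw [e4, e2]
    ring
  have h8 : Real.log X ^ (-5 + ∑ j, (Wd.al j + Wd.be j) +
      1 / 100 * (∑ j, (Wd.bo j - Wd.al j - Wd.be j))) ≤
      Real.log X ^ (-(5 / 2) * (1 + 1 / 20) : ℝ) :=
    Real.rpow_le_rpow_of_exponent_le hL1 hexp
  have h9 : (X : ℝ) ^ (20 * κ) * (X : ℝ) ^ (1 - δ / 2) ≤
      1 * X * Real.log X ^ (-(5 / 2) * (1 + 1 / 20) : ℝ) := by
    have e1 : (X : ℝ) ^ (20 * κ) * (X : ℝ) ^ (1 - δ / 2) =
        X * (X : ℝ) ^ (20 * κ - δ / 2) := by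
      rw [← Real.rpow_add hX0]
      conv_rhs => rw [← Real.rpow_one_add' hX0.le (by rw [hκd]; intro h; nlinarith)]
      congr 1; ring
    rw [e1, one_mul]
    apply mul_le_mul_of_nonneg_left _ hX0.le
    have e2 : (X : ℝ) ^ (20 * κ - δ / 2) ≤ ((X : ℝ) ^ (δ / 4))⁻¹ := by
      rw [← Real.rpow_neg hX0.le]
      exact Real.rpow_le_rpow_of_exponent_le hX1 (by rw [hκd]; linarith)
    refine e2.trans ?_
    have e3 : Real.log X ^ (-3 : ℝ) ≤ Real.log X ^ (-(5 / 2) * (1 + 1 / 20) : ℝ) :=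
      Real.rpow_le_rpow_of_exponent_le hL1 (by norm_num)
    refine le_trans ?_ e3
    rw [Real.rpow_neg hL0.le]
    apply inv_anti₀ (Real.rpow_pos_of_pos hL0 _)
    rw [show (3 : ℝ) = ((3 : ℕ) : ℝ) by norm_num, Real.rpow_natCast]
    exact a2
  have h10 : 0 ≤ (X : ℝ) ^ (1 - δ / 2) := Real.rpow_nonneg hX0.le _
  calc _ ≤ C1 * X * (C2 * Real.log X ^ (-5 + ∑ j, (Wd.al j + Wd.be j) +
        1 / 100 * (∑ j, (Wd.bo j - Wd.al j - Wd.be j)))) +
        (X : ℝ) ^ (20 * κ) * (X : ℝ) ^ (1 - δ / 2) := by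
        apply add_le_add
        · exact mul_le_mul_of_nonneg_left h6 (by positivity)
        · exact mul_le_mul_of_nonneg_right h7 h10
    _ ≤ C1 * X * (C2 * Real.log X ^ (-(5 / 2) * (1 + 1 / 20) : ℝ)) +
        1 * X * Real.log X ^ (-(5 / 2) * (1 + 1 / 20) : ℝ) := by
        apply add_le_add _ h9
        exact mul_le_mul_of_nonneg_left (mul_le_mul_of_nonneg_left h8 hC2) (by positivity)
    _ = _ := by ring

end Pool.Agent.PFM
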